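import Pool.Agent.Helper72.N9.An7b

/-! Far region: `far : ST_FAR`. -/

namespace N9

open scoped Quaternion

theorem pd_st {g : V3 → ℝ} {x : V3} {KS : ℝ} (hKS : ∀ t, |deriv Real.smoothTransition t| ≤ KS)
    (α β : ℝ) (hg : DifferentiableAt ℝ g x) (l : Fin 3) :
    |pd l (fun y => Real.smoothTransition (α * g y + β)) x| ≤ KS * (|α| * |pd l g x|) := by
  have hS : DifferentiableAt ℝ Real.smoothTransition (α * g x + β) :=
    (Real.smoothTransition.contDiff (n := 1)).differentiable (by norm_num) _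
  have hin : HasDerivAt (fun t : ℝ => α * t + β) α (g x) := by
    simpa using ((hasDerivAt_id (g x)).const_mul α).add_const β
  have hφ : HasDerivAt (fun t : ℝ => Real.smoothTransition (α * t + β))
      (deriv Real.smoothTransition (α * g x + β) * α) (g x) := by
    have h1 : HasDerivAt Real.smoothTransition (deriv Real.smoothTransition (α * g x + β))
        ((fun t : ℝ => α * t + β) (g x)) := hS.hasDerivAt
    exact h1.comp (g x) hin
  rw [pd_comp_real (φ := fun t => Real.smoothTransition (α * t + β)) hφ.differentiableAt hg l,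
    hφ.deriv, abs_mul, abs_mul, mul_assoc]
  exact mul_le_mul_of_nonneg_right (hKS _) (by positivity)

section

variable {I K : Type} [Fintype I] [Fintype K] (D : AData I K) (r s c R1 : ℝ)

/-- the parameters as functions of the point -/
noncomputable def Phi (y : V3) : PS I :=
  (Real.smoothTransition (3 / (c * s) * Real.log (Zf (Gp D r s) y) + (-3)),
   Real.smoothTransition (3 / (c * s) * Real.log (Zf (Gp D r s) y) + (-4)),
   Real.smoothTransition (3 / (c * s) * Real.log (Zf (Gp D r s) y) + (-5)),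
   Real.smoothTransition (1 / R1 ^ 2 * nsq y + (-1)),
   (fun i => aw (Gp D r s) (some i) y), y)

theorem Gp1 (i : I) : ContDiff ℝ 1 (Gp D r s i) := Gp_contDiff D r s i (n := 1)

theorem st_contDiff {g : V3 → ℝ} (hg : ContDiff ℝ 1 g) (α β : ℝ) :
    ContDiff ℝ 1 (fun y => Real.smoothTransition (α * g y + β)) :=
  (Real.smoothTransition.contDiff (n := 1)).comp ((contDiff_const.mul hg).add contDiff_const)

theorem Phi_contDiff : ContDiff ℝ 1 (Phi D r s c R1) := by
  have hM : ContDiff ℝ 1 (fun y => Real.log (Zf (Gp D r s) y)) :=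
    logZ_contDiff _ (Gp1 D r s)
  unfold Phi
  exact (st_contDiff hM _ _).prodMk ((st_contDiff hM _ _).prodMk ((st_contDiff hM _ _).prodMk
    ((st_contDiff nsq_contDiff _ _).prodMk ((contDiff_pi.2 (fun i =>
      aw_contDiff _ (Gp1 D r s) i)).prodMk contDiff_id))))

theorem pd_nsq (l : Fin 3) (y : V3) : pd l nsq y = 2 * y l := by
  have h := pd_nsq_sub 0 l y
  simpa using h

theorem pd_Gp_le (hp : ∀ i, nsq (D.p i) = 1) {C : ℝ} (hs : 1 ≤ s) {y : V3}
    (hb : ∀ i, vn (grd (bpot D r i) y) ≤ C) (i : I) (l : Fin 3) :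
    |pd l (Gp D r s i) y| ≤ (1 + C) * s ^ 8 := by
  have h1 : |grd (Gp D r s i) y l| ≤ vn (grd (Gp D r s i) y) := abs_apply_le _ _
  have h2 : vn (grd (Gp D r s i) y) ≤ s ^ 8 + s * C := by
    rw [grd_Gp]
    refine (vn_sub_le _ _).trans ?_
    rw [vn_smul, vn_smul, abs_of_nonneg (by positivity : 0 ≤ s ^ 8),
      abs_of_nonneg (by linarith : 0 ≤ s)]
    have e1 : vn (D.p i) = 1 := by rw [vn_eq_sqrt, hp]; simp
    rw [e1, mul_one]
    have := mul_le_mul_of_nonneg_left (hb i) (by linarith : 0 ≤ s)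
    linarith
  have h3 : s ≤ s ^ 8 := by
    have : s ^ 1 ≤ s ^ 8 := pow_le_pow_right₀ hs (by norm_num)
    simpa using this
  have hC0 : 0 ≤ C := (vn_nonneg _).trans (hb i)
  have h4 : s * C ≤ s ^ 8 * C := mul_le_mul_of_nonneg_right h3 hC0
  have h5 : |pd l (Gp D r s i) y| = |grd (Gp D r s i) y l| := rfl
  rw [h5]
  nlinarith

theorem aw_some_le (G : I → V3 → ℝ) (y : V3) : ∑ u, aw G (some u) y ≤ 1 := by
  rw [aw_some_sum]
  have := aw_pos G none y
  linarith

theorem sum_aw_le (G : I → V3 → ℝ) (y : V3) (f : I → ℝ) {B : ℝ} (hB : 0 ≤ B)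
    (hf : ∀ i, |f i| ≤ B) : |∑ u, aw G (some u) y * f u| ≤ B := by
  refine (Finset.abs_sum_le_sum_abs _ _).trans ?_
  have h1 : ∀ u ∈ (Finset.univ : Finset I), |aw G (some u) y * f u| ≤ aw G (some u) y * B := by
    intro u _
    rw [abs_mul, abs_of_pos (aw_pos G (some u) y)]
    exact mul_le_mul_of_nonneg_left (hf u) (aw_pos G (some u) y).le
  refine (Finset.sum_le_sum h1).trans ?_
  rw [← Finset.sum_mul]
  have := mul_le_mul_of_nonneg_right (aw_some_le G y) hB
  linarith

/-- bound of the first derivatives of the parameters -/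
theorem Phi_bound (hp : ∀ i, nsq (D.p i) = 1) {C : ℝ} (hC : 1 ≤ C) (hc : 0 < c) (hR1 : 0 < R1)
    {KS : ℝ} (hKS1 : 1 ≤ KS) (hKS : ∀ t, |deriv Real.smoothTransition t| ≤ KS) (hs : 1 ≤ s)
    {y : V3} (hy : y ∈ cube (2 * R1))
    (hb : ∀ i, vn (grd (bpot D r i) y) ≤ C) (l : Fin 3) :
    ‖pd l (Phi D r s c R1) y‖
      ≤ (KS * (3 / c) * (1 + C) + 2 * (1 + C) + KS * (4 / R1) + 1) * s ^ 8 := by
  have hG := fun i => pd_Gp_le D r s hp hs hb i l
  have hs0 : 0 < s := by linarith
  have hB0 : 0 ≤ (1 + C) * s ^ 8 := by positivity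
  have hM1 : |pd l (fun y => Real.log (Zf (Gp D r s) y)) y| ≤ (1 + C) * s ^ 8 := by
    rw [pd_logZ _ (Gp1 D r s)]
    exact sum_aw_le _ _ _ hB0 hG
  have hMd : DifferentiableAt ℝ (fun y => Real.log (Zf (Gp D r s) y)) y :=
    (logZ_contDiff _ (Gp1 D r s)).differentiable (by norm_num) y
  have hnd : DifferentiableAt ℝ nsq y := (nsq_contDiff (n := 1)).differentiable (by norm_num) y
  have hs8 : 1 ≤ s ^ 8 := one_le_pow₀ hs
  have hτ : ∀ β : ℝ, |pd l (fun y => Real.smoothTransition
      (3 / (c * s) * Real.log (Zf (Gp D r s) y) + β)) y| ≤ KS * (3 / c) * (1 + C) * s ^ 8 := by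
    intro β
    refine (pd_st hKS _ β hMd l).trans ?_
    have e1 : |3 / (c * s)| ≤ 3 / c := by
      rw [abs_of_pos (by positivity)]
      apply div_le_div_of_nonneg_left (by norm_num) hc
      nlinarith
    have h2 : |3 / (c * s)| * |pd l (fun y => Real.log (Zf (Gp D r s) y)) y|
        ≤ 3 / c * ((1 + C) * s ^ 8) := mul_le_mul e1 hM1 (abs_nonneg _) (by positivity)
    have h3 := mul_le_mul_of_nonneg_left h2 (by linarith : 0 ≤ KS)
    calc _ ≤ KS * (3 / c * ((1 + C) * s ^ 8)) := h3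
      _ = _ := by ring
  have hτ3 : |pd l (fun y => Real.smoothTransition (1 / R1 ^ 2 * nsq y + (-1))) y|
      ≤ KS * (4 / R1) * s ^ 8 := by
    refine (pd_st hKS _ _ hnd l).trans ?_
    rw [pd_nsq, abs_of_pos (by positivity : 0 < 1 / R1 ^ 2)]
    have h2 : |2 * y l| ≤ 4 * R1 := by
      rw [abs_mul, abs_of_pos (by norm_num : (0 : ℝ) < 2)]
      have := hy l
      linarith
    have h3 : 1 / R1 ^ 2 * |2 * y l| ≤ 4 / R1 := by
      calc 1 / R1 ^ 2 * |2 * y l| ≤ 1 / R1 ^ 2 * (4 * R1) :=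
            mul_le_mul_of_nonneg_left h2 (by positivity)
        _ = 4 / R1 := by field_simp
    have h4 := mul_le_mul_of_nonneg_left h3 (by linarith : 0 ≤ KS)
    have h5 : 0 ≤ KS * (4 / R1) := by positivity
    nlinarith
  have ha : ‖pd l (fun y => (fun i => aw (Gp D r s) (some i) y : I → ℝ)) y‖
      ≤ 2 * (1 + C) * s ^ 8 := by
    rw [pd_pi (fun i => (aw_contDiff _ (Gp1 D r s) i).differentiable (by norm_num) y)]
    rw [pi_norm_le_iff_of_nonneg (by positivity)]
    intro i
    rw [Real.norm_eq_abs, pd_aw _ (Gp1 D r s), abs_mul, abs_of_pos (aw_pos _ (some i) y)]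
    have h1 := aw_le_one (Gp D r s) (some i) y
    have h2 : |pd l (Gp D r s i) y - ∑ w, aw (Gp D r s) (some w) y * pd l (Gp D r s w) y|
        ≤ 2 * (1 + C) * s ^ 8 := by
      refine (abs_sub _ _).trans ?_
      have := sum_aw_le (Gp D r s) y (fun w => pd l (Gp D r s w) y) hB0 hG
      have := hG i
      linarith
    calc _ ≤ 1 * (2 * (1 + C) * s ^ 8) := mul_le_mul h1 h2 (abs_nonneg _) zero_le_one
      _ = _ := one_mul _
  have hid : ‖pd l (fun y : V3 => y) y‖ ≤ s ^ 8 := by
    have e : pd l (fun y : V3 => y) y = Pi.single l 1 := by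
      unfold pd
      have : (fun y : V3 => y) = id := rfl
      rw [this, fderiv_id]; rfl
    rw [e]
    have : ‖(Pi.single l 1 : V3)‖ = 1 := by
      rw [Pi.norm_single]; simp
    rw [this]; exact hs8
  have d1 := fun β : ℝ => (st_contDiff (logZ_contDiff _ (Gp1 D r s)) (3 / (c * s)) β).differentiable
    (by norm_num) y
  have d3 := (st_contDiff (nsq_contDiff (n := 1)) (1 / R1 ^ 2) (-1)).differentiable
    (by norm_num) y
  have d4 : DifferentiableAt ℝ (fun y => (fun i => aw (Gp D r s) (some i) y : I → ℝ)) y :=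
    (contDiff_pi.2 (fun i => aw_contDiff _ (Gp1 D r s) i)).differentiable (by norm_num) y
  have d5 : DifferentiableAt ℝ (fun y : V3 => y) y := differentiableAt_id
  have n1 : 0 ≤ KS * (3 / c) * (1 + C) * s ^ 8 := by positivity
  have n2 : 0 ≤ 2 * (1 + C) * s ^ 8 := by positivity
  have n3 : 0 ≤ KS * (4 / R1) * s ^ 8 := by positivity
  have n4 : 0 ≤ s ^ 8 := by positivity
  have e : pd l (Phi D r s c R1) y
      = (pd l (fun y => Real.smoothTransition
          (3 / (c * s) * Real.log (Zf (Gp D r s) y) + (-3))) y,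
         pd l (fun y => Real.smoothTransition
          (3 / (c * s) * Real.log (Zf (Gp D r s) y) + (-4))) y,
         pd l (fun y => Real.smoothTransition
          (3 / (c * s) * Real.log (Zf (Gp D r s) y) + (-5))) y,
         pd l (fun y => Real.smoothTransition (1 / R1 ^ 2 * nsq y + (-1))) y,
         pd l (fun y => (fun i => aw (Gp D r s) (some i) y : I → ℝ)) y,
         pd l (fun y : V3 => y) y) := by
    unfold Phi
    rw [pd_prod (d1 _) ((d1 _).prodMk ((d1 _).prodMk (d3.prodMk (d4.prodMk d5)))),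
      pd_prod (d1 _) ((d1 _).prodMk (d3.prodMk (d4.prodMk d5))),
      pd_prod (d1 _) (d3.prodMk (d4.prodMk d5)),
      pd_prod d3 (d4.prodMk d5), pd_prod d4 d5]
  rw [e]
  have hh := hτ (-3)
  have hh' := hτ (-4)
  have hh'' := hτ (-5)
  refine max_le ?_ (max_le ?_ (max_le ?_ (max_le ?_ (max_le ?_ ?_))))
  · rw [Real.norm_eq_abs]; linarith
  · rw [Real.norm_eq_abs]; linarith
  · rw [Real.norm_eq_abs]; linarith
  · rw [Real.norm_eq_abs]; linarith
  · linarith
  · linarith


theorem aw_none_exp (G : I → V3 → ℝ) (y : V3) :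
    aw G none y = Real.exp (-Real.log (Zf G y)) := by
  rw [Real.exp_neg, Real.exp_log (Zf_pos G y)]
  simp only [aw, one_div]

theorem vn_cube {R : ℝ} {y : V3} (hR : 0 ≤ R) (hy : y ∈ cube R) : vn y ≤ 3 * R := by
  refine (vn_le_norm y).trans ?_
  have : ‖y‖ ≤ R := by
    rw [pi_norm_le_iff_of_nonneg hR]
    intro i
    rw [Real.norm_eq_abs]
    exact hy i
  linarith

/-- lower bound of `⟨∑ a p, y⟩` when the potential is large -/
theorem outer_low (hp : ∀ i, nsq (D.p i) = 1) {hm C : ℝ} (hm0 : 0 < hm)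
    (hmi : ∀ i, hm ≤ D.h i) (_hC : 1 ≤ C) (hs : 1 ≤ s) (hsC : 4 * C / hm ≤ s)
    (hR1 : 0 < R1) {y : V3} (hy : y ∈ cube (2 * R1)) (hb : ∀ i, |bpot D r i y| ≤ C)
    (hnone : aw (Gp D r s) none y ≤ 1 / 2)
    (hsm : (Fintype.card I * (6 * R1 + 1)) * Real.exp (-(hm / 2 * s)) ≤ hm / 16)
    (hm1 : hm ≤ 1) :
    hm / 16 ≤ ip (∑ i, aw (Gp D r s) (some i) y • D.p i) y := by
  rw [sum_ip]
  have hs0 : 0 < s := by linarith
  have hvy : vn y ≤ 6 * R1 := by
    have := vn_cube (by linarith : (0 : ℝ) ≤ 2 * R1) hy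
    linarith
  have hs7 : s ≤ s ^ 7 := by
    have : s ^ 1 ≤ s ^ 7 := pow_le_pow_right₀ hs (by norm_num)
    simpa using this
  have hs8 : s ≤ s ^ 8 := by
    have : s ^ 1 ≤ s ^ 8 := pow_le_pow_right₀ hs (by norm_num)
    simpa using this
  have hsC' : C ≤ s ^ 7 * (hm / 4) := by
    rw [div_le_iff₀ hm0] at hsC
    nlinarith
  have hterm : ∀ i, aw (Gp D r s) (some i) y * (hm / 4)
      - (6 * R1 + 1) * Real.exp (-(hm / 2 * s))
      ≤ ip (aw (Gp D r s) (some i) y • D.p i) y := by
    intro i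
    rw [smul_ip]
    have ha := aw_pos (Gp D r s) (some i) y
    have hE : 0 < (6 * R1 + 1) * Real.exp (-(hm / 2 * s)) := by positivity
    by_cases hg : hm / 4 ≤ ip (D.p i) y
    · have := mul_le_mul_of_nonneg_left hg ha.le
      linarith
    · push Not at hg
      have h1 : Gp D r s i y ≤ -(hm / 2 * s) := by
        unfold Gp
        have h2 : s ^ 8 * (ip (D.p i) y - D.h i) ≤ s ^ 8 * (hm / 4 - hm) :=
          mul_le_mul_of_nonneg_left (by linarith [hmi i]) (by positivity)
        have h3 : -(s * C) ≤ s * bpot D r i y := by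
          have := mul_le_mul_of_nonneg_left (abs_le.1 (hb i)).1 hs0.le
          linarith
        have h4 : s * C ≤ s * (s ^ 7 * (hm / 4)) := mul_le_mul_of_nonneg_left hsC' hs0.le
        have h5 : s * (s ^ 7 * (hm / 4)) = s ^ 8 * (hm / 4) := by ring
        have h6 : s * (hm / 2) ≤ s ^ 8 * (hm / 2) := mul_le_mul_of_nonneg_right hs8 (by linarith)
        linarith
      have h2 : aw (Gp D r s) (some i) y ≤ Real.exp (-(hm / 2 * s)) :=
        (aw_le_exp _ i y).trans (Real.exp_le_exp.2 h1)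
      have h3 : -(6 * R1) ≤ ip (D.p i) y := by
        have h4 := abs_ip_le (D.p i) y
        have e1 : vn (D.p i) = 1 := by rw [vn_eq_sqrt, hp]; simp
        rw [e1, one_mul] at h4
        have := (abs_le.1 h4).1
        linarith
      have h5 : hm / 4 - ip (D.p i) y ≤ 6 * R1 + 1 := by linarith
      have h6 : aw (Gp D r s) (some i) y * (hm / 4 - ip (D.p i) y)
          ≤ Real.exp (-(hm / 2 * s)) * (6 * R1 + 1) :=
        mul_le_mul h2 h5 (by linarith) (Real.exp_pos _).le
      linarith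
  have hsum := Finset.sum_le_sum (fun i (_ : i ∈ (Finset.univ : Finset I)) => hterm i)
  rw [Finset.sum_sub_distrib, ← Finset.sum_mul, aw_some_sum, Finset.sum_const, Finset.card_univ,
    nsmul_eq_mul] at hsum
  have h1 : (1 - 1 / 2) * (hm / 4) ≤ (1 - aw (Gp D r s) none y) * (hm / 4) :=
    mul_le_mul_of_nonneg_right (by linarith) (by linarith)
  have h2 : (Fintype.card I : ℝ) * ((6 * R1 + 1) * Real.exp (-(hm / 2 * s)))
      = (Fintype.card I * (6 * R1 + 1)) * Real.exp (-(hm / 2 * s)) := by ring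
  rw [h2] at hsum
  linarith

end

theorem far : ST_FAR := by
  intro I K _ _ D h0 h6 R1 hR1 hbig r c om C s0 hr hc hc2 hom hom1 hC hs0 hcls hbds
  classical
  obtain ⟨hp, hq, hh, _⟩ := h0
  obtain ⟨Ht, hHt, cH, hcH, η, hη, hη2, hnear⟩ := smooth_htp D h6
  obtain ⟨hm, hm0, hm1, hmi⟩ := exists_pos_le D.h hh
  obtain ⟨KS, hKS1, hKS⟩ := st_deriv
  obtain ⟨CG, hCG1, hCG⟩ := Gam_bound D.p D.q Ht hHt (2 * R1)
  have hGam := Gam_contDiff D.p D.q Ht hHt
  -- constants
  obtain ⟨κ, hκ, hκ1, hκ2⟩ : ∃ κ : ℝ, 0 < κ ∧ κ ≤ hm / 16 ∧ κ ≤ R1 ^ 2 :=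
    ⟨min (hm / 16) (R1 ^ 2), lt_min (by positivity) (by positivity), min_le_left _ _,
      min_le_right _ _⟩
  obtain ⟨c0, hc0, hc01, hc02⟩ : ∃ c0 : ℝ, 0 < c0 ∧ c0 ≤ 3 * cH / 4 ∧ c0 * (6 * R1) ≤ κ := by
    refine ⟨min (3 * cH / 4) (κ / (6 * R1)), lt_min (by positivity) (by positivity),
      min_le_left _ _, ?_⟩
    have h1 := min_le_right (3 * cH / 4) (κ / (6 * R1))
    rwa [le_div_iff₀ (by positivity)] at h1
  obtain ⟨CP, hCPd⟩ : ∃ CP : ℝ, CP = KS * (3 / c) * (1 + C) + 2 * (1 + C) + KS * (4 / R1) + 1 :=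
    ⟨_, rfl⟩
  have hCP : 1 ≤ CP := by
    have h1 : 0 ≤ KS * (3 / c) * (1 + C) := by positivity
    have h2 : 0 ≤ KS * (4 / R1) := by positivity
    rw [hCPd]; linarith
  obtain ⟨C1, hC1d⟩ : ∃ C1 : ℝ, C1 = 9 * CG * CP := ⟨_, rfl⟩
  have hC1 : 0 ≤ C1 := by rw [hC1d]; positivity
  -- size of `s`
  obtain ⟨sa, hsa1, hsa⟩ := exp_small c 1 (η / 2) hc zero_le_one (by positivity)
  obtain ⟨sb, hsb1, hsb⟩ := exp_small om (Fintype.card I) (η / 2) hom (Nat.cast_nonneg _)
    (by positivity)
  obtain ⟨sc, hsc1, hsc⟩ := exp_small (hm / 2) (Fintype.card I * (6 * R1 + 1)) (hm / 16)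
    (by positivity) (by positivity) (by positivity)
  refine ⟨(C1 + 1) / c0 ^ 2 + 1, by
    have : 0 ≤ (C1 + 1) / c0 ^ 2 := by positivity
    linarith, fun lam hlam => ?_⟩
  have hlam1 : 1 ≤ lam := by
    have : 0 ≤ (C1 + 1) / c0 ^ 2 := by positivity
    linarith
  have hlamc : C1 + 1 ≤ lam * c0 ^ 2 := by
    have : (C1 + 1) / c0 ^ 2 ≤ lam := by linarith
    rwa [div_le_iff₀ (by positivity)] at this
  refine ⟨sa + sb + sc + s0 + (C + 2) + 4 * C / hm, by
    have : 0 ≤ 4 * C / hm := by positivity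
    linarith, fun s hs => ?_⟩
  have hpos4 : 0 ≤ 4 * C / hm := by positivity
  have hs_a : sa ≤ s := by linarith
  have hs_b : sb ≤ s := by linarith
  have hs_c : sc ≤ s := by linarith
  have hs_0 : s0 ≤ s := by linarith
  have hs_C : C + 2 ≤ s := by linarith
  have hs_h : 4 * C / hm ≤ s := by linarith
  have hs1 : 1 ≤ s := by linarith
  have hsp : 0 < s := by linarith
  have hcs : 0 < c * s := by positivity
  have hs8 : 0 < s ^ 8 := by positivity
  have hM : ContDiff ℝ 1 (fun y => Real.log (Zf (Gp D r s) y)) := logZ_contDiff _ (Gp1 D r s)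
  have hPhi := Phi_contDiff D r s c R1
  -- the potential is large outside the ball
  have hin : ∀ y ∈ cube (2 * R1), Real.log (Zf (Gp D r s) y) ≤ 2 * c * s →
      nsq y < R1 ^ 2 := by
    intro y hy hMy
    by_contra hcon
    push Not at hcon
    obtain ⟨i, hi⟩ := hbig y hcon
    have h1 := G_le_log (Gp D r s) i y
    have h2 : s ^ 8 - s * C ≤ Gp D r s i y := by
      unfold Gp
      have h3 : s ^ 8 * 1 ≤ s ^ 8 * (ip (D.p i) y - D.h i) :=
        mul_le_mul_of_nonneg_left hi hs8.le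
      have h4 : s * bpot D r i y ≤ s * C :=
        mul_le_mul_of_nonneg_left ((le_abs_self _).trans (hbds i y hy).1) hsp.le
      linarith
    have h5 : 2 * c * s ≤ s := by nlinarith
    have h6 : s * s ≤ s ^ 8 := by
      have : s ^ 2 ≤ s ^ 8 := pow_le_pow_right₀ hs1 (by norm_num)
      nlinarith
    nlinarith
  -- the value of `Gam` through `mid`
  have hGm : ∀ y, Gam D.p D.q Ht (Phi D r s c R1 y)
      = (1 - Real.smoothTransition (1 / R1 ^ 2 * nsq y + (-1))) •
          mid (∑ i, aw (Gp D r s) (some i) y • D.q i) (∑ i, aw (Gp D r s) (some i) y • D.p i)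
            (fun θ => Ht (θ, fun i => aw (Gp D r s) (some i) y))
            (Real.smoothTransition (3 / (c * s) * Real.log (Zf (Gp D r s) y) + (-3)))
            (Real.smoothTransition (3 / (c * s) * Real.log (Zf (Gp D r s) y) + (-4)))
            (Real.smoothTransition (3 / (c * s) * Real.log (Zf (Gp D r s) y) + (-5)))
        + Real.smoothTransition (1 / R1 ^ 2 * nsq y + (-1)) • y := fun y => rfl
  -- lower bound
  have hlow : ∀ y ∈ cube (2 * R1), c * s ≤ Real.log (Zf (Gp D r s) y) →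
      c0 ≤ vn (Gam D.p D.q Ht (Phi D r s c R1 y)) := by
    intro y hy hMy
    have hnone : aw (Gp D r s) none y ≤ η / 2 := by
      rw [aw_none_exp]
      have h1 := hsa s hs_a
      rw [one_mul] at h1
      exact (Real.exp_le_exp.2 (by linarith)).trans h1
    rcases le_total (Real.log (Zf (Gp D r s) y)) (2 * c * s) with hM2 | hM2
    · -- near the polytope
      have hny := hin y hy hM2
      have hτ3 : Real.smoothTransition (1 / R1 ^ 2 * nsq y + (-1)) = 0 := by
        apply Real.smoothTransition.zero_of_nonpos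
        have : 1 / R1 ^ 2 * nsq y ≤ 1 := by
          rw [one_div, inv_mul_le_iff₀ (by positivity)]
          linarith
        linarith
      obtain ⟨S, ⟨k, t, ht, hSt⟩, hout, _⟩ := hcls s hs_0 y hy hM2
      have hsum : 1 - η ≤ ∑ i ∈ t, aw (Gp D r s) (some i) y := by
        have h1 := aw_some_sum (Gp D r s) y
        rw [← Finset.sum_add_sum_compl t] at h1
        have h2 : ∑ i ∈ tᶜ, aw (Gp D r s) (some i) y ≤ η / 2 := by
          have h3 : ∀ i ∈ tᶜ, aw (Gp D r s) (some i) y ≤ Real.exp (-(om * s)) := by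
            intro i hi
            have hiS : ¬ S i := fun h => (Finset.mem_compl.1 hi) (hSt i h)
            exact (aw_le_exp _ i y).trans (Real.exp_le_exp.2 (hout i hiS))
          refine (Finset.sum_le_sum h3).trans ?_
          rw [Finset.sum_const, nsmul_eq_mul]
          refine le_trans ?_ (hsb s hs_b)
          apply mul_le_mul_of_nonneg_right _ (Real.exp_pos _).le
          exact_mod_cast Finset.card_le_univ _
        linarith
      obtain ⟨b, hb1, hb2, hb3, hb4⟩ := hnear (fun i => aw (Gp D r s) (some i) y)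
        (fun i => (aw_pos _ _ _).le) (aw_some_le _ _) k t ht hsum
      have h5 := mid_low hb1 hb2 hb3 hb4 (Real.log (Zf (Gp D r s) y) / (c * s))
      have e3 : 3 * (Real.log (Zf (Gp D r s) y) / (c * s) - 1)
          = 3 / (c * s) * Real.log (Zf (Gp D r s) y) + (-3) := by ring
      have e4 : 3 / (c * s) * Real.log (Zf (Gp D r s) y) + (-3) - 1
          = 3 / (c * s) * Real.log (Zf (Gp D r s) y) + (-4) := by ring
      have e5 : 3 / (c * s) * Real.log (Zf (Gp D r s) y) + (-3) - 2
          = 3 / (c * s) * Real.log (Zf (Gp D r s) y) + (-5) := by ring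
      rw [e3, e4, e5] at h5
      rw [hGm, hτ3, sub_zero, one_smul, zero_smul, add_zero]
      exact hc01.trans (h5.trans (norm_le_vn _))
    · -- far away
      have hm3 : 6 ≤ 3 / (c * s) * Real.log (Zf (Gp D r s) y) := by
        rw [div_mul_eq_mul_div, le_div_iff₀ hcs]
        linarith
      have hval : Gam D.p D.q Ht (Phi D r s c R1 y)
          = (1 - Real.smoothTransition (1 / R1 ^ 2 * nsq y + (-1))) •
              (∑ i, aw (Gp D r s) (some i) y • D.p i)
            + Real.smoothTransition (1 / R1 ^ 2 * nsq y + (-1)) • y := by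
        rw [hGm]
        unfold mid
        rw [Real.smoothTransition.one_of_one_le (by linarith :
            1 ≤ 3 / (c * s) * Real.log (Zf (Gp D r s) y) + (-3)),
          Real.smoothTransition.one_of_one_le (by linarith :
            1 ≤ 3 / (c * s) * Real.log (Zf (Gp D r s) y) + (-5))]
        simp
      have hP := outer_low D r s R1 hp hm0 hmi hC hs1 hs_h hR1 hy (fun i => (hbds i y hy).1)
        (hnone.trans (by linarith)) (hsc s hs_c) hm1
      have hipl : κ ≤ ip (Gam D.p D.q Ht (Phi D r s c R1 y)) y := by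
        rw [hval, add_ip, smul_ip, smul_ip, ip_self]
        have hT := st_mem (1 / R1 ^ 2 * nsq y + (-1))
        set T := Real.smoothTransition (1 / R1 ^ 2 * nsq y + (-1)) with hTd
        rcases le_total (R1 ^ 2) (nsq y) with hn | hn
        · have h1 : (1 - T) * κ
              ≤ (1 - T) * ip (∑ i, aw (Gp D r s) (some i) y • D.p i) y :=
            mul_le_mul_of_nonneg_left (hκ1.trans hP) (by linarith [hT.2])
          have h2 : T * κ ≤ T * nsq y := mul_le_mul_of_nonneg_left (hκ2.trans hn) hT.1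
          nlinarith
        · have hT0 : T = 0 := by
            rw [hTd]
            apply Real.smoothTransition.zero_of_nonpos
            have : 1 / R1 ^ 2 * nsq y ≤ 1 := by
              rw [one_div, inv_mul_le_iff₀ (by positivity)]
              linarith
            linarith
          rw [hT0]
          linarith
      have hvy : vn y ≤ 6 * R1 := by
        have := vn_cube (by linarith : (0 : ℝ) ≤ 2 * R1) hy
        linarith
      have h1 := hipl.trans (ip_le _ _)
      have h2 : vn (Gam D.p D.q Ht (Phi D r s c R1 y)) * vn y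
          ≤ vn (Gam D.p D.q Ht (Phi D r s c R1 y)) * (6 * R1) :=
        mul_le_mul_of_nonneg_left hvy (vn_nonneg _)
      have h3 : c0 * (6 * R1) ≤ vn (Gam D.p D.q Ht (Phi D r s c R1 y)) * (6 * R1) := by linarith
      exact le_of_mul_le_mul_right h3 (by positivity)
  -- bound of the derivatives
  have hpd : ∀ y ∈ cube (2 * R1), ∀ l,
      vn (pd l (fun y => (lam * s ^ 8) • Gam D.p D.q Ht (Phi D r s c R1 y)) y)
        ≤ 3 * (lam * s ^ 8 * (CG * (CP * s ^ 8))) := by
    intro y hy l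
    refine (vn_le_norm _).trans ?_
    apply mul_le_mul_of_nonneg_left _ (by norm_num)
    have hd1 : DifferentiableAt ℝ (Gam D.p D.q Ht) (Phi D r s c R1 y) :=
      hGam.differentiable (by norm_num) _
    have hd2 : DifferentiableAt ℝ (Phi D r s c R1) y := hPhi.differentiable (by norm_num) y
    have hd3 : DifferentiableAt ℝ (fun y => Gam D.p D.q Ht (Phi D r s c R1 y)) y :=
      hd1.comp y hd2
    have e1 : pd l (fun y => (lam * s ^ 8) • Gam D.p D.q Ht (Phi D r s c R1 y)) y
        = (lam * s ^ 8) • pd l (fun y => Gam D.p D.q Ht (Phi D r s c R1 y)) y := by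
      unfold pd
      rw [fderiv_fun_const_smul hd3]
      rfl
    rw [e1, norm_smul, Real.norm_eq_abs, abs_of_pos (by positivity), pd_comp _ _ hd1 hd2]
    apply mul_le_mul_of_nonneg_left _ (by positivity)
    refine (ContinuousLinearMap.le_opNorm _ _).trans ?_
    have hΦ := Phi_bound D r s c R1 hp hC hc hR1 hKS1 hKS hs1 hy
      (fun i => (hbds i y hy).2.1) l
    rw [← hCPd] at hΦ
    have hCGy := hCG (Phi D r s c R1 y) (st_mem _) (st_mem _) (st_mem _) (st_mem _)
      ⟨fun i => (aw_pos (Gp D r s) (some i) y).le,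
        fun i => aw_le_one (Gp D r s) (some i) y⟩ hy
    exact mul_le_mul hCGy hΦ (norm_nonneg _) (by linarith)
  have hcd : ContDiff ℝ 1 (fun y => Gam D.p D.q Ht (Phi D r s c R1 y)) := hGam.comp hPhi
  refine ⟨fun y => (lam * s ^ 8) • Gam D.p D.q Ht (Phi D r s c R1 y),
    hcd.const_smul (lam * s ^ 8), ?_, ?_, ?_⟩
  · -- inside: the average field
    intro y hy hMy
    have hny : nsq y < R1 ^ 2 := hin y hy (by
      have : c * s ≤ 2 * c * s := by nlinarith
      linarith)
    have hev1 : ∀ᶠ z in nhds y, Real.log (Zf (Gp D r s) z) < c * s :=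
      (hM.continuous.continuousAt (x := y)).eventually_lt continuousAt_const hMy
    have hev2 : ∀ᶠ z in nhds y, nsq z < R1 ^ 2 :=
      (nsq_continuous.continuousAt (x := y)).eventually_lt continuousAt_const hny
    filter_upwards [hev1, hev2] with z hz1 hz2
    have hm3 : 3 / (c * s) * Real.log (Zf (Gp D r s) z) ≤ 3 := by
      rw [div_mul_eq_mul_div, div_le_iff₀ hcs]
      linarith
    have hτ3 : 1 / R1 ^ 2 * nsq z ≤ 1 := by
      rw [one_div, inv_mul_le_iff₀ (by positivity)]
      linarith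
    rw [hGm, Real.smoothTransition.zero_of_nonpos (by linarith :
        1 / R1 ^ 2 * nsq z + (-1) ≤ 0)]
    unfold mid
    rw [Real.smoothTransition.zero_of_nonpos (by linarith :
      3 / (c * s) * Real.log (Zf (Gp D r s) z) + (-3) ≤ 0)]
    simp only [sub_zero, one_smul, zero_smul, add_zero]
    unfold avg
    rw [mul_smul, Finset.smul_sum]
    congr 1
    refine Finset.sum_congr rfl (fun i _ => ?_)
    rw [smul_comm]
  · -- outside: the field is large
    intro y hy hMy a
    have h1 := hlow y hy hMy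
    have h2 := cr_le (fun y => (lam * s ^ 8) • Gam D.p D.q Ht (Phi D r s c R1 y)) y a _
      (hpd y hy)
    have h3 : nsq ((fun y => (lam * s ^ 8) • Gam D.p D.q Ht (Phi D r s c R1 y)) y)
        = (lam * s ^ 8) ^ 2 * vn (Gam D.p D.q Ht (Phi D r s c R1 y)) ^ 2 := by
      simp only
      rw [nsq_smul, vn_sq]
    have h4 : c0 ^ 2 ≤ vn (Gam D.p D.q Ht (Phi D r s c R1 y)) ^ 2 :=
      pow_le_pow_left₀ hc0.le h1 2
    have h5 : (lam * s ^ 8) ^ 2 * c0 ^ 2
        ≤ (lam * s ^ 8) ^ 2 * vn (Gam D.p D.q Ht (Phi D r s c R1 y)) ^ 2 :=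
      mul_le_mul_of_nonneg_left h4 (sq_nonneg _)
    have h6 : 3 * (3 * (lam * s ^ 8 * (CG * (CP * s ^ 8)))) = lam * C1 * s ^ 16 := by
      rw [hC1d]; ring
    rw [h6] at h2
    have h7 : s ^ 16 + lam * C1 * s ^ 16 ≤ (lam * s ^ 8) ^ 2 * c0 ^ 2 := by
      have h8 : 1 + lam * C1 ≤ lam * (lam * c0 ^ 2) := by
        have h9 : lam * (C1 + 1) ≤ lam * (lam * c0 ^ 2) :=
          mul_le_mul_of_nonneg_left hlamc (by linarith)
        linarith
      have h10 := mul_le_mul_of_nonneg_right h8 (by positivity : 0 ≤ s ^ 16)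
      calc s ^ 16 + lam * C1 * s ^ 16 = (1 + lam * C1) * s ^ 16 := by ring
        _ ≤ lam * (lam * c0 ^ 2) * s ^ 16 := h10
        _ = (lam * s ^ 8) ^ 2 * c0 ^ 2 := by ring
    rw [h3]
    have h11 : (s ^ 16 + lam * C1 * s ^ 16) * ‖a‖ ^ 2
        ≤ (lam * s ^ 8) ^ 2 * vn (Gam D.p D.q Ht (Phi D r s c R1 y)) ^ 2 * ‖a‖ ^ 2 :=
      mul_le_mul_of_nonneg_right (h7.trans h5) (sq_nonneg _)
    linarith
  · -- faces
    intro i y hy hyi
    have hn : 4 * R1 ^ 2 ≤ nsq y := by
      have h1 : (y i) ^ 2 ≤ nsq y := by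
        unfold nsq
        exact Finset.single_le_sum (f := fun j => y j ^ 2) (fun j _ => sq_nonneg _)
          (Finset.mem_univ i)
      have h2 : (y i) ^ 2 = (2 * R1) ^ 2 := by rw [← hyi, sq_abs]
      nlinarith
    have hτ3 : 1 ≤ 1 / R1 ^ 2 * nsq y + (-1) := by
      have : 4 ≤ 1 / R1 ^ 2 * nsq y := by
        rw [one_div, inv_mul_eq_div, le_div_iff₀ (by positivity)]
        linarith
      linarith
    simp only
    rw [hGm, Real.smoothTransition.one_of_one_le hτ3, sub_self, zero_smul, zero_add, one_smul]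
    simp only [Pi.smul_apply, smul_eq_mul]
    have : 0 ≤ lam * s ^ 8 := by positivity
    nlinarith [mul_nonneg this (mul_self_nonneg (y i))]

end N9
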