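import Pool.Agent.Helper24.N9.Deg1
import Pool.Agent.Helper30.N9.Cx3

/-! MP_9b91d1_co, rows SHEAR and MAXS. -/

open scoped RealInnerProductSpace Topology

namespace Pool.Agent.Helper30.N9

/-- Cauchy-Binet for triple products. -/
theorem det3_mul_det3 (a b c u v w : E3) : det3 a b c * det3 u v w
    = ⟪a, u⟫ * (⟪b, v⟫ * ⟪c, w⟫ - ⟪b, w⟫ * ⟪c, v⟫)
      - ⟪a, v⟫ * (⟪b, u⟫ * ⟪c, w⟫ - ⟪b, w⟫ * ⟪c, u⟫)
      + ⟪a, w⟫ * (⟪b, u⟫ * ⟪c, v⟫ - ⟪b, v⟫ * ⟪c, u⟫) := by
  simp only [det3, inner_def]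
  ring

/-- determinant with the axis in cylindrical coordinates -/
theorem det3_axis {a r : E3} (ha : ‖a‖ = 1) (hr : ‖r‖ = 1) (har : ⟪a, r⟫ = 0) (x y : E3) :
    det3 a x y = ⟪r, x⟫ * det3 a r y - det3 a r x * ⟪r, y⟫ := by
  have h := det3_mul_det3 a x y a r (crs a r)
  have h1 : det3 a r (crs a r) = 1 := by
    rw [det3_crs, crs_inner_self, inner_self_one ha, inner_self_one hr, har]; norm_num
  have h2 : ⟪x, crs a r⟫ = det3 a r x := by rw [real_inner_comm, crs_inner]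
  have h3 : ⟪y, crs a r⟫ = det3 a r y := by rw [real_inner_comm, crs_inner]
  have h4 : ⟪a, crs a r⟫ = 0 := by
    rw [real_inner_comm, crs_inner]; simp only [det3]; ring
  rw [h1, h2, h3, h4, inner_self_one ha, har, real_inner_comm r x, real_inner_comm r y] at h
  linarith

/-- radius in cylindrical coordinates -/
theorem cyl_norm {a r : E3} (ha : ‖a‖ = 1) (hr : ‖r‖ = 1) (har : ⟪a, r⟫ = 0) (x : E3) :
    ‖x - ⟪a, x⟫ • a‖ ^ 2 = ⟪r, x⟫ ^ 2 + det3 a r x ^ 2 := by
  have h := gram a r x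
  rw [inner_self_one ha, inner_self_one hr, har] at h
  rw [norm_sub_sq_real, norm_smul, inner_smul_right, mul_pow, ha, Real.norm_eq_abs, sq_abs,
    real_inner_comm a x]
  rw [real_inner_self_eq_norm_sq, real_inner_comm a x] at h
  have h5 : ⟪r, x⟫ = ⟪x, r⟫ := real_inner_comm _ _
  rw [h5] at h ⊢
  linarith

theorem shear_alg {x y x' y' ρ ρ' : ℝ} (hρ : 0 < ρ) (hρ' : 0 < ρ') (h : ρ ^ 2 = x ^ 2 + y ^ 2)
    (h' : ρ' ^ 2 = x' ^ 2 + y' ^ 2) (hy : 0 ≤ y) (hy' : 0 ≤ y') :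
    0 ≤ (x / ρ - x' / ρ') * (x * y' - y * x') ∧
    ((x / ρ - x' / ρ') * (x * y' - y * x') = 0 → x * y' - y * x' = 0) := by
  obtain ⟨c, hc⟩ : ∃ c, c = x / ρ := ⟨_, rfl⟩
  obtain ⟨c', hc'⟩ : ∃ c', c' = x' / ρ' := ⟨_, rfl⟩
  obtain ⟨s, hs⟩ : ∃ s, s = y / ρ := ⟨_, rfl⟩
  obtain ⟨s', hs'⟩ : ∃ s', s' = y' / ρ' := ⟨_, rfl⟩
  have ex : x = ρ * c := by rw [hc]; field_simp
  have ex' : x' = ρ' * c' := by rw [hc']; field_simp
  have ey : y = ρ * s := by rw [hs]; field_simp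
  have ey' : y' = ρ' * s' := by rw [hs']; field_simp
  have n1 : c ^ 2 + s ^ 2 = 1 := by
    rw [ex, ey] at h
    have : ρ ^ 2 * (c ^ 2 + s ^ 2) = ρ ^ 2 * 1 := by linarith
    exact mul_left_cancel₀ (pow_pos hρ 2).ne' this
  have n2 : c' ^ 2 + s' ^ 2 = 1 := by
    rw [ex', ey'] at h'
    have : ρ' ^ 2 * (c' ^ 2 + s' ^ 2) = ρ' ^ 2 * 1 := by linarith
    exact mul_left_cancel₀ (pow_pos hρ' 2).ne' this
  have hs0 : 0 ≤ s := by rw [hs]; exact div_nonneg hy hρ.le
  have hs0' : 0 ≤ s' := by rw [hs']; exact div_nonneg hy' hρ'.le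
  have key : (x / ρ - x' / ρ') * (x * y' - y * x')
      = ρ * ρ' * ((s + s') * ((c - c') ^ 2 + (s' - s) ^ 2) / 2) := by
    rw [← hc, ← hc', ex, ex', ey, ey']
    have e : (c - c') * (c * s' - s * c') = (s + s') * ((c - c') ^ 2 + (s' - s) ^ 2) / 2 := by
      have : c ^ 2 - c' ^ 2 = s' ^ 2 - s ^ 2 := by linarith
      linear_combination ((s' - s) / 2) * this
    calc (c - c') * (ρ * c * (ρ' * s') - ρ * s * (ρ' * c'))
        = ρ * ρ' * ((c - c') * (c * s' - s * c')) := by ring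
      _ = _ := by rw [e]
  rw [key]
  have hρρ : 0 < ρ * ρ' := mul_pos hρ hρ'
  refine ⟨by positivity, fun h0 => ?_⟩
  rcases mul_eq_zero.mp h0 with h1 | h1
  · exact absurd h1 hρρ.ne'
  · have h2 : (s + s') * ((c - c') ^ 2 + (s' - s) ^ 2) = 0 := by linarith
    rw [ex, ex', ey, ey']
    rcases mul_eq_zero.mp h2 with h3 | h3
    · have hs1 : s = 0 := by linarith
      have hs2 : s' = 0 := by linarith
      rw [hs1, hs2]; ring
    · have h4 : (c - c') ^ 2 = 0 := by nlinarith [sq_nonneg (c - c'), sq_nonneg (s' - s)]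
      have h5 : (s' - s) ^ 2 = 0 := by nlinarith [sq_nonneg (c - c'), sq_nonneg (s' - s)]
      have h6 : c = c' := by
        have := pow_eq_zero_iff two_ne_zero |>.mp h4
        linarith
      have h7 : s' = s := by
        have := pow_eq_zero_iff two_ne_zero |>.mp h5
        linarith
      rw [h6, h7]; ring

theorem shear : ST_SHEAR := by
  intro V _ _ M p a r om hp ha hr har hwt hpos hsum
  classical
  obtain ⟨g, hg⟩ : ∃ g : V → ℝ, ∀ v, g v = ⟪r, p v⟫ / ‖p v - ⟪a, p v⟫ • a‖ :=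
    ⟨_, fun _ => rfl⟩
  have h1 : ∑ d : M.G.Dart, g d.fst * (om d * det3 a (p d.fst) (p d.snd)) = 0 := by
    rw [← hsum, ← Finset.sum_fiberwise Finset.univ (fun d : M.G.Dart => d.fst)]
    refine Finset.sum_congr rfl (fun v _ => ?_)
    rw [Finset.mul_sum]
    refine Finset.sum_congr rfl (fun d hd => ?_)
    rw [(Finset.mem_filter.mp hd).2, hg]
  have h2 : ∑ d : M.G.Dart, g d.snd * (om d * det3 a (p d.fst) (p d.snd)) = 0 := by
    have e : ∑ d : M.G.Dart, g d.snd * (om d * det3 a (p d.fst) (p d.snd))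
        = ∑ d : M.G.Dart, - (g d.fst * (om d * det3 a (p d.fst) (p d.snd))) := by
      refine Finset.sum_nbij' (fun d => d.symm) (fun d => d.symm) ?_ ?_ ?_ ?_ ?_
      · intro d _; exact Finset.mem_univ _
      · intro d _; exact Finset.mem_univ _
      · intro d _; simp
      · intro d _; simp
      · intro d _
        rw [hwt.symm]
        show g d.snd * (om d * det3 a (p d.fst) (p d.snd))
          = - (g d.snd * (om d * det3 a (p d.snd) (p d.fst)))
        rw [det3_swap a (p d.fst) (p d.snd)]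
        ring
    rw [e, Finset.sum_neg_distrib, h1, neg_zero]
  have h3 : ∑ d : M.G.Dart, om d * ((g d.fst - g d.snd) * det3 a (p d.fst) (p d.snd)) = 0 := by
    rw [← sub_self (0 : ℝ)]
    nth_rewrite 1 [← h1]
    rw [← h2, ← Finset.sum_sub_distrib]
    refine Finset.sum_congr rfl (fun d _ => ?_)
    ring
  have hterm : ∀ d : M.G.Dart, om d ≠ 0 →
      0 ≤ (g d.fst - g d.snd) * det3 a (p d.fst) (p d.snd) ∧
      ((g d.fst - g d.snd) * det3 a (p d.fst) (p d.snd) = 0 →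
        det3 a (p d.fst) (p d.snd) = 0) := by
    intro d hd
    have hD := det3_axis ha hr har (p d.fst) (p d.snd)
    have c1 := cyl_norm ha hr har (p d.fst)
    have c2 := cyl_norm ha hr har (p d.snd)
    have y1 := hpos d hd
    have y2 := hpos d.symm (by rw [hwt.symm]; exact hd)
    have y2 : 0 ≤ det3 a r (p d.snd) := y2
    rw [hg, hg]
    rcases (norm_nonneg (p d.fst - ⟪a, p d.fst⟫ • a)).eq_or_lt with hz | hz
    · have hD0 : det3 a (p d.fst) (p d.snd) = 0 := by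
        rw [← hz] at c1
        have e1 : ⟪r, p d.fst⟫ = 0 := by
          nlinarith [sq_nonneg (⟪r, p d.fst⟫ : ℝ), sq_nonneg (det3 a r (p d.fst))]
        have e2 : det3 a r (p d.fst) = 0 := by
          nlinarith [sq_nonneg (⟪r, p d.fst⟫ : ℝ), sq_nonneg (det3 a r (p d.fst))]
        rw [hD, e1, e2]; ring
      rw [hD0]; simp
    · rcases (norm_nonneg (p d.snd - ⟪a, p d.snd⟫ • a)).eq_or_lt with hz' | hz'
      · have hD0 : det3 a (p d.fst) (p d.snd) = 0 := by
          rw [← hz'] at c2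
          have e1 : ⟪r, p d.snd⟫ = 0 := by
            nlinarith [sq_nonneg (⟪r, p d.snd⟫ : ℝ), sq_nonneg (det3 a r (p d.snd))]
          have e2 : det3 a r (p d.snd) = 0 := by
            nlinarith [sq_nonneg (⟪r, p d.snd⟫ : ℝ), sq_nonneg (det3 a r (p d.snd))]
          rw [hD, e1, e2]; ring
        rw [hD0]; simp
      · have := shear_alg hz hz' c1 c2 y1 y2
        rw [hD]
        exact this
  have h4 : ∀ d ∈ (Finset.univ : Finset M.G.Dart),
      0 ≤ om d * ((g d.fst - g d.snd) * det3 a (p d.fst) (p d.snd)) := by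
    intro d _
    by_cases hd : om d = 0
    · rw [hd, zero_mul]
    · exact mul_nonneg (hwt.nonneg d) (hterm d hd).1
  intro d hd
  have h5 := (Finset.sum_eq_zero_iff_of_nonneg h4).mp h3 d (Finset.mem_univ d)
  rcases mul_eq_zero.mp h5 with h | h
  · exact absurd h hd
  · exact (hterm d hd).2 h

theorem maxs : ST_MAXS := by
  intro D _ S h0 hadd hnn
  classical
  have h : ∀ d : D, ∃ f ∈ S, ∀ g ∈ S, g d ≠ 0 → f d ≠ 0 := by
    intro d
    by_cases hex : ∃ g ∈ S, g d ≠ 0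
    · obtain ⟨g, hg, hgd⟩ := hex
      exact ⟨g, hg, fun _ _ _ => hgd⟩
    · push Not at hex
      exact ⟨0, h0, fun g hg hgd => absurd (hex g hg) hgd⟩
  choose f hf hf' using h
  have hsum : ∀ s : Finset D, ∑ e ∈ s, f e ∈ S := by
    intro s
    induction s using Finset.induction_on with
    | empty => simpa using h0
    | insert e s he ih => rw [Finset.sum_insert he]; exact hadd _ (hf e) _ ih
  refine ⟨∑ e, f e, hsum _, fun g hg d hgd => ?_⟩
  have h1 : 0 < f d d := lt_of_le_of_ne (hnn _ (hf d) d) (Ne.symm (hf' d g hg hgd))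
  have h2 : f d d ≤ (∑ e, f e) d := by
    rw [Finset.sum_apply]
    exact Finset.single_le_sum (f := fun e => f e d) (fun e _ => hnn _ (hf e) d)
      (Finset.mem_univ d)
  linarith

end Pool.Agent.Helper30.N9
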