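import Pool.Agent.Helper72.N9.Mmt
import Pool.Agent.Helper72.N9.Shear

/-! MP_9b91d1_co, row MML. -/

open scoped RealInnerProductSpace Topology

namespace Pool.Agent.Helper30.N9

namespace PlaneGraph

variable {V : Type} [Fintype V] [DecidableEq V] {M : PlaneGraph V}

theorem conn_of_conn3 (h : M.Conn3) : M.G.Connected := by
  have h1 := h.2 ∅ (by simp)
  have e : {v : V | v ∉ (∅ : Finset V)} = Set.univ := by ext v; simp
  rw [e] at h1
  exact (SimpleGraph.induceUnivIso M.G).connected_iff.mp h1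

theorem not_inV_of_onE {L : Type} {l : M.Face → L} {b : L} {v : V} (h : M.OnE l v) :
    ¬ M.InV (fun w => l w = b) v := by
  obtain ⟨d, rfl, hd⟩ := h
  intro hi
  have h1 := hi.ind_fst
  have h2 : l (M.fc d) = b := h1.1
  have h3 : l (M.fc d.symm) = b := h1.2
  exact hd (h2.trans h3.symm)

theorem onE_of_onB {L : Type} {l : M.Face → L} {b : L} {v : V}
    (h : M.OnB (fun w => l w = b) v) : M.OnE l v := by
  obtain ⟨d, hd, h1 | h1⟩ := h
  · refine ⟨d, hd, ?_⟩
    have h2 : l (M.fc d) = b := h1.1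
    have h3 : ¬ l (M.fc d.symm) = b := h1.2
    intro he
    exact h3 (he.symm.trans h2)
  · refine ⟨d, hd, ?_⟩
    have h2 : l (M.fc d.symm) = b := h1.1
    have h3 : ¬ l (M.fc d.symm.symm) = b := h1.2
    rw [SimpleGraph.Dart.symm_symm] at h3
    intro he
    exact h3 (he.trans h2)

section fan

variable {L : Type} {p : V → E3} {a : E3} {l : M.Face → L} {s t : V} {k : ℕ} {th : ℕ → ℝ}
  {r : ℕ → E3} {lam : ℕ → L}

theorem FanL.two_le (F : M.FanL p a l s t k th r lam) : 2 ≤ k := by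
  have hpi := Real.pi_pos
  rcases Nat.lt_or_ge k 2 with h | h
  · exfalso
    interval_cases k
    · have h1 := F.thk
      rw [F.th0] at h1
      linarith
    · have h1 := F.thk
      have h2 := F.thp 0 (by norm_num)
      rw [F.th0] at h2
      simp only [Nat.zero_add] at h2
      linarith
  · exact h

theorem FanL.lam_ne (F : M.FanL p a l s t k th r lam) {i : ℕ} (hi : i < k) :
    lam (i + 1) ≠ lam i := by
  have h2 := F.two_le
  intro h
  by_cases h1 : i + 1 < k
  · have := F.lami (i + 1) h1 i hi h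
    omega
  · have h3 : i + 1 = k := by omega
    rw [h3, F.lamk] at h
    have := F.lami 0 (by omega) i hi h
    omega

theorem FanL.onE_s (F : M.FanL p a l s t k th r lam) : M.OnE l s := by
  have h2 := F.two_le
  obtain ⟨d, hd, _, h3, h4⟩ := F.top 0 (by omega)
  refine ⟨d, hd, ?_⟩
  unfold E0
  rw [h3, h4]
  exact F.lam_ne (by omega)

theorem FanL.onE_t (F : M.FanL p a l s t k th r lam) : M.OnE l t := by
  have h2 := F.two_le
  obtain ⟨d, hd, _, h3, h4⟩ := F.bot 0 (by omega)
  refine ⟨d.symm, hd, ?_⟩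
  unfold E0
  rw [SimpleGraph.Dart.symm_symm, h3, h4]
  exact (F.lam_ne (by omega)).symm

end fan

end PlaneGraph

open PlaneGraph

theorem crs_unit_perp {a r : E3} (ha : ‖a‖ = 1) (hr : ‖r‖ = 1) (har : ⟪a, r⟫ = 0) :
    ‖crs a r‖ = 1 ∧ ⟪a, crs a r⟫ = 0 ∧ ⟪r, crs a r⟫ = 0 := by
  refine ⟨?_, ?_, ?_⟩
  · rw [norm_one_iff, crs_inner_self, inner_self_one ha, inner_self_one hr, har]; norm_num
  · rw [real_inner_comm, crs_inner]; simp only [det3]; ring
  · rw [real_inner_comm, crs_inner]; simp only [det3]; ring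

/-- rotated unit vector -/
theorem rot_facts {a r0 r : E3} {θ : ℝ} (ha : ‖a‖ = 1) (hr : ‖r0‖ = 1) (har : ⟪a, r0⟫ = 0)
    (h : r = Real.cos θ • r0 + Real.sin θ • crs a r0) :
    ‖r‖ = 1 ∧ ⟪a, r⟫ = 0 ∧
    (∀ x, ⟪r, x⟫ = Real.cos θ * ⟪r0, x⟫ + Real.sin θ * det3 a r0 x) ∧
    (∀ x, det3 a r x = Real.cos θ * det3 a r0 x - Real.sin θ * ⟪r0, x⟫) := by
  obtain ⟨h1, h2, h3⟩ := crs_unit_perp ha hr har
  have hin : ∀ x, ⟪r, x⟫ = Real.cos θ * ⟪r0, x⟫ + Real.sin θ * det3 a r0 x := by
    intro x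
    rw [h, inner_add_left, real_inner_smul_left, real_inner_smul_left, crs_inner]
  refine ⟨?_, ?_, hin, ?_⟩
  · rw [norm_one_iff, hin, h, inner_add_right, inner_smul_right, inner_smul_right,
      inner_self_one hr, h3, det3_add_right, det3_smul_right, det3_smul_right, det3_crs,
      inner_self_one h1]
    have e : det3 a r0 r0 = 0 := by simp only [det3]; ring
    rw [e]
    have := Real.sin_sq_add_cos_sq θ
    linear_combination this
  · rw [h, inner_add_right, inner_smul_right, inner_smul_right, har, h2]; ring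
  · intro x
    rw [det3_axis ha hr har r x]
    have e1 : ⟪r0, r⟫ = Real.cos θ := by
      rw [h, inner_add_right, inner_smul_right, inner_smul_right, inner_self_one hr, h3]; ring
    have e2 : det3 a r0 r = Real.sin θ := by
      rw [h, det3_add_right, det3_smul_right, det3_smul_right, det3_crs, inner_self_one h1]
      have e : det3 a r0 r0 = 0 := by simp only [det3]; ring
      rw [e]; ring
    rw [e1, e2]

/-- the centre of a lune of opening < pi has nonnegative product with its points, zero only on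
the axis -/
theorem lune_centre {a r0 r r' : E3} {θ θ' : ℝ} (ha : ‖a‖ = 1) (hr : ‖r0‖ = 1)
    (har : ⟪a, r0⟫ = 0) (h : r = Real.cos θ • r0 + Real.sin θ • crs a r0)
    (h' : r' = Real.cos θ' • r0 + Real.sin θ' • crs a r0) (h1 : θ < θ')
    (h2 : θ' < θ + Real.pi) {x : E3} (hx1 : 0 ≤ det3 a r x) (hx2 : 0 ≤ det3 a x r') :
    0 ≤ ⟪r + r', x⟫ ∧ (⟪r + r', x⟫ = 0 → ⟪r0, x⟫ = 0 ∧ det3 a r0 x = 0) := by
  obtain ⟨_, _, i1, d1⟩ := rot_facts ha hr har h
  obtain ⟨_, _, i2, d2⟩ := rot_facts ha hr har h'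
  obtain ⟨X, hX⟩ : ∃ X : ℝ, X = ⟪r0, x⟫ := ⟨_, rfl⟩
  obtain ⟨Y, hY⟩ : ∃ Y : ℝ, Y = det3 a r0 x := ⟨_, rfl⟩
  have hu : 0 ≤ Real.cos θ * Y - Real.sin θ * X := by rw [d1] at hx1; rw [hX, hY]; exact hx1
  have hw : 0 ≤ Real.sin θ' * X - Real.cos θ' * Y := by
    have e : det3 a x r' = - det3 a r' x := by simp only [det3]; ring
    rw [e, d2] at hx2
    rw [hX, hY]; linarith
  have hs : 0 < Real.sin (θ' - θ) := Real.sin_pos_of_pos_of_lt_pi (by linarith) (by linarith)
  have hc : 0 < 1 + Real.cos (θ' - θ) := by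
    have h3 : -1 ≤ Real.cos (θ' - θ) := Real.neg_one_le_cos _
    rcases h3.lt_or_eq with h4 | h4
    · linarith
    · exfalso
      have h5 := Real.sin_sq_add_cos_sq (θ' - θ)
      rw [← h4] at h5
      nlinarith
  have q1 := Real.sin_sq_add_cos_sq θ
  have q2 := Real.sin_sq_add_cos_sq θ'
  have key : Real.sin (θ' - θ) * ⟪r + r', x⟫ = (1 + Real.cos (θ' - θ)) *
      ((Real.cos θ * Y - Real.sin θ * X) + (Real.sin θ' * X - Real.cos θ' * Y)) := by
    rw [inner_add_left, i1, i2, ← hX, ← hY, Real.sin_sub, Real.cos_sub]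
    linear_combination (X * Real.sin θ' - Y * Real.cos θ') * q1
      + (Y * Real.cos θ - X * Real.sin θ) * q2
  constructor
  · by_contra hcon
    push Not at hcon
    have h3 := mul_neg_of_pos_of_neg hs hcon
    have h4 := mul_nonneg hc.le (add_nonneg hu hw)
    linarith
  · intro h0
    rw [h0, mul_zero] at key
    have h3 : (Real.cos θ * Y - Real.sin θ * X) + (Real.sin θ' * X - Real.cos θ' * Y) = 0 := by
      rcases mul_eq_zero.mp key.symm with h4 | h4
      · exact absurd h4 hc.ne'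
      · exact h4
    have u0 : Real.cos θ * Y - Real.sin θ * X = 0 := by linarith
    have w0 : Real.sin θ' * X - Real.cos θ' * Y = 0 := by linarith
    have e1 : Real.sin (θ' - θ) * X = 0 := by
      rw [Real.sin_sub]
      linear_combination Real.cos θ * w0 + Real.cos θ' * u0
    have e2 : Real.sin (θ' - θ) * Y = 0 := by
      rw [Real.sin_sub]
      linear_combination Real.sin θ' * u0 + Real.sin θ * w0
    rw [← hX, ← hY]
    constructor
    · rcases mul_eq_zero.mp e1 with h4 | h4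
      · exact absurd h4 hs.ne'
      · exact h4
    · rcases mul_eq_zero.mp e2 with h4 | h4
      · exact absurd h4 hs.ne'
      · exact h4

theorem on_axis {a r0 x : E3} (ha : ‖a‖ = 1) (hr : ‖r0‖ = 1) (har : ⟪a, r0⟫ = 0)
    (h1 : ⟪r0, x⟫ = 0) (h2 : det3 a r0 x = 0) : x = ⟪a, x⟫ • a := by
  have h := cyl_norm ha hr har x
  rw [h1, h2] at h
  have h3 : ‖x - ⟪a, x⟫ • a‖ = 0 := by
    have : ‖x - ⟪a, x⟫ • a‖ ^ 2 = 0 := by rw [h]; norm_num
    exact pow_eq_zero_iff two_ne_zero |>.mp this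
  exact sub_eq_zero.mp (norm_eq_zero.mp h3)

theorem mml (hMMT : ST_MMT) (hSH : ST_SHEAR) : ST_MML := by
  intro V _ _ M L p q h a l s t k th r lam hstd hLM hq hLe hF hFL hE i hi hgap hNM
  classical
  have hp := hstd.inc
  have ha := hF.ua
  have hri := hFL.rr i hi.le
  have hri' := hFL.rr (i + 1) hi
  obtain ⟨T, hT⟩ : ∃ T : M.Face → Prop, T = fun w => l w = lam i := ⟨_, rfl⟩
  obtain ⟨nn, hnn⟩ : ∃ nn, nn = r i + r (i + 1) := ⟨_, rfl⟩
  have hcentre : ∀ x : E3, 0 ≤ det3 a (r i) x → 0 ≤ det3 a x (r (i + 1)) →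
      0 ≤ ⟪nn, x⟫ ∧ (⟪nn, x⟫ = 0 → x = ⟪a, x⟫ • a) := by
    intro x h1 h2
    rw [hnn]
    obtain ⟨h3, h4⟩ := lune_centre ha hFL.r0 hFL.ar0 hri hri' (hFL.thl i hi) hgap h1 h2
    exact ⟨h3, fun h5 => on_axis ha hFL.r0 hFL.ar0 (h4 h5).1 (h4 h5).2⟩
  have hlune : ∀ e : M.G.Dart, T (M.fc e) →
      0 ≤ det3 a (r i) (p e.fst) ∧ 0 ≤ det3 a (p e.fst) (r (i + 1)) := by
    intro e he
    rw [hT] at he
    exact hFL.lune i hi e he
  have hT0 : ∀ e, T (M.fc e) → 0 ≤ ⟪nn, p e.fst⟫ := fun e he =>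
    (hcentre _ (hlune e he).1 (hlune e he).2).1
  have haxis : ∀ v, p v = ⟪a, p v⟫ • a → v = s ∨ v = t := by
    intro v hv
    have h1 : ‖p v‖ = 1 := hp.unit v
    rw [hv, norm_smul, ha, mul_one, Real.norm_eq_abs] at h1
    rcases eq_or_eq_neg_of_abs_eq h1 with h2 | h2
    · left
      apply hp.inj
      rw [hv, h2, one_smul, hF.ps]
    · right
      apply hp.inj
      rw [hv, h2, hF.pt, neg_smul, one_smul]
  have hconn := conn_of_conn3 hstd.c3
  have hV0 : ∀ v, M.InV T v → 0 < ⟪nn, p v⟫ := by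
    intro v hv
    obtain ⟨e, he⟩ := exists_dart_conn hconn hp v
    have h1 := hlune e (hv e he)
    rw [he] at h1
    obtain ⟨h2, h3⟩ := hcentre _ h1.1 h1.2
    rcases h2.lt_or_eq with h4 | h4
    · exact h4
    · exfalso
      have h5 : M.OnE l v := by
        rcases haxis v (h3 h4.symm) with h6 | h6
        · rw [h6]; exact hFL.onE_s
        · rw [h6]; exact hFL.onE_t
      rw [hT] at hv
      exact not_inV_of_onE h5 hv
  have hB0 : ∀ v, M.OnB T v → q v = p v := by
    intro v hv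
    rw [hT] at hv
    exact hE v (onE_of_onB hv)
  have hall : ∀ v, M.InV T v → q v = p v := by
    by_contra hcon
    push Not at hcon
    obtain ⟨v0, hv0, hne0⟩ := hcon
    obtain ⟨om, hwt, ⟨d1, hd1⟩, hin, heq, hone, _, hzero, _⟩ :=
      hMMT V M p q nn T hconn hLM hq hLe hT0 hV0 hB0 ⟨v0, hv0, hne0⟩
    -- all torques vanish
    have htau : ∀ v, ∑ d ∈ Finset.univ.filter (fun d : M.G.Dart => d.fst = v),
        om d * det3 a (p d.fst) (p d.snd) = 0 := by
      intro v
      by_cases hv : M.InV T v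
      · have h1 := heq v hv
        unfold EqAt at h1
        have h2 := congrArg (fun y => ⟪a, y⟫) h1
        simp only [inner_sum, inner_smul_right, inner_zero_right] at h2
        rw [← h2]
        refine Finset.sum_congr rfl (fun d _ => ?_)
        rw [real_inner_comm, crs_inner]
        congr 1
        simp only [det3]; ring
      · refine Finset.sum_eq_zero (fun d hd => ?_)
        have hdv := (Finset.mem_filter.mp hd).2
        by_cases hod : om d = 0
        · rw [hod, zero_mul]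
        · have h1 := (hzero d.symm (by rw [hwt.symm]; exact hod) (by
            show ¬ (M.InV T d.fst ∧ q d.fst ≠ p d.fst)
            rw [hdv]
            exact fun h => hv h.1)).1
          have h1 : ⟪nn, p d.fst⟫ = 0 := h1
          have h2 := hlune d (hin d hod).1
          have h3 := (hcentre _ h2.1 h2.2).2 h1
          have h4 : det3 a (p d.fst) (p d.snd) = 0 := by
            rw [h3]
            have : ∀ (c : ℝ) (y : E3), det3 a (c • a) y = 0 := by
              intro c y
              simp only [det3, PiLp.smul_apply, smul_eq_mul]; ring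
            exact this _ _
          rw [h4, mul_zero]
    have hri1 := rot_facts ha hFL.r0 hFL.ar0 hri
    have hsh := hSH V M p a (r i) om hp.unit ha hri1.1 hri1.2.1 hwt
      (fun d hd => (hlune d (hin d hd).1).1)
      (Finset.sum_eq_zero (fun v _ => by rw [htau v, mul_zero]))
    have hnm := hNM om hwt (by rw [hT] at hin; exact hin) (by rw [hT] at heq; exact heq) hsh
    exact hd1 (hnm d1)
  intro e he
  have heT : T (M.fc e) := by rw [hT]; exact he
  by_cases hv : M.InV T e.fst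
  · exact hall _ hv
  · exact hB0 _ (onB_of_not_inV heT hv)

end Pool.Agent.Helper30.N9
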