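import Pool.Agent.Helper24.N9.Deg3
import Pool.Agent.Helper72.N9.Mml
import Pool.Agent.Helper93.N9.Rays

/-! MP_9b91d1_co, row CUTL. -/

open scoped RealInnerProductSpace Topology

namespace Pool.Agent.Helper30.N9

open PlaneGraph

/-- darts with positive multiple of the pole as cross product lie on the great circle -/
theorem circle_of_crs {n u v : E3} {c : ℝ} (hc : 0 < c) (h : crs u v = c • n) :
    ⟪n, u⟫ = 0 ∧ ⟪n, v⟫ = 0 := by
  have h1 : c * ⟪n, u⟫ = 0 := by
    rw [← real_inner_smul_left, ← h, crs_inner]; simp only [det3]; ring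
  have h2 : c * ⟪n, v⟫ = 0 := by
    rw [← real_inner_smul_left, ← h, crs_inner]; simp only [det3]; ring
  constructor
  · rcases mul_eq_zero.mp h1 with h3 | h3
    · exact absurd h3 hc.ne'
    · exact h3
  · rcases mul_eq_zero.mp h2 with h3 | h3
    · exact absurd h3 hc.ne'
    · exact h3

theorem FanL_mono {V : Type} [Fintype V] [DecidableEq V] {M : PlaneGraph V} {L : Type}
    {p : V → E3} {a : E3} {l : M.Face → L} {s t : V} {k : ℕ} {th : ℕ → ℝ} {r : ℕ → E3}
    {lam : ℕ → L} (F : M.FanL p a l s t k th r lam) {i j : ℕ} (hij : i < j) (hj : j ≤ k) :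
    th i < th j := by
  induction j, hij using Nat.le_induction with
  | base => exact F.thl i (by omega)
  | succ j hij ih => exact (ih (by omega)).trans (F.thl j (by omega))

theorem st_CUTL (hFL : ST_FL) (hCC : ST_CCOV) (hCN : ST_CNI) : ST_CUTL := by
  intro V _ _ M L p h n y U l s t b hstd hE hC
  classical
  have hp := hstd.inc
  have hn := hE.un
  have hy : ‖y‖ = 1 := hC.fan.ua
  have hny : ⟪n, y⟫ = 0 := hC.yn
  have hyn : ⟪y, n⟫ = 0 := by rw [real_inner_comm]; exact hny
  obtain ⟨cc, hcc⟩ : ∃ cc, cc = crs n y := ⟨_, rfl⟩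
  obtain ⟨u1, u2, u3⟩ := crs_unit_perp hn hy hny
  rw [← hcc] at u1 u2 u3
  have hyc : crs y cc = n := by
    rw [hcc, crs_swap y n, show crs y (-crs y n) = - crs y (crs y n) by
      rw [← neg_one_smul ℝ (crs y n), crs_smul_right, neg_one_smul]]
    rw [H93.crs_crs_perp hy hyn, neg_neg]
  have hyn' : crs y n = -cc := by rw [hcc, crs_swap]
  -- boundary darts
  have hBE : ∀ d, M.Bd U d → M.E0 l d := by
    intro d hd he
    have h1 : l (M.fc d.symm) = b := (hC.lb _).mpr hd.2
    exact (hC.lb _).mp (he.trans h1) hd.1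
  have hBE' : ∀ d, M.Bd U d → M.E0 l d.symm := by
    intro d hd
    unfold E0
    rw [SimpleGraph.Dart.symm_symm]
    exact (hBE d hd).symm
  have hcirc : ∀ d, M.Bd U d → ⟪n, p d.fst⟫ = 0 ∧ ⟪n, p d.snd⟫ = 0 := by
    intro d hd
    obtain ⟨c, hc, h1⟩ := hE.bd d hd
    exact circle_of_crs hc h1
  have hside : ∀ d, M.E0 l d → ⟪n, p d.fst⟫ = 0 → ⟪n, p d.snd⟫ = 0 →
      M.Bd U d ∨ M.Bd U d.symm := by
    intro d hd h1 h2
    by_cases a1 : U (M.fc d)
    · by_cases a2 : U (M.fc d.symm)
      · exact absurd ⟨h1, h2⟩ (hCN V M p h n U hstd hE d ⟨a1, a2⟩)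
      · exact Or.inl ⟨a1, a2⟩
    · by_cases a2 : U (M.fc d.symm)
      · exact Or.inr ⟨a2, by rw [SimpleGraph.Dart.symm_symm]; exact a1⟩
      · exfalso
        apply hd
        rw [(hC.lb _).mpr a1, (hC.lb _).mpr a2]
  have hps := hC.fan.ps
  have hpt := hC.fan.pt
  -- a vertex on the half circle through cc
  obtain ⟨v0, hv0E, hv0n, hv0c⟩ : ∃ v0, M.OnE l v0 ∧ ⟪n, p v0⟫ = 0 ∧ 0 < ⟪cc, p v0⟫ := by
    obtain ⟨d0, hd0, _, s', t', hs', ht', he⟩ := hCC V M p h n U hstd hE cc u1 u2
    have h1 : 1 = s' * ⟪cc, p d0.fst⟫ + t' * ⟪cc, p d0.snd⟫ := by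
      rw [← inner_smul_right, ← inner_smul_right, ← inner_add_right, ← he, inner_self_one u1]
    by_cases h2 : 0 < ⟪cc, p d0.fst⟫
    · exact ⟨d0.fst, ⟨d0, rfl, hBE d0 hd0⟩, (hcirc d0 hd0).1, h2⟩
    · refine ⟨d0.snd, ⟨d0.symm, rfl, hBE' d0 hd0⟩, (hcirc d0 hd0).2, ?_⟩
      push Not at h2
      by_contra h3
      push Not at h3
      have h4 := mul_nonpos_of_nonneg_of_nonpos hs' h2
      have h5 := mul_nonpos_of_nonneg_of_nonpos ht' h3
      linarith
  have hcy : ⟪cc, y⟫ = 0 := by rw [real_inner_comm]; exact u3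
  have hv0s : v0 ≠ s := by
    intro he
    rw [he, hps, hcy] at hv0c
    exact lt_irrefl _ hv0c
  have hv0t : v0 ≠ t := by
    intro he
    rw [he, hpt, inner_neg_right, hcy, neg_zero] at hv0c
    exact lt_irrefl _ hv0c
  obtain ⟨k', th, r, lam, hF, c, hc0, hcr⟩ := hFL V M L p h y l s t hstd hC.fan v0 hv0E hv0s hv0t
  have hexp : p v0 = ⟪y, p v0⟫ • y + ⟪cc, p v0⟫ • cc := by
    have := H93.expand hn hy hny hv0n
    rw [← crs_inner, ← hcc] at this
    exact this
  have hr0 : r 0 = cc := by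
    have h1 : c • r 0 = ⟪cc, p v0⟫ • cc := by
      have h2 : c • r 0 + ⟪y, p v0⟫ • y = ⟪y, p v0⟫ • y + ⟪cc, p v0⟫ • cc := hcr.symm.trans hexp
      have h3 : c • r 0 = (c • r 0 + ⟪y, p v0⟫ • y) - ⟪y, p v0⟫ • y := by abel
      rw [h3, h2]; abel
    have h2 : c = ⟪cc, p v0⟫ := by
      have h3 := congrArg norm h1
      rw [norm_smul, norm_smul, hF.r0, u1, Real.norm_eq_abs, Real.norm_eq_abs, abs_of_nonneg hc0,
        abs_of_pos hv0c, mul_one, mul_one] at h3
      exact h3
    rw [← h2] at h1 hv0c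
    exact smul_right_injective E3 hv0c.ne' h1
  have h2k := hF.two_le
  obtain ⟨k, rfl⟩ : ∃ k, k' = k + 1 := ⟨k' - 1, by omega⟩
  -- the last lune is the other side
  have hrk1 : r (k + 1) = cc := by
    rw [hF.rr (k + 1) le_rfl, hF.thk, Real.cos_two_pi, Real.sin_two_pi, one_smul, zero_smul,
      add_zero, hr0]
  have hlamk : lam k = b := by
    obtain ⟨d, hd1, ⟨c1, hc1, hc1'⟩, hd3, hd4⟩ := hF.top k (by omega)
    have hdE : M.E0 l d := by
      unfold E0
      rw [hd3, hd4]
      exact hF.lam_ne (by omega)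
    have hfn : ⟪n, p d.fst⟫ = 0 := by rw [hd1, hps]; exact hny
    have hsn : ⟪n, p d.snd⟫ = 0 := by
      rw [hc1', inner_add_right, inner_smul_right, inner_smul_right, hrk1, u2, hny]; ring
    rcases hside d hdE hfn hsn with h1 | h1
    · rw [← hd4]
      exact (hC.lb _).mpr h1.2
    · exfalso
      obtain ⟨c2, hc2, h2⟩ := hE.bd d.symm h1
      have h2 : crs (p d.snd) (p d.fst) = c2 • n := h2
      have h3 : crs (p d.snd) (p d.fst) = (-c1) • n := by
        rw [hd1, hps, hc1', hrk1, crs_add_left, crs_smul_left, crs_smul_left, crs_self, smul_zero,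
          add_zero, crs_swap y cc, hyc, smul_neg, neg_smul]
      rw [h3] at h2
      have h4 := congrArg (fun x => ⟪n, x⟫) h2
      simp only [inner_smul_right, inner_self_one hn, mul_one] at h4
      linarith
  -- the meridian k
  obtain ⟨j, rfl⟩ : ∃ j, k = j + 1 := ⟨k - 1, by omega⟩
  have hthpos : 0 < th (j + 1) := by
    have := FanL_mono hF (i := 0) (j := j + 1) (by omega) (by omega)
    rwa [hF.th0] at this
  have hthlt : th (j + 1) < 2 * Real.pi := by
    have := hF.thl (j + 1) (by omega)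
    rwa [hF.thk] at this
  have hpi := Real.pi_pos
  have hrk : r (j + 1) = Real.cos (th (j + 1)) • cc + Real.sin (th (j + 1)) • n := by
    rw [hF.rr (j + 1) (by omega), hr0, hyc]
  obtain ⟨hcos, hsin⟩ : Real.cos (th (j + 1)) = -1 ∧ Real.sin (th (j + 1)) = 0 := by
    obtain ⟨d, hd1, ⟨c1, hc1, hc1'⟩, hd3, hd4⟩ := hF.top j (by omega)
    have hUs : ¬ U (M.fc d) := (hC.lb _).mp (by rw [hd3, hlamk])
    have hUs' : U (M.fc d.symm) := by
      by_contra hcon
      have h1 := (hC.lb _).mpr hcon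
      rw [hd4] at h1
      exact hF.lam_ne (i := j) (by omega) (by rw [h1, hlamk])
    obtain ⟨c2, hc2, h2⟩ := hE.bd d.symm ⟨hUs', by rw [SimpleGraph.Dart.symm_symm]; exact hUs⟩
    have h2 : crs (p d.snd) (p d.fst) = c2 • n := h2
    have h3 : crs (p d.snd) (p d.fst)
        = (c1 * -Real.cos (th (j + 1))) • n + (c1 * Real.sin (th (j + 1))) • cc := by
      rw [hd1, hps, hc1', crs_add_left, crs_smul_left, crs_smul_left, crs_self, smul_zero,
        add_zero, hrk, crs_add_left, crs_smul_left, crs_smul_left, crs_swap y cc, hyc,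
        ← hcc]
      module
    rw [h3] at h2
    have hcn : ⟪cc, n⟫ = 0 := by rw [real_inner_comm]; exact u2
    have h4 := congrArg (fun x => ⟪n, x⟫) h2
    simp only [inner_add_right, inner_smul_right, inner_self_one hn, u2, mul_one, mul_zero,
      add_zero] at h4
    have h5 := congrArg (fun x => ⟪cc, x⟫) h2
    simp only [inner_add_right, inner_smul_right, inner_self_one u1, hcn, mul_one, mul_zero,
      zero_add] at h5
    have hc1p : c1 ≠ 0 := by
      intro h0
      rw [h0, zero_mul] at h4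
      linarith
    have hs0 : Real.sin (th (j + 1)) = 0 := by
      rcases mul_eq_zero.mp h5 with h6 | h6
      · exact absurd h6 hc1p
      · exact h6
    have hcneg : Real.cos (th (j + 1)) < 0 := by
      have h6 : 0 < c1 := lt_of_le_of_ne hc1 (Ne.symm hc1p)
      by_contra hcon
      push Not at hcon
      have := mul_nonneg h6.le hcon
      linarith
    have h7 := Real.sin_sq_add_cos_sq (th (j + 1))
    rw [hs0] at h7
    have h8 : (Real.cos (th (j + 1)) - 1) * (Real.cos (th (j + 1)) + 1) = 0 := by nlinarith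
    rcases mul_eq_zero.mp h8 with h9 | h9
    · linarith
    · exact ⟨by linarith, hs0⟩
  have hthk : th (j + 1) = Real.pi := by
    rcases lt_trichotomy (th (j + 1)) Real.pi with h1 | h1 | h1
    · have := Real.sin_pos_of_pos_of_lt_pi hthpos h1
      linarith
    · exact h1
    · have h2 : Real.sin (th (j + 1) - 2 * Real.pi) < 0 :=
        Real.sin_neg_of_neg_of_neg_pi_lt (by linarith) (by linarith)
      rw [Real.sin_sub_two_pi] at h2
      linarith
  -- at least two lunes on the side U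
  have hj : 2 ≤ j + 1 := by
    obtain ⟨d, hdU, hdE⟩ := hC.inn
    obtain ⟨i1, hi1, hl1⟩ := hF.lams (M.fc d)
    obtain ⟨i2, hi2, hl2⟩ := hF.lams (M.fc d.symm)
    have hb1 : i1 ≠ j + 1 := by
      intro he
      rw [he, hlamk] at hl1
      exact (hC.lb _).mp hl1 hdU.1
    have hb2 : i2 ≠ j + 1 := by
      intro he
      rw [he, hlamk] at hl2
      exact (hC.lb _).mp hl2 hdU.2
    have hne : i1 ≠ i2 := by
      intro he
      apply hdE
      rw [hl1, hl2, he]
    omega
  refine ⟨j + 1, th, r, lam, hF, by rw [hr0, hcc], ?_, hthk, hlamk, ?_, ?_, hj⟩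
  · rw [hrk, hcos, hsin, zero_smul, add_zero, neg_one_smul, hcc]
  · intro i hi
    rcases Nat.eq_zero_or_pos i with h0 | h0
    · rw [h0, hF.th0, zero_add]
      have h1 := FanL_mono hF (i := 1) (j := j + 1) (by omega) (by omega)
      rw [hthk] at h1
      simpa using h1
    · have h1 := FanL_mono hF h0 (by omega)
      rw [hF.th0] at h1
      have h2 : th (i + 1) ≤ th (j + 1) := by
        rcases (show i + 1 ≤ j + 1 by omega).lt_or_eq with h3 | h3
        · exact (FanL_mono hF h3 (by omega)).le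
        · rw [h3]
      linarith
  · intro i hi he
    have := hF.lami i (by omega) (j + 1) (by omega) (by rw [he, hlamk])
    omega

end Pool.Agent.Helper30.N9
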