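import Pool.Agent.Helper24.N9.Deg3
import Pool.Agent.Helper72.N9.Mml
import Pool.Agent.Helper29.N9.Exact

/-! MP_9b91d1_co, row D1E. -/

open scoped RealInnerProductSpace Topology

namespace Pool.Agent.Helper30.N9

open PlaneGraph

theorem par_of_perp2 {n a b : E3} (hn : ‖n‖ = 1) (ha : ⟪n, a⟫ = 0) (hb : ⟪n, b⟫ = 0) :
    crs a b = ⟪n, crs a b⟫ • n := by
  have h : ∀ y, ⟪crs a b - ⟪n, crs a b⟫ • n, y⟫ = 0 := by
    intro y
    rw [inner_sub_left, real_inner_smul_left, crs_inner, real_inner_comm, crs_inner]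
    -- decomposition of y along n
    have e1 : det3 a b (y - ⟪n, y⟫ • n) = 0 := by
      obtain ⟨z, hz⟩ : ∃ z, z = y - ⟪n, y⟫ • n := ⟨_, rfl⟩
      have hnz : ⟪n, z⟫ = 0 := by
        rw [hz, inner_sub_right, inner_smul_right, inner_self_one hn]; ring
      rw [← hz]
      by_contra hne
      -- Cramer: n is orthogonal to three independent vectors
      have cram : ∀ w : E3, det3 a b z • w
          = ⟪a, w⟫ • crs b z + ⟪b, w⟫ • crs z a + ⟪z, w⟫ • crs a b := by
        intro w
        ext i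
        fin_cases i <;> simp [det3, crs, inner_def] <;> ring
      have h7 := cram n
      rw [real_inner_comm, ha, real_inner_comm, hb, real_inner_comm, hnz] at h7
      simp only [zero_smul, add_zero] at h7
      rcases smul_eq_zero.mp h7 with h8 | h8
      · exact hne h8
      · rw [h8, norm_zero] at hn
        exact zero_ne_one hn
    rw [det3_sub_right, det3_smul_right] at e1
    linarith
  exact sub_eq_zero.mp (inner_self_eq_zero.mp (h _))

theorem st_D1E (hL : ST_LIFT) (hM : ST_MAXT) (hVC : ST_VCL) (hFC : ST_FCV) : ST_D1E := by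
  intro V _ _ M p h n om hstd hn hwt heq hex hplane
  classical
  have hp := hstd.inc
  have hconn := conn_of_conn3 hstd.c3
  have hcne : ∀ d : M.G.Dart, crs (p d.fst) (p d.snd) ≠ 0 := fun d =>
    crs_ne_zero (hp.unit _) (hp.unit _) (hp.q_ne d) (hp.ne_neg d)
  -- the lift
  obtain ⟨x, hx0⟩ := hL V M hconn (fun _ => True) (fun d => om d • crs (p d.fst) (p d.snd))
    (by
      intro d
      show om d.symm • crs (p d.snd) (p d.fst) = - (om d • crs (p d.fst) (p d.snd))
      rw [hwt.symm, crs_swap (p d.fst) (p d.snd), smul_neg])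
    (fun d hd => absurd ⟨trivial, trivial⟩ hd)
    (fun v _ => heq v)
    (fun u _ a b ha _ => absurd trivial ha)
  have hx : ∀ d : M.G.Dart, x (M.fc d) - x (M.fc d.symm)
      = om d • crs (p d.fst) (p d.snd) := fun d => hx0 d trivial trivial
  have hcrs : ∀ d : M.G.Dart, om d ≠ 0 →
      crs (p d.fst) (p d.snd) = ⟪n, crs (p d.fst) (p d.snd)⟫ • n := fun d hd =>
    par_of_perp2 hn (hplane d hd).1 (hplane d hd).2
  -- all differences are parallel to n
  have hpar : ∀ w w' : M.Face, x w - x w' = ⟪n, x w - x w'⟫ • n := by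
    intro w w'
    have hdart : ∀ d e : M.G.Dart, x (M.fc d) - ⟪n, x (M.fc d)⟫ • n
        = x (M.fc e) - ⟪n, x (M.fc e)⟫ • n := by
      apply Exact29.dart_const M hconn (fun d => x (M.fc d) - ⟪n, x (M.fc d)⟫ • n)
      · intro d; simp only [M.fc_nxt]
      · intro d
        have h1 := hx d
        have h2 : x (M.fc d) - x (M.fc d.symm)
            = ⟪n, x (M.fc d) - x (M.fc d.symm)⟫ • n := by
          rw [h1]
          by_cases hd : om d = 0
          · rw [hd, zero_smul, inner_zero_right, zero_smul]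
          · conv_lhs => rw [hcrs d hd]
            rw [inner_smul_right, smul_smul]
        rw [inner_sub_right, sub_smul] at h2
        show x (M.fc d.symm) - ⟪n, x (M.fc d.symm)⟫ • n = x (M.fc d) - ⟪n, x (M.fc d)⟫ • n
        have h3 : x (M.fc d) = x (M.fc d.symm)
            + (⟪n, x (M.fc d)⟫ • n - ⟪n, x (M.fc d.symm)⟫ • n) := by
          rw [← h2]; abel
        rw [sub_eq_sub_iff_add_eq_add]
        conv_rhs => rw [h3]
        abel
    obtain ⟨d, rfl⟩ : ∃ d, M.fc d = w := ⟨w.out, Quotient.out_eq w⟩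
    obtain ⟨e, rfl⟩ : ∃ e, M.fc e = w' := ⟨w'.out, Quotient.out_eq w'⟩
    have h1 := hdart d e
    rw [inner_sub_right, sub_smul, sub_eq_sub_iff_add_eq_add]
    rw [sub_eq_sub_iff_add_eq_add] at h1
    rw [h1]; abel
  obtain ⟨φ, hφ⟩ : ∃ φ : M.Face → ℝ, ∀ w, φ w = ⟪n, x w⟫ := ⟨_, fun _ => rfl⟩
  have hdiff : ∀ w w' : M.Face, x w - x w' = (φ w - φ w') • n := by
    intro w w'
    rw [hφ, hφ, ← inner_sub_right]
    exact hpar w w'
  -- maximum property
  have hcvx : M.Cvx p (fun _ => True) := fun d e hd => absurd trivial hd.2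
  have hmax : ∀ w z, M.Cov p h (fun v => v = w) z → ∀ w', (φ w' - φ w) * ⟪n, z⟫ ≤ 0 := by
    intro w z hz w'
    have h1 := (hM V M p h hstd (fun _ => True) hcvx om hwt x (fun d _ => hx d) w w' trivial
      trivial z hz).1
    have h2 : ⟪x w' - x w, z⟫ ≤ 0 := by rw [inner_sub_left]; linarith
    rwa [hdiff, real_inner_smul_left] at h2
  obtain ⟨U, hU⟩ : ∃ U : M.Face → Prop, ∀ w, U w ↔ ∀ w', φ w' ≤ φ w := ⟨_, fun _ => Iff.rfl⟩
  have hpos : ∀ w z, M.Cov p h (fun v => v = w) z → 0 < ⟪n, z⟫ → U w := by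
    intro w z hz h0
    rw [hU]
    intro w'
    have := hmax w z hz w'
    by_contra hcon
    push Not at hcon
    have h1 := mul_pos (sub_pos.mpr hcon) h0
    linarith
  have hneg : ∀ w z, M.Cov p h (fun v => v = w) z → ⟪n, z⟫ < 0 → ∀ w', φ w ≤ φ w' := by
    intro w z hz h0 w'
    have := hmax w z hz w'
    by_contra hcon
    push Not at hcon
    have h1 := mul_pos_of_neg_of_neg (sub_neg.mpr hcon) h0
    linarith
  have hn0 : n ≠ 0 := by intro h0; rw [h0, norm_zero] at hn; exact zero_ne_one hn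
  have hdich : ∀ w, U w ∨ ∀ w', φ w ≤ φ w' := by
    intro w
    obtain ⟨z, hz, hg⟩ := hFC V M p h hstd w {n} (by
      intro m hm
      rw [Finset.mem_singleton] at hm
      rw [hm]; exact hn0)
    have h1 := hg n (Finset.mem_singleton_self n)
    rcases lt_or_gt_of_ne h1 with h2 | h2
    · right; exact hneg w z hz h2
    · left; exact hpos w z hz h2
  have hstep : ∀ d : M.G.Dart, om d ≠ 0 ↔ φ (M.fc d) ≠ φ (M.fc d.symm) := by
    intro d
    have h1 := hx d
    rw [hdiff] at h1
    constructor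
    · intro hd he
      rw [he, sub_self, zero_smul] at h1
      rcases smul_eq_zero.mp h1.symm with h2 | h2
      · exact hd h2
      · exact hcne d h2
    · intro hne hd
      rw [hd, zero_smul] at h1
      rcases smul_eq_zero.mp h1 with h2 | h2
      · exact hne (sub_eq_zero.mp h2)
      · exact hn0 h2
  have hUne : ∀ w w', U w → U w' → φ w = φ w' := fun w w' h1 h2 =>
    le_antisymm ((hU w').mp h2 w) ((hU w).mp h1 w')
  have hiff : ∀ d : M.G.Dart, om d ≠ 0 ↔ (M.Bd U d ∨ M.Bd U d.symm) := by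
    intro d
    rw [hstep]
    constructor
    · intro hne
      by_cases h1 : U (M.fc d)
      · left
        exact ⟨h1, fun h2 => hne (hUne _ _ h1 h2)⟩
      · right
        refine ⟨?_, by rw [SimpleGraph.Dart.symm_symm]; exact h1⟩
        rcases hdich (M.fc d.symm) with h2 | h2
        · exact h2
        · exfalso
          rcases hdich (M.fc d) with h3 | h3
          · exact h1 h3
          · exact hne (le_antisymm (h3 _) (h2 _))
    · rintro (⟨h1, h2⟩ | ⟨h1, h2⟩)
      · intro he
        apply h2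
        rw [hU]
        intro w'
        rw [← he]
        exact (hU _).mp h1 w'
      · rw [SimpleGraph.Dart.symm_symm] at h2
        intro he
        apply h2
        rw [hU]
        intro w'
        rw [he]
        exact (hU _).mp h1 w'
  obtain ⟨d0, hd0⟩ := hex
  obtain ⟨d1, hd1⟩ : ∃ d, M.Bd U d := by
    rcases (hiff d0).mp hd0 with h1 | h1
    · exact ⟨_, h1⟩
    · exact ⟨_, h1⟩
  have hgap : φ (M.fc d1.symm) < φ (M.fc d1) := by
    apply lt_of_le_of_ne ((hU _).mp hd1.1 _)
    exact ((hstep d1).mp ((hiff d1).mpr (Or.inl hd1))).symm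
  refine ⟨U, ⟨hn, ?_, ?_, ?_, ⟨d1, hd1⟩⟩, hiff⟩
  · intro d hd
    have hod : om d ≠ 0 := (hiff d).mpr (Or.inl hd)
    have h1 : φ (M.fc d.symm) < φ (M.fc d) :=
      lt_of_le_of_ne ((hU _).mp hd.1 _) ((hstep d).mp hod).symm
    have h2 := hx d
    rw [hdiff] at h2
    have hop : 0 < om d := lt_of_le_of_ne (hwt.nonneg d) (Ne.symm hod)
    refine ⟨(om d)⁻¹ * (φ (M.fc d) - φ (M.fc d.symm)), mul_pos (inv_pos.mpr hop) (by linarith), ?_⟩
    rw [mul_smul, h2, smul_smul, inv_mul_cancel₀ hod, one_smul]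
  · intro e he
    apply hVC V M p h hstd e n
    intro z hz
    by_contra hcon
    push Not at hcon
    have h1 := hneg _ z hz hcon (M.fc d1.symm)
    have h2 := (hU _).mp he (M.fc d1)
    linarith
  · intro e he
    have h1 := hVC V M p h hstd e (-n) (by
      intro z hz
      rw [inner_neg_left]
      by_contra hcon
      push Not at hcon
      exact he (hpos _ z hz (by linarith)))
    rw [inner_neg_left] at h1
    linarith

end Pool.Agent.Helper30.N9
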