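import Pool.Agent.Helper30.N9.Sheet
import Pool.Agent.Helper30.N9.Cx3

/-! MP_9b91d1_co, row MM (M-matrix lemma). -/

open scoped RealInnerProductSpace Topology

namespace Pool.Agent.Helper30.N9

section MMgen

variable {D : Type}

theorem mm_crs_zero (a : E3) : crs a 0 = 0 := by
  have h : ⟪crs a 0, crs a 0⟫ = 0 := by
    rw [crs_inner_self]; simp
  exact inner_self_eq_zero.mp h

theorem mm_crs_add (a b c : E3) : crs a (b + c) = crs a b + crs a c := by
  have h : ∀ y : E3, ⟪crs a (b + c) - (crs a b + crs a c), y⟫ = 0 := by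
    intro y
    rw [inner_sub_left, inner_add_left, crs_inner, crs_inner, crs_inner]
    simp only [det3, PiLp.add_apply]
    ring
  exact sub_eq_zero.mp (inner_self_eq_zero.mp (h _))

theorem mm_crs_smul (a b : E3) (t : ℝ) : crs a (t • b) = t • crs a b := by
  have h : ∀ y : E3, ⟪crs a (t • b) - t • crs a b, y⟫ = 0 := by
    intro y
    rw [inner_sub_left, inner_smul_left, crs_inner, crs_inner]
    simp only [det3, PiLp.smul_apply, smul_eq_mul, RCLike.conj_to_real]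
    ring
  exact sub_eq_zero.mp (inner_self_eq_zero.mp (h _))

theorem mm_crs_sum (s : Finset D) (a : E3) (c : D → ℝ) (f : D → E3) :
    crs a (∑ d ∈ s, c d • f d) = ∑ d ∈ s, c d • crs a (f d) := by
  classical
  induction s using Finset.induction_on with
  | empty => simp [mm_crs_zero]
  | insert d s hd ih =>
    rw [Finset.sum_insert hd, Finset.sum_insert hd, mm_crs_add, mm_crs_smul, ih]

theorem mm_par (s : Finset D) {a : E3} (ha : ‖a‖ = 1) (c : D → ℝ) (f : D → E3)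
    (h : ∑ d ∈ s, c d • crs a (f d) = 0) (y : E3) :
    ∑ d ∈ s, c d * ⟪y, f d⟫ = (∑ d ∈ s, c d * ⟪a, f d⟫) * ⟪y, a⟫ := by
  have ha0 : a ≠ 0 := by
    intro h0; rw [h0, norm_zero] at ha; exact zero_ne_one ha
  rw [← mm_crs_sum] at h
  have h1 := crs_zero_par ha0 h
  rw [inner_self_one ha, div_one] at h1
  have e : ∀ x : E3, ⟪x, ∑ d ∈ s, c d • f d⟫ = ∑ d ∈ s, c d * ⟪x, f d⟫ := by
    intro x
    rw [inner_sum]
    refine Finset.sum_congr rfl (fun d _ => ?_)
    rw [inner_smul_right]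
  rw [← e, ← e]
  conv_lhs => rw [h1]
  rw [inner_smul_right]

end MMgen

theorem mm : ST_MM := by
  intro V _ _ M p q B c nn hp hq hpq hc hsym hout hstress hz hle hex
  classical
  by_contra hcon
  push Not at hcon
  obtain ⟨z, hzdef⟩ : ∃ z : V → ℝ, ∀ v, z v = ⟪nn, p v⟫ := ⟨_, fun _ => rfl⟩
  obtain ⟨m, hm⟩ : ∃ m : V → ℝ, ∀ v, m v = ∑ d ∈ Finset.univ.filter
    (fun d : M.G.Dart => d.fst = v), c d * ⟪p v, p d.snd⟫ := ⟨_, fun _ => rfl⟩
  -- the stress relation against an arbitrary vector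
  have hrel : ∀ v ∈ B, ∀ y : E3, ∑ d ∈ Finset.univ.filter
      (fun d : M.G.Dart => d.fst = v), c d * ⟪y, p d.snd⟫ = m v * ⟪y, p v⟫ := by
    intro v hv y
    rw [hm]
    apply mm_par _ (hp v) c (fun d => p d.snd) _ y
    rw [← hstress v hv]
    refine Finset.sum_congr rfl (fun d hd => ?_)
    rw [(Finset.mem_filter.mp hd).2]
  -- fiberwise summation
  obtain ⟨DB, hDB⟩ : ∃ DB : Finset M.G.Dart, DB = Finset.univ.filter (fun d => d.fst ∈ B) :=
    ⟨_, rfl⟩
  have hfib : ∀ (y : V → E3) (φ : V → ℝ),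
      ∑ d ∈ DB, c d * ⟪y d.fst, p d.snd⟫ * φ d.fst
        = ∑ v ∈ Finset.univ.filter (fun v => v ∈ B), m v * ⟪y v, p v⟫ * φ v := by
    intro y φ
    rw [← Finset.sum_fiberwise DB (fun d => d.fst), Finset.sum_filter]
    refine Finset.sum_congr rfl (fun v _ => ?_)
    by_cases hv : v ∈ B
    · rw [if_pos hv, ← hrel v hv (y v), Finset.sum_mul]
      have e1 : DB.filter (fun d => d.fst = v)
          = Finset.univ.filter (fun d : M.G.Dart => d.fst = v) := by
        ext d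
        simp only [hDB, Finset.mem_filter, Finset.mem_univ, true_and]
        constructor
        · exact fun h => h.2
        · intro h; exact ⟨by rw [h]; exact hv, h⟩
      rw [e1]
      refine Finset.sum_congr rfl (fun d hd => ?_)
      rw [(Finset.mem_filter.mp hd).2]
    · rw [if_neg hv]
      refine Finset.sum_eq_zero (fun d hd => ?_)
      exfalso
      rw [Finset.mem_filter, hDB, Finset.mem_filter] at hd
      apply hv
      rw [← hd.2]
      exact hd.1.2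
  have hm0 : ∀ v ∈ B, z v = 0 → m v = 0 := by
    intro v hv h0
    rw [hm]
    refine Finset.sum_eq_zero (fun d hd => ?_)
    have hdv := (Finset.mem_filter.mp hd).2
    by_cases hcd : c d = 0
    · rw [hcd, zero_mul]
    · exfalso
      have := (hz d (by rw [hdv]; exact hv) hcd).1
      rw [hdv, ← hzdef, h0] at this
      exact lt_irrefl _ this
  -- swap symmetry on the inner darts
  obtain ⟨DI, hDI⟩ : ∃ DI : Finset M.G.Dart, DI = DB.filter (fun d => d.snd ∈ B) := ⟨_, rfl⟩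
  obtain ⟨DO, hDO⟩ : ∃ DO : Finset M.G.Dart, DO = DB.filter (fun d => d.snd ∉ B) := ⟨_, rfl⟩
  have hsplit : ∀ f : M.G.Dart → ℝ, ∑ d ∈ DB, f d = ∑ d ∈ DI, f d + ∑ d ∈ DO, f d := by
    intro f
    rw [hDI, hDO]
    exact (Finset.sum_filter_add_sum_filter_not DB (fun d => d.snd ∈ B) f).symm
  have hmemI : ∀ d : M.G.Dart, d ∈ DI ↔ d.fst ∈ B ∧ d.snd ∈ B := by
    intro d; rw [hDI, hDB]; simp
  have hmemO : ∀ d : M.G.Dart, d ∈ DO ↔ d.fst ∈ B ∧ d.snd ∉ B := by
    intro d; rw [hDO, hDB]; simp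
  have hswap : ∀ f : M.G.Dart → ℝ, ∑ d ∈ DI, f d.symm = ∑ d ∈ DI, f d := by
    intro f
    refine Finset.sum_nbij' (fun d => d.symm) (fun d => d.symm) ?_ ?_ ?_ ?_ ?_
    · intro d hd
      rw [hmemI] at hd ⊢
      exact ⟨hd.2, hd.1⟩
    · intro d hd
      rw [hmemI] at hd ⊢
      exact ⟨hd.2, hd.1⟩
    · intro d _; simp
    · intro d _; simp
    · intro d _; rfl
  -- the sum of squares identity
  have hid : ∀ w : V → E3,
      ∑ d ∈ DB, c d * ⟪p d.fst, p d.snd⟫ * ‖w d.fst‖ ^ 2 - ∑ d ∈ DI, c d * ⟪w d.fst, w d.snd⟫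
      = (∑ d ∈ DI, c d * (z d.fst * z d.snd *
          ‖(z d.fst)⁻¹ • w d.fst - (z d.snd)⁻¹ • w d.snd‖ ^ 2)) / 2
        + ∑ d ∈ DO, c d * (z d.snd / z d.fst * ‖w d.fst‖ ^ 2) := by
    intro w
    have e1 : ∑ d ∈ DB, c d * ⟪p d.fst, p d.snd⟫ * ‖w d.fst‖ ^ 2
        = ∑ d ∈ DB, c d * (z d.snd / z d.fst * ‖w d.fst‖ ^ 2) := by
      rw [hfib p (fun v => ‖w v‖ ^ 2)]
      have e2 : ∑ d ∈ DB, c d * (z d.snd / z d.fst * ‖w d.fst‖ ^ 2)
          = ∑ d ∈ DB, c d * ⟪nn, p d.snd⟫ * (‖w d.fst‖ ^ 2 / z d.fst) := by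
        refine Finset.sum_congr rfl (fun d _ => ?_)
        rw [hzdef d.snd]; ring
      rw [e2, hfib (fun _ => nn) (fun v => ‖w v‖ ^ 2 / z v)]
      refine Finset.sum_congr rfl (fun v hv => ?_)
      have hvB := (Finset.mem_filter.mp hv).2
      rw [inner_self_one (hp v)]
      by_cases h0 : z v = 0
      · rw [hm0 v hvB h0]; ring
      · rw [← hzdef]; field_simp
    rw [e1, hsplit]
    have e3 : ∑ d ∈ DI, c d * (z d.fst / z d.snd * ‖w d.snd‖ ^ 2)
        = ∑ d ∈ DI, c d * (z d.snd / z d.fst * ‖w d.fst‖ ^ 2) := by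
      rw [← hswap (fun d => c d * (z d.snd / z d.fst * ‖w d.fst‖ ^ 2))]
      refine Finset.sum_congr rfl (fun d _ => ?_)
      rw [hsym]
      rfl
    have e4 : ∑ d ∈ DI, c d * (z d.fst * z d.snd *
          ‖(z d.fst)⁻¹ • w d.fst - (z d.snd)⁻¹ • w d.snd‖ ^ 2)
        = ∑ d ∈ DI, c d * (z d.snd / z d.fst * ‖w d.fst‖ ^ 2)
          + ∑ d ∈ DI, c d * (z d.fst / z d.snd * ‖w d.snd‖ ^ 2)
          - 2 * ∑ d ∈ DI, c d * ⟪w d.fst, w d.snd⟫ := by
      rw [Finset.mul_sum, ← Finset.sum_add_distrib, ← Finset.sum_sub_distrib]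
      refine Finset.sum_congr rfl (fun d hd => ?_)
      by_cases hcd : c d = 0
      · rw [hcd]; ring
      · have hB := (hmemI d).mp hd
        obtain ⟨z1, z2⟩ := hz d hB.1 hcd
        rw [← hzdef] at z1 z2
        rw [norm_sub_sq_real, norm_smul, norm_smul, inner_smul_left, inner_smul_right,
          mul_pow, mul_pow, Real.norm_eq_abs, Real.norm_eq_abs, sq_abs, sq_abs]
        simp only [RCLike.conj_to_real]
        have z1' := z1.ne'
        have z2' := z2.ne'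
        field_simp
        ring
    rw [e4, e3]
    ring
  have hIpos : ∀ w : V → E3, ∀ d ∈ DI, 0 ≤ c d * (z d.fst * z d.snd *
          ‖(z d.fst)⁻¹ • w d.fst - (z d.snd)⁻¹ • w d.snd‖ ^ 2) := by
    intro w d hd
    by_cases hcd : c d = 0
    · rw [hcd, zero_mul]
    · obtain ⟨z1, z2⟩ := hz d ((hmemI d).mp hd).1 hcd
      rw [← hzdef] at z1 z2
      have := hc d
      positivity
  have hOpos : ∀ w : V → E3, ∀ d ∈ DO, 0 ≤ c d * (z d.snd / z d.fst * ‖w d.fst‖ ^ 2) := by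
    intro w d hd
    by_cases hcd : c d = 0
    · rw [hcd, zero_mul]
    · obtain ⟨z1, z2⟩ := hz d ((hmemO d).mp hd).1 hcd
      rw [← hzdef] at z1 z2
      have := hc d
      positivity
  by_cases hO : ∃ d ∈ DO, c d ≠ 0
  · -- a stressed dart leaves B
    obtain ⟨d0, hd0, hcd0⟩ := hO
    obtain ⟨w, hw⟩ : ∃ w : V → E3, ∀ v, w v = q v - p v := ⟨_, fun _ => rfl⟩
    have h1 := hid w
    -- LHS at w = q - p
    have h2 : ∑ d ∈ DB, c d * ⟪p d.fst, p d.snd⟫ * ‖w d.fst‖ ^ 2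
        = ∑ d ∈ DB, 2 * (c d * (⟪p d.fst, p d.snd⟫ - ⟪q d.fst, p d.snd⟫)) := by
      have a1 : ∑ d ∈ DB, c d * ⟪p d.fst, p d.snd⟫ * ‖w d.fst‖ ^ 2
          = ∑ d ∈ DB, c d * ⟪p d.fst, p d.snd⟫ * 2
            - ∑ d ∈ DB, c d * ⟪p d.fst, p d.snd⟫ * (2 * ⟪q d.fst, p d.fst⟫) := by
        rw [← Finset.sum_sub_distrib]
        refine Finset.sum_congr rfl (fun d _ => ?_)
        rw [hw, norm_sub_sq_real, hp, hq]; ring
      rw [a1, hfib p (fun v => 2 * ⟪q v, p v⟫)]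
      have a2 : ∑ v ∈ Finset.univ.filter (fun v => v ∈ B), m v * ⟪p v, p v⟫ * (2 * ⟪q v, p v⟫)
          = ∑ d ∈ DB, c d * ⟪q d.fst, p d.snd⟫ * 2 := by
        rw [hfib q (fun _ => 2)]
        refine Finset.sum_congr rfl (fun v _ => ?_)
        rw [inner_self_one (hp v)]; ring
      rw [a2, ← Finset.sum_sub_distrib]
      refine Finset.sum_congr rfl (fun d _ => ?_)
      ring
    have h3 : ∑ d ∈ DI, c d * ⟪w d.fst, w d.snd⟫
        = ∑ d ∈ DI, c d * (⟪q d.fst, q d.snd⟫ + ⟪p d.fst, p d.snd⟫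
            - 2 * ⟪q d.fst, p d.snd⟫) := by
      have b1 : ∑ d ∈ DI, c d * ⟪w d.fst, w d.snd⟫
          = ∑ d ∈ DI, c d * (⟪q d.fst, q d.snd⟫ + ⟪p d.fst, p d.snd⟫
            - ⟪q d.fst, p d.snd⟫) - ∑ d ∈ DI, c d * ⟪q d.snd, p d.fst⟫ := by
        rw [← Finset.sum_sub_distrib]
        refine Finset.sum_congr rfl (fun d _ => ?_)
        rw [hw, hw, inner_sub_left, inner_sub_right, inner_sub_right,
          real_inner_comm (p d.fst) (q d.snd)]
        ring
      have b2 : ∑ d ∈ DI, c d * ⟪q d.snd, p d.fst⟫ = ∑ d ∈ DI, c d * ⟪q d.fst, p d.snd⟫ := by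
        rw [← hswap (fun d => c d * ⟪q d.fst, p d.snd⟫)]
        refine Finset.sum_congr rfl (fun d _ => ?_)
        rw [hsym]
        rfl
      rw [b1, b2, ← Finset.sum_sub_distrib]
      refine Finset.sum_congr rfl (fun d _ => ?_)
      ring
    have h4 : ∑ d ∈ DB, c d * ⟪p d.fst, p d.snd⟫ * ‖w d.fst‖ ^ 2
        - ∑ d ∈ DI, c d * ⟪w d.fst, w d.snd⟫ ≤ 0 := by
      rw [h2, h3, hsplit, add_sub_right_comm, ← Finset.sum_sub_distrib]
      have c1 : ∀ d ∈ DI, 2 * (c d * (⟪p d.fst, p d.snd⟫ - ⟪q d.fst, p d.snd⟫))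
          - c d * (⟪q d.fst, q d.snd⟫ + ⟪p d.fst, p d.snd⟫ - 2 * ⟪q d.fst, p d.snd⟫) ≤ 0 := by
        intro d hd
        by_cases hcd : c d = 0
        · rw [hcd]; simp
        · have h5 := hle d ((hmemI d).mp hd).1 hcd
          have h6 := mul_nonneg (hc d) (sub_nonneg.mpr h5)
          linarith
      have c2 : ∀ d ∈ DO, 2 * (c d * (⟪p d.fst, p d.snd⟫ - ⟪q d.fst, p d.snd⟫)) ≤ 0 := by
        intro d hd
        by_cases hcd : c d = 0
        · rw [hcd]; simp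
        · have hB := (hmemO d).mp hd
          have h5 := hle d hB.1 hcd
          rw [hout d hB.1 hcd hB.2] at h5
          have h6 := mul_nonneg (hc d) (sub_nonneg.mpr h5)
          linarith
      have := Finset.sum_nonpos c1
      have := Finset.sum_nonpos c2
      linarith
    have h5 := Finset.sum_nonneg (hIpos w)
    have h6 := Finset.single_le_sum (hOpos w) hd0
    have hB := (hmemO d0).mp hd0
    obtain ⟨z1, z2⟩ := hz d0 hB.1 hcd0
    rw [← hzdef] at z1 z2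
    have h7 : c d0 * (z d0.snd / z d0.fst * ‖w d0.fst‖ ^ 2) ≤ 0 := by linarith
    have h8 : 0 < c d0 * (z d0.snd / z d0.fst) :=
      mul_pos (lt_of_le_of_ne (hc d0) (Ne.symm hcd0)) (div_pos z2 z1)
    have h9 : ‖w d0.fst‖ ^ 2 ≤ 0 := by
      by_contra hh
      push Not at hh
      have := mul_pos h8 hh
      rw [mul_assoc] at this
      linarith
    have h10 : w d0.fst = 0 := by
      have : ‖w d0.fst‖ ^ 2 = 0 := le_antisymm h9 (sq_nonneg _)
      exact norm_eq_zero.mp (pow_eq_zero_iff two_ne_zero |>.mp this)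
    rw [hw] at h10
    exact hcon d0 hB.1 hB.2 hcd0 (sub_eq_zero.mp h10)
  · -- no stressed dart leaves B
    push Not at hO
    obtain ⟨d1, hd1, hcd1⟩ := hex
    have h1 := hid p
    have h2 : ∑ d ∈ DB, c d * ⟪p d.fst, p d.snd⟫ * ‖p d.fst‖ ^ 2
        = ∑ d ∈ DI, c d * ⟪p d.fst, p d.snd⟫ := by
      rw [hsplit]
      have : ∑ d ∈ DO, c d * ⟪p d.fst, p d.snd⟫ * ‖p d.fst‖ ^ 2 = 0 :=
        Finset.sum_eq_zero (fun d hd => by rw [hO d hd]; ring)
      rw [this, add_zero]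
      refine Finset.sum_congr rfl (fun d _ => ?_)
      rw [hp]; ring
    rw [h2, sub_self] at h1
    have hdI : d1 ∈ DI := by
      rw [hmemI]
      refine ⟨hd1, ?_⟩
      by_contra hn
      exact hcd1 (hO d1 ((hmemO d1).mpr ⟨hd1, hn⟩))
    have h3 := Finset.single_le_sum (hIpos p) hdI
    have h4 := Finset.sum_nonneg (hOpos p)
    obtain ⟨z1, z2⟩ := hz d1 hd1 hcd1
    rw [← hzdef] at z1 z2
    have h5 : c d1 * (z d1.fst * z d1.snd *
          ‖(z d1.fst)⁻¹ • p d1.fst - (z d1.snd)⁻¹ • p d1.snd‖ ^ 2) ≤ 0 := by linarith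
    have h8 : 0 < c d1 * (z d1.fst * z d1.snd) :=
      mul_pos (lt_of_le_of_ne (hc d1) (Ne.symm hcd1)) (mul_pos z1 z2)
    have h9 : ‖(z d1.fst)⁻¹ • p d1.fst - (z d1.snd)⁻¹ • p d1.snd‖ ^ 2 ≤ 0 := by
      by_contra hh
      push Not at hh
      have := mul_pos h8 hh
      rw [mul_assoc] at this
      linarith
    have h10 : (z d1.fst)⁻¹ • p d1.fst = (z d1.snd)⁻¹ • p d1.snd := by
      have : ‖(z d1.fst)⁻¹ • p d1.fst - (z d1.snd)⁻¹ • p d1.snd‖ ^ 2 = 0 :=
        le_antisymm h9 (sq_nonneg _)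
      exact sub_eq_zero.mp (norm_eq_zero.mp (pow_eq_zero_iff two_ne_zero |>.mp this))
    have h11 : (z d1.fst)⁻¹ = (z d1.snd)⁻¹ := by
      have := congrArg norm h10
      rw [norm_smul, norm_smul, hp, hp, mul_one, mul_one, Real.norm_eq_abs, Real.norm_eq_abs,
        abs_of_pos (inv_pos.mpr z1), abs_of_pos (inv_pos.mpr z2)] at this
      exact this
    rw [h11] at h10
    exact hpq d1 (smul_right_injective E3 (inv_pos.mpr z2).ne' h10)

end Pool.Agent.Helper30.N9
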