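import Pool.Agent.Helper30.N9.Sheet4
import Pool.Agent.Helper72.N9.MM

/-! MP_9b91d1_co, row FIVEC. -/

open scoped RealInnerProductSpace Topology

namespace Pool.Agent.Helper30.N9

namespace Str

variable {U D C : Type} [Fintype U] [DecidableEq U] [Fintype D] [DecidableEq D]
    [Fintype C] [DecidableEq C] {X : Cx U D C} {S : Str X}

open Cx

theorem om_rev (d : D) : S.om (X.rev d) = S.om d := by
  have h1 := S.rel d
  have h2 := S.rel (X.rev d)
  rw [X.rev_rev, qa_rev, qb_rev, crs_swap (X.qa d) (X.qb d)] at h2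
  have h3 : (S.om d - S.om (X.rev d)) • crs (X.qa d) (X.qb d) = 0 := by
    rw [sub_smul, ← h1]
    have : S.om (X.rev d) • crs (X.qa d) (X.qb d)
        = - (S.om (X.rev d) • - crs (X.qa d) (X.qb d)) := by
      rw [smul_neg, neg_neg]
    rw [this, ← h2]
    abel
  rcases smul_eq_zero.mp h3 with h | h
  · linarith
  · exact absurd h (crs_ne_zero (X.unit _) (X.unit _) (qne d) (X.nn d))

/-- a vertex with exactly two maximizers lies on a stressed arc, hence is stressed -/
theorem stressed_of_two {u : U} {k l : E3} (hk : k ∈ S.Mx (X.p u)) (hl : l ∈ S.Mx (X.p u))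
    (hkl : k ≠ l) (h3 : ¬ S.Fac u) : ∃ d, S.om d ≠ 0 ∧ X.fst d = u := by
  classical
  by_contra hcon
  push Not at hcon
  have hu0 := ne_zero_of_unit (X.unit u)
  have hnu := nrm_unit (X.unit u)
  obtain ⟨e0, he0, ho1, ho2⟩ := exists_perp2 (X.p u) (k - l)
  obtain ⟨e, he⟩ : ∃ e, e = nrm e0 := ⟨_, rfl⟩
  have heu : ‖e‖ = 1 := by rw [he]; exact norm_nrm he0
  have hp1 : ⟪X.p u, e⟫ = 0 := by rw [he, inner_nrm, ho1, mul_zero]
  have hp2 : ⟪k - l, e⟫ = 0 := by rw [he, inner_nrm, ho2, mul_zero]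
  have hue : X.p u ≠ e := by
    intro h
    rw [← h, inner_self_one (X.unit u)] at hp1
    exact one_ne_zero hp1
  have hue' : X.p u ≠ -e := by
    intro h
    rw [h, inner_neg_left, inner_self_one heu] at hp1
    norm_num at hp1
  have ev1 := eventually_Mx (S := S) (X.p u)
  have ev2 : ∀ᶠ y in 𝓝 (X.p u), ∀ d, S.om d ≠ 0 → nrm y ∉ arc (X.qa d) (X.qb d) := by
    rw [Filter.eventually_all]
    intro d
    by_cases hd : S.om d = 0
    · exact Filter.Eventually.of_forall fun _ h => absurd hd h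
    have hno : nrm (X.p u) ∉ arc (X.qa d) (X.qb d) := by
      rw [hnu]
      intro hm
      rcases X.vert u d hm with h | h
      · exact hcon d hd h.symm
      · apply hcon (X.rev d) (by rw [om_rev]; exact hd)
        rw [X.fst_rev]; exact h.symm
    filter_upwards [eventually_not_arc (X.unit _) (X.unit _) (qne d) (X.nn d) hu0 hno] with y hy _
    exact hy
  have ev3 : ∀ᶠ y in 𝓝 (X.p u), ∀ v, v ≠ u → nrm y ≠ X.p v := by
    rw [Filter.eventually_all]
    intro v
    by_cases hv : v = u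
    · exact Filter.Eventually.of_forall fun _ h => absurd hv h
    · have : ∀ᶠ y in 𝓝 (X.p u), nrm y ≠ X.p v :=
        (continuousAt_nrm hu0).eventually_ne (by rw [hnu]; exact fun h => hv (X.inj h).symm)
      filter_upwards [this] with y hy _
      exact hy
  obtain ⟨t, ht, hall⟩ := PlaneGraph.exists_left (n := e) ((ev1.and ev2).and ev3)
  obtain ⟨y, hy⟩ : ∃ y, y = X.p u + t • e := ⟨_, rfl⟩
  obtain ⟨q0, _, q2, _⟩ := pt_props (X.unit u) heu hue hue' ht
  rw [← hy] at hall q0 q2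
  obtain ⟨⟨hM, hA⟩, hV⟩ := hall
  have hcases : ∀ m ∈ S.Mx (X.p u), m = k ∨ m = l := by
    intro m hm
    by_contra hno
    push Not at hno
    apply h3
    unfold Fac
    have hsub : ({m, k, l} : Finset E3) ⊆ S.Mx (X.p u) := by
      intro a ha
      simp only [Finset.mem_insert, Finset.mem_singleton] at ha
      rcases ha with rfl | rfl | rfl
      · exact hm
      · exact hk
      · exact hl
    have hc3 : ({m, k, l} : Finset E3).card = 3 := by
      rw [Finset.card_insert_of_notMem, Finset.card_insert_of_notMem, Finset.card_singleton]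
      · simpa using hkl
      · simp only [Finset.mem_insert, Finset.mem_singleton]
        push Not
        exact hno
    rw [← hc3]
    exact Finset.card_le_card hsub
  have hkly : ⟪k, y⟫ = ⟪l, y⟫ := by
    have h1 : ⟪k - l, y⟫ = 0 := by
      have h2 : ⟪k - l, X.p u⟫ = 0 := by rw [inner_sub_left, Mx_eq hk hl, sub_self]
      rw [hy, inner_add_right, inner_smul_right, h2, hp2]; ring
    rw [inner_sub_left] at h1
    linarith
  have hkK := (mem_Mx.mp hk).1
  have hlK := (mem_Mx.mp hl).1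
  have hboth : k ∈ S.Mx y ∧ l ∈ S.Mx y := by
    obtain ⟨m, hm⟩ := Mx_nonempty (S := S) y
    rcases hcases m (hM hm) with rfl | rfl
    · exact ⟨hm, mem_Mx_of_eq hm hlK hkly.symm⟩
    · exact ⟨mem_Mx_of_eq hm hkK hkly, hm⟩
  rcases position (X := X) q0 with ⟨c, ho, hw⟩ | ⟨v, hv⟩ | ⟨d, d1, d2, d3⟩
  · have h1 := Mx_off (S := S) q0 ho hw
    rw [h1] at hboth
    apply hkl
    rw [Finset.mem_singleton.mp hboth.1, Finset.mem_singleton.mp hboth.2]
  · by_cases hvu : v = u
    · rw [hvu] at hv; exact q2 hv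
    · exact hV v hvu hv
  · obtain ⟨_, _, m3⟩ := Mx_edge (S := S) d d1 d2 d3
    rw [Mx_nrm q0] at m3
    by_cases hd : S.om d = 0
    · have h1 := S.rel d
      rw [hd, zero_smul, sub_eq_zero] at h1
      apply hkl
      rcases m3 k hboth.1 with h2 | h2 <;> rcases m3 l hboth.2 with h4 | h4 <;>
        simp only [h2, h4, h1]
    · exact hA d hd d1

/-- the test vector of a vertex of the polytope is positive on its normal cone -/
theorem nn_pos {k y : E3} (hk : k ∈ S.Mx y) (hy : y ≠ 0) :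
    0 < ⟪∑ l ∈ S.KF, (k - l), y⟫ := by
  rw [sum_inner]
  have hnn : ∀ l ∈ S.KF, 0 ≤ ⟪k - l, y⟫ := by
    intro l hl
    rw [inner_sub_left]
    linarith [(mem_Mx.mp hk).2 l hl]
  rcases (Finset.sum_nonneg hnn).lt_or_eq with h | h
  · exact h
  · exfalso
    apply hy
    apply span' (S := S) (k := k)
    exact (Finset.sum_eq_zero_iff_of_nonneg hnn).mp h.symm

end Str


theorem inner_le_of_ang {a b c d : E3} (ha : ‖a‖ = 1) (hb : ‖b‖ = 1) (hc : ‖c‖ = 1)
    (hd : ‖d‖ = 1) (h : ang a b ≤ ang c d) : ⟪c, d⟫ ≤ ⟪a, b⟫ := by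
  by_contra hcon
  push Not at hcon
  have h1 : -1 ≤ ⟪a, b⟫ := by
    have := abs_real_inner_le_norm a b
    rw [ha, hb, mul_one] at this
    exact (abs_le.mp this).1
  have h2 : ⟪c, d⟫ ≤ 1 := by
    have := abs_real_inner_le_norm c d
    rw [hc, hd, mul_one] at this
    exact (abs_le.mp this).2
  have h3 := Real.arccos_lt_arccos h1 hcon h2
  unfold ang at h
  linarith

theorem fivec (hSP : ST_SP) (hCK : ST_CELLK) (hFX : ST_FULLCX) (hFB : ST_FIVEB)
    (hFA : ST_FARKAS) (hC7 : ST_C7) : ST_FIVEC := by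
  intro V _ _ M p q h hq gp gq hLM hLe om x hom hrel hspan
  classical
  obtain ⟨X, hXp, hXf, hXs, hXr, hXl, hXh⟩ := hFX V M p h gp
  -- translations
  have tqa : ∀ d, X.qa d = p d.fst := by intro d; unfold Cx.qa; rw [hXp, hXf]
  have tqb : ∀ d, X.qb d = p d.snd := by intro d; unfold Cx.qb; rw [hXp, hXs]
  have fqa : X.qa = M.ga p := funext tqa
  have fqb : X.qb = M.gb p := funext tqb
  have tcd : ∀ w, X.cd w = M.fdarts w := by
    intro w; unfold Cx.cd PlaneGraph.fdarts; rw [hXl]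
  have toff : ∀ z, X.Offa z ↔ M.OffAll p z := by
    intro z; unfold Cx.Offa PlaneGraph.OffAll; simp only [tqa, tqb]
  have tw : ∀ w z, X.w w z = M.FW p h w z := by
    intro w z; unfold Cx.w PlaneGraph.FW; rw [tcd, hXh, fqa, fqb]
  have tbd : ∀ T, X.bd T = M.bd T := by
    intro T; unfold Cx.bd PlaneGraph.bd; rw [hXl, hXr]
  obtain ⟨S, hSx, hSo⟩ : ∃ S : Str X, S.x = x ∧ S.om = om :=
    ⟨{ x := x, om := om, nonneg := hom,
       rel := fun d => by rw [hXl, hXr, tqa, tqb]; exact hrel d,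
       span := hspan }, rfl, rfl⟩
  have hcell : ∀ k ∈ S.KF, M.Cell p h {w | x w = k} {y | k ∈ S.Mx y} := by
    intro k hk
    have hc := hCK V _ _ X S k hk
    rw [hSx] at hc
    refine ⟨hc.closed, hc.cvx, fun z hz ho => ?_, hc.pointed, hc.ne⟩
    have := hc.reg z hz ((toff z).mpr ho)
    simp only [tw] at this
    exact this
  have hcen0 : ∀ k : E3, ∃ g : E3, k ∈ S.KF →
      Centre (M.bd {w | x w = k}) (M.ga q) (M.gb q) g := by
    intro k
    by_cases hk : k ∈ S.KF
    · obtain ⟨g, hg⟩ := hC7 V M p h _ _ gp (hcell k hk) q gq.inC.unit hLe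
      exact ⟨g, fun _ => hg⟩
    · exact ⟨0, fun h => absurd h hk⟩
  choose g hg using hcen0
  have hsum : ∑ k ∈ S.KF, SA (M.bd {w | x w = k}) (M.ga q) (M.gb q) (g k) = 4 * Real.pi := by
    rw [← gq.inC.cen_sum gq.cen]
    rw [← Finset.sum_fiberwise_of_maps_to (s := Finset.univ) (t := S.KF) (g := x)
      (fun w _ => by rw [← hSx]; exact Str.x_mem w)]
    refine Finset.sum_congr rfl (fun k hk => ?_)
    have h1 := hFB V M p q h hq gp gq hLM hLe {w | x w = k} ⟨_, hcell k hk⟩ (g k) (hg k hk)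
    rw [← h1]
    refine Finset.sum_congr ?_ (fun _ _ => rfl)
    ext w
    simp only [Finset.mem_filter, Finset.mem_univ, true_and, Set.mem_ofPred_eq]
  have hfq : (fun d => q (X.fst d)) = M.ga q := by funext d; rw [hXf]; rfl
  have hfq' : (fun d => q (X.snd d)) = M.gb q := by funext d; rw [hXs]; rfl
  obtain ⟨R, hR, hR1, hR2⟩ := hSP V _ _ X S q gq.inC.unit
    (fun d _ => by rw [tqa, tqb, hXf, hXs]; exact hLe d) g
    (fun k hk => by rw [hfq, hfq', tbd, hSx]; exact hg k hk)
    (by rw [hfq, hfq', ← hsum]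
        refine Finset.sum_congr rfl (fun k _ => ?_)
        rw [tbd, hSx])
  -- rotate q back
  obtain ⟨q', hq'⟩ : ∃ q' : V → E3, ∀ v, q' v = R.symm (q v) := ⟨_, fun _ => rfl⟩
  have hq'1 : ∀ v, ‖q' v‖ = 1 := by
    intro v; rw [hq', LinearIsometryEquiv.norm_map]; exact gq.inC.unit v
  have hiff : ∀ v, q' v = p v ↔ q v = R (p v) := by
    intro v
    rw [hq']
    constructor
    · intro h1; rw [← h1]; simp
    · intro h1; rw [h1]; simp
  by_cases hA : ∀ v, q' v = p v
  · exact ⟨R, hR, fun v => (hiff v).mp (hA v)⟩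
  exfalso
  push Not at hA
  obtain ⟨v0, hv0⟩ := hA
  obtain ⟨d0, hd0⟩ := X.inc v0
  rw [hXf] at hd0
  obtain ⟨c, c0, csym, cA, ⟨d1, hd1⟩, ceq⟩ := hFA V M p hLM {v | q' v = p v}
    ⟨d0, by
      intro hm
      apply hv0
      rw [← hd0]
      exact hm⟩
  have hsing : ∀ v, q' v ≠ p v → ∃ k, S.Mx (p v) = {k} := by
    intro v hv
    have hnF : ¬ S.Fac v := by
      intro hF
      have := hR1 v hF
      rw [hXp] at this
      exact hv ((hiff v).mpr this)
    obtain ⟨k, hk⟩ := Str.Mx_nonempty (S := S) (p v)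
    refine ⟨k, ?_⟩
    rw [Finset.eq_singleton_iff_unique_mem]
    refine ⟨hk, fun l hl => ?_⟩
    by_contra hlk
    obtain ⟨d, hd, hdv⟩ := Str.stressed_of_two (S := S) (u := v) (k := k) (l := l)
      (by rw [hXp]; exact hk) (by rw [hXp]; exact hl) (Ne.symm hlk) hnF
    have h1 := hR2 d hd
    rw [hdv, hXp] at h1
    exact hv ((hiff v).mpr h1)
  have hunit := gp.inC.unit
  have hmain : ∀ d : M.G.Dart, q' d.fst ≠ p d.fst → c d = 0 := by
    intro d hdA
    by_contra hcd
    obtain ⟨k, hk⟩ := hsing _ hdA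
    obtain ⟨B, hB⟩ : ∃ B : Set V, ∀ v, v ∈ B ↔ (q' v ≠ p v ∧ S.Mx (p v) = {k}) :=
      ⟨{v | q' v ≠ p v ∧ S.Mx (p v) = {k}}, fun _ => Iff.rfl⟩
    have hks : ∀ e : M.G.Dart, e.fst ∈ B → k ∈ S.Mx (p e.snd) := by
      intro e he
      have h1 := Str.left_qa (S := S) e
      rw [tqa, ((hB _).mp he).2, Finset.mem_singleton] at h1
      have h2 := Str.left_qb (S := S) e
      rw [tqb, h1] at h2
      exact h2
    have hkf : ∀ e : M.G.Dart, e.fst ∈ B → k ∈ S.Mx (p e.fst) := by
      intro e he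
      rw [((hB _).mp he).2]
      exact Finset.mem_singleton_self k
    obtain ⟨e, heB, _, _, heq⟩ := mm V M p q' B c (∑ l ∈ S.KF, (k - l)) hunit hq'1
      (fun d => gp.inC.q_ne d) c0 csym
      (by
        intro e he _ hes
        by_contra hne
        obtain ⟨k', hk'⟩ := hsing _ hne
        have h1 := hks e he
        rw [hk', Finset.mem_singleton] at h1
        apply hes
        rw [hB]
        exact ⟨hne, by rw [hk', h1]⟩)
      (by
        intro v hv
        exact ceq v (fun hm => ((hB v).mp hv).1 hm))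
      (fun e he _ => ⟨Str.nn_pos (hkf e he) (ne_zero_of_unit (hunit _)),
        Str.nn_pos (hks e he) (ne_zero_of_unit (hunit _))⟩)
      (by
        intro e _ _
        rw [hq', hq', LinearIsometryEquiv.inner_map_map]
        exact inner_le_of_ang (gq.inC.unit _) (gq.inC.unit _) (hunit _) (hunit _) (hLe e))
      ⟨d, (hB _).mpr ⟨hdA, hk⟩, hcd⟩
    exact ((hB _).mp heB).1 heq
  by_cases h1 : q' d1.fst = p d1.fst
  · by_cases h2 : q' d1.snd = p d1.snd
    · exact hd1 (cA d1 h1 h2)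
    · have := hmain d1.symm h2
      rw [csym] at this
      exact hd1 this
  · exact hd1 (hmain d1 h1)

end Pool.Agent.Helper30.N9
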