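import Pool.Agent.Helper24.N9.Deg1
import Pool.Agent.Helper72.N9.MM

/-! MP_9b91d1_co, row MM2 (M-matrix lemma, neighbours of height 0 allowed). -/

open scoped RealInnerProductSpace Topology

namespace Pool.Agent.Helper30.N9


theorem mm2 : ST_MM2 := by
  intro V _ _ M p q B c nn hp hq hpq hwt hout hstress hz hle
  classical
  have hc := hwt.nonneg
  have hsym := hwt.symm
  obtain ⟨z, hzdef⟩ : ∃ z : V → ℝ, ∀ v, z v = ⟪nn, p v⟫ := ⟨_, fun _ => rfl⟩
  obtain ⟨m, hm⟩ : ∃ m : V → ℝ, ∀ v, m v = ∑ d ∈ Finset.univ.filter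
    (fun d : M.G.Dart => d.fst = v), c d * ⟪p v, p d.snd⟫ := ⟨_, fun _ => rfl⟩
  -- the stress relation against an arbitrary vector
  have hrel : ∀ v ∈ B, ∀ y : E3, ∑ d ∈ Finset.univ.filter
      (fun d : M.G.Dart => d.fst = v), c d * ⟪y, p d.snd⟫ = m v * ⟪y, p v⟫ := by
    intro v hv y
    rw [hm]
    apply mm_par _ (hp v) c (fun d => p d.snd) _ y
    have hst := hstress v hv
    unfold PlaneGraph.EqAt at hst
    rw [← hst]
    refine Finset.sum_congr rfl (fun d hd => ?_)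
    rw [(Finset.mem_filter.mp hd).2]
  -- fiberwise summation
  obtain ⟨DB, hDB⟩ : ∃ DB : Finset M.G.Dart, DB = Finset.univ.filter (fun d => d.fst ∈ B) :=
    ⟨_, rfl⟩
  have hfib : ∀ (y : V → E3) (φ : V → ℝ),
      ∑ d ∈ DB, c d * ⟪y d.fst, p d.snd⟫ * φ d.fst
        = ∑ v ∈ Finset.univ.filter (fun v => v ∈ B), m v * ⟪y v, p v⟫ * φ v := by
    intro y φ
    rw [← Finset.sum_fiberwise DB (fun d => d.fst), Finset.sum_filter]
    refine Finset.sum_congr rfl (fun v _ => ?_)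
    by_cases hv : v ∈ B
    · rw [if_pos hv, ← hrel v hv (y v), Finset.sum_mul]
      have e1 : DB.filter (fun d => d.fst = v)
          = Finset.univ.filter (fun d : M.G.Dart => d.fst = v) := by
        ext d
        simp only [hDB, Finset.mem_filter, Finset.mem_univ, true_and]
        constructor
        · exact fun h => h.2
        · intro h; exact ⟨by rw [h]; exact hv, h⟩
      rw [e1]
      refine Finset.sum_congr rfl (fun d hd => ?_)
      rw [(Finset.mem_filter.mp hd).2]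
    · rw [if_neg hv]
      refine Finset.sum_eq_zero (fun d hd => ?_)
      exfalso
      rw [Finset.mem_filter, hDB, Finset.mem_filter] at hd
      apply hv
      rw [← hd.2]
      exact hd.1.2
  have hm0 : ∀ v ∈ B, z v = 0 → m v = 0 := by
    intro v hv h0
    rw [hm]
    refine Finset.sum_eq_zero (fun d hd => ?_)
    have hdv := (Finset.mem_filter.mp hd).2
    by_cases hcd : c d = 0
    · rw [hcd, zero_mul]
    · exfalso
      have := (hz d (by rw [hdv]; exact hv) hcd).1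
      rw [hdv, ← hzdef, h0] at this
      exact lt_irrefl _ this
  -- swap symmetry on the inner darts
  obtain ⟨DI, hDI⟩ : ∃ DI : Finset M.G.Dart, DI = DB.filter (fun d => d.snd ∈ B) := ⟨_, rfl⟩
  obtain ⟨DO, hDO⟩ : ∃ DO : Finset M.G.Dart, DO = DB.filter (fun d => d.snd ∉ B) := ⟨_, rfl⟩
  have hsplit : ∀ f : M.G.Dart → ℝ, ∑ d ∈ DB, f d = ∑ d ∈ DI, f d + ∑ d ∈ DO, f d := by
    intro f
    rw [hDI, hDO]
    exact (Finset.sum_filter_add_sum_filter_not DB (fun d => d.snd ∈ B) f).symm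
  have hmemI : ∀ d : M.G.Dart, d ∈ DI ↔ d.fst ∈ B ∧ d.snd ∈ B := by
    intro d; rw [hDI, hDB]; simp
  have hmemO : ∀ d : M.G.Dart, d ∈ DO ↔ d.fst ∈ B ∧ d.snd ∉ B := by
    intro d; rw [hDO, hDB]; simp
  have hswap : ∀ f : M.G.Dart → ℝ, ∑ d ∈ DI, f d.symm = ∑ d ∈ DI, f d := by
    intro f
    refine Finset.sum_nbij' (fun d => d.symm) (fun d => d.symm) ?_ ?_ ?_ ?_ ?_
    · intro d hd
      rw [hmemI] at hd ⊢
      exact ⟨hd.2, hd.1⟩
    · intro d hd
      rw [hmemI] at hd ⊢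
      exact ⟨hd.2, hd.1⟩
    · intro d _; simp
    · intro d _; simp
    · intro d _; rfl
  -- the sum of squares identity
  have hid : ∀ w : V → E3,
      ∑ d ∈ DB, c d * ⟪p d.fst, p d.snd⟫ * ‖w d.fst‖ ^ 2 - ∑ d ∈ DI, c d * ⟪w d.fst, w d.snd⟫
      = (∑ d ∈ DI, c d * (z d.fst * z d.snd *
          ‖(z d.fst)⁻¹ • w d.fst - (z d.snd)⁻¹ • w d.snd‖ ^ 2)) / 2
        + ∑ d ∈ DO, c d * (z d.snd / z d.fst * ‖w d.fst‖ ^ 2) := by
    intro w
    have e1 : ∑ d ∈ DB, c d * ⟪p d.fst, p d.snd⟫ * ‖w d.fst‖ ^ 2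
        = ∑ d ∈ DB, c d * (z d.snd / z d.fst * ‖w d.fst‖ ^ 2) := by
      rw [hfib p (fun v => ‖w v‖ ^ 2)]
      have e2 : ∑ d ∈ DB, c d * (z d.snd / z d.fst * ‖w d.fst‖ ^ 2)
          = ∑ d ∈ DB, c d * ⟪nn, p d.snd⟫ * (‖w d.fst‖ ^ 2 / z d.fst) := by
        refine Finset.sum_congr rfl (fun d _ => ?_)
        rw [hzdef d.snd]; ring
      rw [e2, hfib (fun _ => nn) (fun v => ‖w v‖ ^ 2 / z v)]
      refine Finset.sum_congr rfl (fun v hv => ?_)
      have hvB := (Finset.mem_filter.mp hv).2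
      rw [inner_self_one (hp v)]
      by_cases h0 : z v = 0
      · rw [hm0 v hvB h0]; ring
      · rw [← hzdef]; field_simp
    rw [e1, hsplit]
    have e3 : ∑ d ∈ DI, c d * (z d.fst / z d.snd * ‖w d.snd‖ ^ 2)
        = ∑ d ∈ DI, c d * (z d.snd / z d.fst * ‖w d.fst‖ ^ 2) := by
      rw [← hswap (fun d => c d * (z d.snd / z d.fst * ‖w d.fst‖ ^ 2))]
      refine Finset.sum_congr rfl (fun d _ => ?_)
      rw [hsym]
      rfl
    have e4 : ∑ d ∈ DI, c d * (z d.fst * z d.snd *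
          ‖(z d.fst)⁻¹ • w d.fst - (z d.snd)⁻¹ • w d.snd‖ ^ 2)
        = ∑ d ∈ DI, c d * (z d.snd / z d.fst * ‖w d.fst‖ ^ 2)
          + ∑ d ∈ DI, c d * (z d.fst / z d.snd * ‖w d.snd‖ ^ 2)
          - 2 * ∑ d ∈ DI, c d * ⟪w d.fst, w d.snd⟫ := by
      rw [Finset.mul_sum, ← Finset.sum_add_distrib, ← Finset.sum_sub_distrib]
      refine Finset.sum_congr rfl (fun d hd => ?_)
      by_cases hcd : c d = 0
      · rw [hcd]; ring
      · have hB := (hmemI d).mp hd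
        obtain ⟨z1, _⟩ := hz d hB.1 hcd
        have z2 := (hz d.symm hB.2 (by rw [hsym]; exact hcd)).1
        have z2 : 0 < ⟪nn, p d.snd⟫ := z2
        rw [← hzdef] at z1 z2
        rw [norm_sub_sq_real, norm_smul, norm_smul, inner_smul_left, inner_smul_right,
          mul_pow, mul_pow, Real.norm_eq_abs, Real.norm_eq_abs, sq_abs, sq_abs]
        simp only [RCLike.conj_to_real]
        have z1' := z1.ne'
        have z2' := z2.ne'
        field_simp
        ring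
    rw [e4, e3]
    ring
  have hIpos : ∀ w : V → E3, ∀ d ∈ DI, 0 ≤ c d * (z d.fst * z d.snd *
          ‖(z d.fst)⁻¹ • w d.fst - (z d.snd)⁻¹ • w d.snd‖ ^ 2) := by
    intro w d hd
    by_cases hcd : c d = 0
    · rw [hcd, zero_mul]
    · obtain ⟨z1, z2⟩ := hz d ((hmemI d).mp hd).1 hcd
      rw [← hzdef] at z1 z2
      have := hc d
      positivity
  have hOpos : ∀ w : V → E3, ∀ d ∈ DO, 0 ≤ c d * (z d.snd / z d.fst * ‖w d.fst‖ ^ 2) := by
    intro w d hd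
    by_cases hcd : c d = 0
    · rw [hcd, zero_mul]
    · obtain ⟨z1, z2⟩ := hz d ((hmemO d).mp hd).1 hcd
      rw [← hzdef] at z1 z2
      have := hc d
      positivity
  obtain ⟨w, hw⟩ : ∃ w : V → E3, ∀ v, w v = q v - p v := ⟨_, fun _ => rfl⟩
  have h1 := hid w
  have h2 : ∑ d ∈ DB, c d * ⟪p d.fst, p d.snd⟫ * ‖w d.fst‖ ^ 2
      = ∑ d ∈ DB, 2 * (c d * (⟪p d.fst, p d.snd⟫ - ⟪q d.fst, p d.snd⟫)) := by
    have a1 : ∑ d ∈ DB, c d * ⟪p d.fst, p d.snd⟫ * ‖w d.fst‖ ^ 2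
        = ∑ d ∈ DB, c d * ⟪p d.fst, p d.snd⟫ * 2
          - ∑ d ∈ DB, c d * ⟪p d.fst, p d.snd⟫ * (2 * ⟪q d.fst, p d.fst⟫) := by
      rw [← Finset.sum_sub_distrib]
      refine Finset.sum_congr rfl (fun d _ => ?_)
      rw [hw, norm_sub_sq_real, hp, hq]; ring
    rw [a1, hfib p (fun v => 2 * ⟪q v, p v⟫)]
    have a2 : ∑ v ∈ Finset.univ.filter (fun v => v ∈ B), m v * ⟪p v, p v⟫ * (2 * ⟪q v, p v⟫)
        = ∑ d ∈ DB, c d * ⟪q d.fst, p d.snd⟫ * 2 := by
      rw [hfib q (fun _ => 2)]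
      refine Finset.sum_congr rfl (fun v _ => ?_)
      rw [inner_self_one (hp v)]; ring
    rw [a2, ← Finset.sum_sub_distrib]
    refine Finset.sum_congr rfl (fun d _ => ?_)
    ring
  have h3 : ∑ d ∈ DI, c d * ⟪w d.fst, w d.snd⟫
      = ∑ d ∈ DI, c d * (⟪q d.fst, q d.snd⟫ + ⟪p d.fst, p d.snd⟫
          - 2 * ⟪q d.fst, p d.snd⟫) := by
    have b1 : ∑ d ∈ DI, c d * ⟪w d.fst, w d.snd⟫
        = ∑ d ∈ DI, c d * (⟪q d.fst, q d.snd⟫ + ⟪p d.fst, p d.snd⟫
          - ⟪q d.fst, p d.snd⟫) - ∑ d ∈ DI, c d * ⟪q d.snd, p d.fst⟫ := by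
      rw [← Finset.sum_sub_distrib]
      refine Finset.sum_congr rfl (fun d _ => ?_)
      rw [hw, hw, inner_sub_left, inner_sub_right, inner_sub_right,
        real_inner_comm (p d.fst) (q d.snd)]
      ring
    have b2 : ∑ d ∈ DI, c d * ⟪q d.snd, p d.fst⟫ = ∑ d ∈ DI, c d * ⟪q d.fst, p d.snd⟫ := by
      rw [← hswap (fun d => c d * ⟪q d.fst, p d.snd⟫)]
      refine Finset.sum_congr rfl (fun d _ => ?_)
      rw [hsym]
      rfl
    rw [b1, b2, ← Finset.sum_sub_distrib]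
    refine Finset.sum_congr rfl (fun d _ => ?_)
    ring
  -- all terms vanish
  have c1 : ∀ d ∈ DI, 0 ≤ c d * (⟪q d.fst, q d.snd⟫ - ⟪p d.fst, p d.snd⟫) := by
    intro d hd
    by_cases hcd : c d = 0
    · rw [hcd, zero_mul]
    · exact mul_nonneg (hc d) (sub_nonneg.mpr (hle d ((hmemI d).mp hd).1 hcd))
  have c2 : ∀ d ∈ DO, 0 ≤ c d * (⟪q d.fst, q d.snd⟫ - ⟪p d.fst, p d.snd⟫) := by
    intro d hd
    by_cases hcd : c d = 0
    · rw [hcd, zero_mul]
    · exact mul_nonneg (hc d) (sub_nonneg.mpr (hle d ((hmemO d).mp hd).1 hcd))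
  have h4 : ∑ d ∈ DB, c d * ⟪p d.fst, p d.snd⟫ * ‖w d.fst‖ ^ 2
      - ∑ d ∈ DI, c d * ⟪w d.fst, w d.snd⟫
      = - ∑ d ∈ DI, c d * (⟪q d.fst, q d.snd⟫ - ⟪p d.fst, p d.snd⟫)
        - 2 * ∑ d ∈ DO, c d * (⟪q d.fst, q d.snd⟫ - ⟪p d.fst, p d.snd⟫) := by
    rw [h2, h3, hsplit, add_sub_right_comm, ← Finset.sum_sub_distrib, ← Finset.sum_neg_distrib,
      Finset.mul_sum, sub_eq_add_neg, ← Finset.sum_neg_distrib]
    congr 1
    · refine Finset.sum_congr rfl (fun d _ => ?_)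
      ring
    · refine Finset.sum_congr rfl (fun d hd => ?_)
      by_cases hcd : c d = 0
      · rw [hcd]; ring
      · have hB := (hmemO d).mp hd
        rw [hout d hB.1 hcd hB.2]; ring
  have s1 := Finset.sum_nonneg c1
  have s2 := Finset.sum_nonneg c2
  have s3 := Finset.sum_nonneg (hIpos w)
  have s4 := Finset.sum_nonneg (hOpos w)
  have t1 : ∑ d ∈ DI, c d * (⟪q d.fst, q d.snd⟫ - ⟪p d.fst, p d.snd⟫) = 0 := by linarith
  have t2 : ∑ d ∈ DO, c d * (⟪q d.fst, q d.snd⟫ - ⟪p d.fst, p d.snd⟫) = 0 := by linarith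
  have t3 := (Finset.sum_eq_zero_iff_of_nonneg (hIpos w)).mp (by linarith)
  have t4 := (Finset.sum_eq_zero_iff_of_nonneg (hOpos w)).mp (by linarith)
  have u1 := (Finset.sum_eq_zero_iff_of_nonneg c1).mp t1
  have u2 := (Finset.sum_eq_zero_iff_of_nonneg c2).mp t2
  intro d hdB hcd
  obtain ⟨z1, z2⟩ := hz d hdB hcd
  rw [← hzdef] at z1 z2
  refine ⟨?_, ?_, ?_⟩
  · by_cases hB : d.snd ∈ B
    · have := u1 d ((hmemI d).mpr ⟨hdB, hB⟩)
      rcases mul_eq_zero.mp this with h | h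
      · exact absurd h hcd
      · linarith
    · have := u2 d ((hmemO d).mpr ⟨hdB, hB⟩)
      rcases mul_eq_zero.mp this with h | h
      · exact absurd h hcd
      · linarith
  · intro hB
    have z2' := (hz d.symm hB (by rw [hsym]; exact hcd)).1
    have z2' : 0 < ⟪nn, p d.snd⟫ := z2'
    rw [← hzdef] at z2'
    have h5 := t3 d ((hmemI d).mpr ⟨hdB, hB⟩)
    rcases mul_eq_zero.mp h5 with h | h
    · exact absurd h hcd
    · rcases mul_eq_zero.mp h with h | h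
      · exact absurd h (mul_pos z1 z2').ne'
      · have h6 : (z d.fst)⁻¹ • w d.fst = (z d.snd)⁻¹ • w d.snd :=
          sub_eq_zero.mp (norm_eq_zero.mp (pow_eq_zero_iff two_ne_zero |>.mp h))
        rw [← hzdef, ← hzdef, ← hw, ← hw]
        calc z d.snd • w d.fst = (z d.fst * z d.snd) • ((z d.fst)⁻¹ • w d.fst) := by
              rw [smul_smul]; congr 1; field_simp
          _ = (z d.fst * z d.snd) • ((z d.snd)⁻¹ • w d.snd) := by rw [h6]
          _ = z d.fst • w d.snd := by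
              rw [smul_smul]; congr 1; field_simp
  · intro hB hz2
    rw [← hzdef] at hz2
    have h5 := t4 d ((hmemO d).mpr ⟨hdB, hB⟩)
    rcases mul_eq_zero.mp h5 with h | h
    · exact absurd h hcd
    · rcases mul_eq_zero.mp h with h | h
      · exact absurd h (div_pos hz2 z1).ne'
      · have h6 : w d.fst = 0 := norm_eq_zero.mp (pow_eq_zero_iff two_ne_zero |>.mp h)
        rw [hw] at h6
        exact sub_eq_zero.mp h6

end Pool.Agent.Helper30.N9
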