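import Pool.Agent.Helper24.N9.Deg2
import Pool.Agent.Helper72.N9.MM2
import Pool.Agent.Helper72.N9.FiveC
import Pool.Agent.Helper93.N9.A5

/-! MP_9b91d1_co, row MMT. -/

open scoped RealInnerProductSpace Topology

namespace Pool.Agent.Helper30.N9

namespace PlaneGraph

variable {V : Type} [Fintype V] [DecidableEq V] {M : PlaneGraph V}

/-- every vertex starts a dart -/
theorem exists_dart_conn {p : V → E3} (hc : M.G.Connected) (hp : M.InC p) (v : V) :
    ∃ d : M.G.Dart, d.fst = v := by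
  have hne : Nonempty M.G.Dart := by
    by_contra hcon
    rw [not_nonempty_iff] at hcon
    obtain ⟨h, _, _, _, h4⟩ := hp.deg
    rw [Finset.univ_eq_empty, Finset.sum_empty] at h4
    have := Real.pi_pos
    linarith
  obtain ⟨d⟩ := hne
  obtain ⟨u, hu⟩ : ∃ u : V, u ≠ v := by
    by_cases h : d.fst = v
    · exact ⟨d.snd, fun h' => d.adj.ne (h.trans h'.symm)⟩
    · exact ⟨d.fst, h⟩
  obtain ⟨w⟩ := hc.preconnected v u
  cases w with
  | nil => exact absurd rfl hu
  | cons h _ => exact ⟨⟨(v, _), h⟩, rfl⟩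

/-- both faces of a dart at an inner vertex are inside -/
theorem InV.ind_fst {T : M.Face → Prop} {d : M.G.Dart} (h : M.InV T d.fst) : M.InD T d := by
  refine ⟨h d rfl, ?_⟩
  have := h (M.nxt d.symm) (by rw [M.nxt_fst]; rfl)
  rwa [M.fc_nxt] at this

theorem InV.ind_snd {T : M.Face → Prop} {d : M.G.Dart} (h : M.InV T d.snd) : M.InD T d := by
  have := InV.ind_fst (M := M) (T := T) (d := d.symm) h
  exact ⟨by have h2 := this.2; simpa using h2, this.1⟩

/-- a vertex of T that is not inner lies on the boundary -/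
theorem onB_of_not_inV {T : M.Face → Prop} {d : M.G.Dart} (hd : T (M.fc d))
    (h : ¬ M.InV T d.fst) : M.OnB T d.fst := by
  unfold InV at h
  push Not at h
  obtain ⟨e, he, heT⟩ := h
  obtain ⟨f, hf, hff⟩ := exists_bd_at (M := M) {w | T w} (d := d) (e := e) hd heT he.symm
  rw [mem_bd93] at hf
  exact ⟨f, hff, Or.inl hf⟩

end PlaneGraph

open PlaneGraph

theorem mmt (hFA : ST_FARKAS) : ST_MMT := by
  intro V _ _ M p q nn T hconn hLM hq hLe hT0 hV0 hB0 hex
  classical
  have hp := hLM.1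
  obtain ⟨B, hB⟩ : ∃ B : Set V, ∀ v, v ∈ B ↔ (M.InV T v ∧ q v ≠ p v) :=
    ⟨{v | M.InV T v ∧ q v ≠ p v}, fun _ => Iff.rfl⟩
  obtain ⟨v0, hv0⟩ := hex
  obtain ⟨d0, hd0⟩ := exists_dart_conn hconn hp v0
  obtain ⟨om, o0, osym, oA, ⟨d1, hd1⟩, oeq⟩ := hFA V M p hLM {v | v ∉ B}
    ⟨d0, fun hm => hm (by rw [hB, hd0]; exact hv0)⟩
  have hwt : M.Wt om := ⟨o0, osym⟩
  have heqB : ∀ v ∈ B, M.EqAt p om v := by
    intro v hv
    exact oeq v (fun hm => hm hv)
  have hone : ∀ d, om d ≠ 0 → d.fst ∈ B ∨ d.snd ∈ B := by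
    intro d hd
    by_contra hcon
    push Not at hcon
    exact hd (oA d hcon.1 hcon.2)
  have hInD : ∀ d, om d ≠ 0 → M.InD T d := by
    intro d hd
    rcases hone d hd with h | h
    · exact ((hB _).mp h).1.ind_fst
    · exact ((hB _).mp h).1.ind_snd
  have hsndT : ∀ d : M.G.Dart, om d ≠ 0 → T (M.fc d.symm) := fun d hd => (hInD d hd).2
  -- the fixed neighbours
  have hfix : ∀ d : M.G.Dart, om d ≠ 0 → d.snd ∉ B → q d.snd = p d.snd := by
    intro d hd hn
    by_cases hi : M.InV T d.snd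
    · by_contra hne
      exact hn ((hB _).mpr ⟨hi, hne⟩)
    · exact hB0 _ (onB_of_not_inV (d := d.symm) (hsndT d hd) hi)
  have h2 := mm2 V M p q B om nn hp.unit hq (fun d => hp.q_ne d) hwt
    (fun d _ hd hn => hfix d hd hn) heqB
    (fun d hdB hd => ⟨hV0 _ ((hB _).mp hdB).1, hT0 d.symm (hsndT d hd)⟩)
    (fun d _ _ => inner_le_of_ang (hq _) (hq _) (hp.unit _) (hp.unit _) (hLe d))
  have hz0 : ∀ d : M.G.Dart, om d ≠ 0 → d.snd ∉ B → d.fst ∈ B ∧ ⟪nn, p d.snd⟫ = 0 := by
    intro d hd hn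
    have hf : d.fst ∈ B := by
      rcases hone d hd with h | h
      · exact h
      · exact absurd h hn
    refine ⟨hf, ?_⟩
    have h3 := (h2 d hf hd).2.2 hn
    have h4 : 0 ≤ ⟪nn, p d.snd⟫ := hT0 d.symm (hsndT d hd)
    rcases h4.lt_or_eq with h5 | h5
    · exact absurd (h3 h5) ((hB _).mp hf).2
    · exact h5.symm
  refine ⟨om, hwt, ⟨d1, hd1⟩, hInD, ?_, ?_, ?_, ?_, ?_⟩
  · intro v hv
    by_cases hvB : v ∈ B
    · exact heqB v hvB
    · unfold EqAt
      refine Finset.sum_eq_zero (fun d hd => ?_)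
      have hdv := (Finset.mem_filter.mp hd).2
      by_cases hod : om d = 0
      · rw [hod, zero_smul]
      · exfalso
        have h3 := hz0 d.symm (by rw [osym]; exact hod) (by
          show d.fst ∉ B
          rw [hdv]; exact hvB)
        have h4 : ⟪nn, p d.fst⟫ = 0 := h3.2
        rw [hdv] at h4
        have := hV0 v hv
        linarith
  · intro d hd
    rcases hone d hd with h | h
    · exact Or.inl ((hB _).mp h)
    · exact Or.inr ((hB _).mp h)
  · intro d hd
    rcases hone d hd with h | h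
    · exact (h2 d h hd).1
    · have := (h2 d.symm h (by rw [osym]; exact hd)).1
      have h3 : ⟪q d.snd, q d.fst⟫ = ⟪p d.snd, p d.fst⟫ := this
      rw [real_inner_comm, h3, real_inner_comm]
  · intro d hd hn
    have hn' : d.snd ∉ B := fun h => hn ((hB _).mp h)
    have h3 := hz0 d hd hn'
    refine ⟨h3.2, ?_⟩
    apply onB_of_not_inV (d := d.symm) (hsndT d hd)
    intro hi
    have h4 := hV0 d.snd hi
    linarith [h3.2]
  · intro d hd hf hs
    exact (h2 d ((hB _).mpr hf) hd).2.1 ((hB _).mpr hs)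

end Pool.Agent.Helper30.N9
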