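import Pool.Agent.Helper66.N9.An7Stmt

/-! Far region, part 1: smooth approximation and compactness. -/

namespace N9

open scoped Quaternion

/-- Stone-Weierstrass: smooth functions are dense on compact sets. -/
theorem sw_real {E : Type*} [NormedAddCommGroup E] [NormedSpace ℝ E] (X : Set E)
    (hX : IsCompact X) (f : E → ℝ) (hf : ContinuousOn f X) (ε : ℝ) (hε : 0 < ε) :
    ∃ g : E → ℝ, ContDiff ℝ 1 g ∧ ∀ x ∈ X, |g x - f x| < ε := by
  have : CompactSpace X := isCompact_iff_compactSpace.1 hX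
  let A : Subalgebra ℝ C(X, ℝ) :=
    { carrier := {φ | ∃ g : E → ℝ, ContDiff ℝ 1 g ∧ ∀ x : X, φ x = g x}
      mul_mem' := by
        rintro φ ψ ⟨g, hg, hφ⟩ ⟨k, hk, hψ⟩
        exact ⟨fun x => g x * k x, hg.mul hk, fun x => by
          rw [ContinuousMap.mul_apply, hφ, hψ]⟩
      add_mem' := by
        rintro φ ψ ⟨g, hg, hφ⟩ ⟨k, hk, hψ⟩
        exact ⟨fun x => g x + k x, hg.add hk, fun x => by
          rw [ContinuousMap.add_apply, hφ, hψ]⟩
      algebraMap_mem' := by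
        intro c
        exact ⟨fun _ => c, contDiff_const, fun x => by simp⟩ }
  have hsep : A.SeparatesPoints := by
    intro x y hxy
    have hne : (x : E) ≠ (y : E) := fun h => hxy (Subtype.ext h)
    obtain ⟨L, hL⟩ := SeparatingDual.exists_separating_of_ne (R := ℝ) hne
    refine ⟨fun z : X => L z, ?_, hL⟩
    refine ⟨⟨fun z : X => L z, L.continuous.comp continuous_subtype_val⟩, ?_, rfl⟩
    exact ⟨fun z => L z, L.contDiff, fun z => rfl⟩
  obtain ⟨g, hg⟩ := ContinuousMap.exists_mem_subalgebra_near_continuousMap_of_separatesPoints A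
    hsep ⟨X.domRestrict f, hf.domRestrict⟩ ε hε
  obtain ⟨g0, hg0, hg1⟩ := g.2
  refine ⟨g0, hg0, fun x hx => ?_⟩
  have h1 := ContinuousMap.norm_coe_le_norm ((g : C(X, ℝ)) - ⟨X.domRestrict f, hf.domRestrict⟩) ⟨x, hx⟩
  rw [Real.norm_eq_abs, ContinuousMap.sub_apply, hg1] at h1
  exact lt_of_le_of_lt h1 hg

theorem sw_V3 {E : Type*} [NormedAddCommGroup E] [NormedSpace ℝ E] (X : Set E)
    (hX : IsCompact X) (f : E → V3) (hf : ContinuousOn f X) (ε : ℝ) (hε : 0 < ε) :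
    ∃ g : E → V3, ContDiff ℝ 1 g ∧ ∀ x ∈ X, ‖g x - f x‖ < ε := by
  have h : ∀ j : Fin 3, ∃ g : E → ℝ, ContDiff ℝ 1 g ∧ ∀ x ∈ X, |g x - f x j| < ε := fun j =>
    sw_real X hX (fun x => f x j) ((continuous_apply j).comp_continuousOn hf) ε hε
  choose g hg hg' using h
  refine ⟨fun x j => g j x, contDiff_pi.2 hg, fun x hx => ?_⟩
  rw [pi_norm_lt_iff hε]
  intro j
  rw [Pi.sub_apply, Real.norm_eq_abs]
  exact hg' j x hx

section

variable {I K : Type} [Fintype I] [Fintype K] (D : AData I K)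

theorem real_sub : D.real ⊆ Set.Icc (0 : I → ℝ) 1 := by
  intro a ha
  obtain ⟨h0, h1, _⟩ := ha
  refine ⟨fun i => h0 i, fun i => ?_⟩
  have := Finset.single_le_sum (f := a) (fun i _ => h0 i) (Finset.mem_univ i)
  rw [h1] at this
  exact this

theorem real_closed : IsClosed D.real := by
  have e : D.real = ({a | ∀ i, 0 ≤ a i} ∩ {a | ∑ i, a i = 1}) ∩
      ⋃ k : K, ⋃ t ∈ D.tri k, {a : I → ℝ | ∀ i, i ∉ t → a i = 0} := by
    ext a
    simp only [AData.real, Set.mem_ofPred_eq, Set.mem_inter_iff, Set.mem_iUnion, exists_prop]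
    tauto
  rw [e]
  have c1 : IsClosed {a : I → ℝ | ∀ i, 0 ≤ a i} := by
    have : {a : I → ℝ | ∀ i, 0 ≤ a i} = ⋂ i, {a : I → ℝ | 0 ≤ a i} := by
      ext a; simp
    rw [this]
    exact isClosed_iInter (fun i => isClosed_le continuous_const (continuous_apply i))
  have c2 : IsClosed {a : I → ℝ | ∑ i, a i = 1} :=
    isClosed_eq (continuous_finsetSum _ (fun i _ => continuous_apply i)) continuous_const
  refine (c1.inter c2).inter ?_
  refine isClosed_iUnion_of_finite (fun k => ?_)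
  refine Set.Finite.isClosed_biUnion (D.tri k).finite_toSet (fun t _ => ?_)
  have : {a : I → ℝ | ∀ i, i ∉ t → a i = 0} = ⋂ i, ⋂ (_ : i ∉ t), {a : I → ℝ | a i = 0} := by
    ext a; simp
  rw [this]
  exact isClosed_iInter (fun i => isClosed_iInter (fun _ =>
    isClosed_eq (continuous_apply i) continuous_const))

theorem real_compact : IsCompact D.real :=
  IsCompact.of_isClosed_subset isCompact_Icc (real_closed D) (real_sub D)

/-- the smooth homotopy: uniform lower bounds near the complex -/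
theorem smooth_htp (h6 : D.A6) : ∃ Ht : ℝ × (I → ℝ) → V3, ContDiff ℝ 1 Ht ∧
    ∃ cH : ℝ, 0 < cH ∧ ∃ η : ℝ, 0 < η ∧ η ≤ 1 / 2 ∧
    ∀ a : I → ℝ, (∀ i, 0 ≤ a i) → ∑ i, a i ≤ 1 → ∀ k, ∀ t ∈ D.tri k,
      1 - η ≤ ∑ i ∈ t, a i → ∃ b : ℝ → V3, (∀ θ ∈ Set.Icc (0 : ℝ) 1, cH ≤ ‖b θ‖) ∧
        (∀ θ ∈ Set.Icc (0 : ℝ) 1, ‖Ht (θ, a) - b θ‖ ≤ cH / 4) ∧
        ‖∑ i, a i • D.q i - b 0‖ ≤ cH / 4 ∧ ‖∑ i, a i • D.p i - b 1‖ ≤ cH / 4 := by
  classical
  obtain ⟨H, hHc, hH⟩ := h6
  have hX : IsCompact (Set.Icc (0 : ℝ) 1 ×ˢ D.real) := isCompact_Icc.prod (real_compact D)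
  obtain ⟨cH, hcH, hcH'⟩ := hX.exists_forall_le' (f := fun x => ‖H x‖) hHc.norm (a := 0)
    (fun x hx => norm_pos_iff.2 (by
      have := (hH x.2 hx.2).2.2 x.1 hx.1
      simpa using this))
  obtain ⟨Ht, hHt, hHt'⟩ := sw_V3 _ hX H hHc (cH / 8) (by positivity)
  refine ⟨Ht, hHt, cH, hcH, ?_⟩
  have hY : IsCompact (Set.Icc (0 : ℝ) 1 ×ˢ Set.Icc (0 : I → ℝ) 1) :=
    isCompact_Icc.prod isCompact_Icc
  have hu1 := Metric.uniformContinuousOn_iff_le.1
    (hY.uniformContinuousOn_of_continuous hHt.continuous.continuousOn) (cH / 8) (by positivity)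
  obtain ⟨δ1, hδ1, hu1⟩ := hu1
  have cq : Continuous (fun a : I → ℝ => ∑ i, a i • D.q i) :=
    continuous_finsetSum _ (fun i _ => (continuous_apply i).smul continuous_const)
  have cp : Continuous (fun a : I → ℝ => ∑ i, a i • D.p i) :=
    continuous_finsetSum _ (fun i _ => (continuous_apply i).smul continuous_const)
  have hZ : IsCompact (Set.Icc (0 : I → ℝ) 1) := isCompact_Icc
  obtain ⟨δ2, hδ2, hu2⟩ := Metric.uniformContinuousOn_iff_le.1
    (hZ.uniformContinuousOn_of_continuous cq.continuousOn) (cH / 8) (by positivity)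
  obtain ⟨δ3, hδ3, hu3⟩ := Metric.uniformContinuousOn_iff_le.1
    (hZ.uniformContinuousOn_of_continuous cp.continuousOn) (cH / 8) (by positivity)
  set η : ℝ := min (1 / 2) (min δ1 (min δ2 δ3)) with hη
  have hη0 : 0 < η := lt_min (by norm_num) (lt_min hδ1 (lt_min hδ2 hδ3))
  have hη1 : η ≤ 1 / 2 := min_le_left _ _
  have hηd1 : η ≤ δ1 := (min_le_right _ _).trans (min_le_left _ _)
  have hηd2 : η ≤ δ2 := (min_le_right _ _).trans ((min_le_right _ _).trans (min_le_left _ _))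
  have hηd3 : η ≤ δ3 := (min_le_right _ _).trans ((min_le_right _ _).trans (min_le_right _ _))
  refine ⟨η, hη0, hη1, ?_⟩
  intro a ha0 ha1 k t ht hσ
  set σ : ℝ := ∑ i ∈ t, a i with hσd
  have hσ0 : 0 < σ := by linarith
  have hsplit : ∑ i, a i = σ + ∑ i ∈ tᶜ, a i := (Finset.sum_add_sum_compl t a).symm
  have hσ1 : σ ≤ 1 := by
    have : 0 ≤ ∑ i ∈ tᶜ, a i := Finset.sum_nonneg (fun i _ => ha0 i)
    linarith
  set a' : I → ℝ := fun i => if i ∈ t then a i / σ else 0 with ha'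
  have ha'real : a' ∈ D.real := by
    refine ⟨fun i => ?_, ?_, k, t, ht, fun i hi => ?_⟩
    · simp only [ha']
      split_ifs
      · exact div_nonneg (ha0 i) hσ0.le
      · exact le_refl _
    · simp only [ha']
      rw [← Finset.sum_filter, Finset.filter_mem_eq_inter, Finset.univ_inter, ← Finset.sum_div]
      exact div_self hσ0.ne'
    · simp only [ha', if_neg hi]
  have haI : a ∈ Set.Icc (0 : I → ℝ) 1 := by
    refine ⟨fun i => ha0 i, fun i => ?_⟩
    have := Finset.single_le_sum (f := a) (fun i _ => ha0 i) (Finset.mem_univ i)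
    exact this.trans ha1
  have ha'I := real_sub D ha'real
  have hdist : dist a a' ≤ η := by
    rw [dist_pi_le_iff hη0.le]
    intro i
    rw [Real.dist_eq]
    simp only [ha']
    split_ifs with hi
    · have h1 : a i - a i / σ = - ((a i / σ) * (1 - σ)) := by field_simp; ring
      have h2 : a i / σ ≤ 1 := by
        rw [div_le_one hσ0]
        exact Finset.single_le_sum (f := a) (fun i _ => ha0 i) hi
      have h3 : 0 ≤ a i / σ := div_nonneg (ha0 i) hσ0.le
      rw [h1, abs_neg, abs_of_nonneg (mul_nonneg h3 (by linarith))]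
      calc a i / σ * (1 - σ) ≤ 1 * (1 - σ) := mul_le_mul_of_nonneg_right h2 (by linarith)
        _ ≤ η := by linarith
    · rw [sub_zero, abs_of_nonneg (ha0 i)]
      have hi' : i ∈ tᶜ := Finset.mem_compl.2 hi
      have := Finset.single_le_sum (f := a) (fun i _ => ha0 i) hi'
      linarith
  refine ⟨fun θ => H (θ, a'), ?_, ?_, ?_, ?_⟩
  · intro θ hθ
    exact hcH' (θ, a') ⟨hθ, ha'real⟩
  · intro θ hθ
    have h1 := hu1 (θ, a) ⟨hθ, haI⟩ (θ, a') ⟨hθ, ha'I⟩ (by
      rw [Prod.dist_eq]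
      simp only [dist_self]
      exact max_le hδ1.le (hdist.trans hηd1))
    have h2 := (hHt' (θ, a') ⟨hθ, ha'real⟩).le
    rw [dist_eq_norm] at h1
    calc ‖Ht (θ, a) - H (θ, a')‖ = ‖(Ht (θ, a) - Ht (θ, a')) + (Ht (θ, a') - H (θ, a'))‖ := by
          congr 1; abel
      _ ≤ cH / 8 + cH / 8 := (norm_add_le _ _).trans (add_le_add h1 h2)
      _ = cH / 4 := by ring
  · have h1 := hu2 a haI a' ha'I (hdist.trans hηd2)
    rw [dist_eq_norm] at h1
    show ‖∑ i, a i • D.q i - H (0, a')‖ ≤ cH / 4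
    rw [(hH a' ha'real).1]
    linarith
  · have h1 := hu3 a haI a' ha'I (hdist.trans hηd3)
    rw [dist_eq_norm] at h1
    show ‖∑ i, a i • D.p i - H (1, a')‖ ≤ cH / 4
    rw [(hH a' ha'real).2.1]
    linarith

end

end N9
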