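import Pool.Agent.Helper72.N9.An7a

/-! Far region, part 2: the interpolating map and its lower bounds. -/

namespace N9

open scoped Quaternion

theorem pd_prod {E F : Type*} [NormedAddCommGroup E] [NormedSpace ℝ E] [NormedAddCommGroup F]
    [NormedSpace ℝ F] {f : V3 → E} {g : V3 → F} {x : V3} (hf : DifferentiableAt ℝ f x)
    (hg : DifferentiableAt ℝ g x) (l : Fin 3) :
    pd l (fun y => (f y, g y)) x = (pd l f x, pd l g x) := by
  unfold pd
  rw [DifferentiableAt.fderiv_prodMk hf hg]; rfl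

theorem pd_pi {ι : Type} [Fintype ι] {f : V3 → ι → ℝ} {x : V3}
    (hf : ∀ i, DifferentiableAt ℝ (fun y => f y i) x) (l : Fin 3) :
    pd l f x = fun i => pd l (fun y => f y i) x := by
  unfold pd
  have h := hasFDerivAt_pi.2 (fun i => (hf i).hasFDerivAt)
  rw [h.fderiv]
  rfl

theorem pd_comp {E F : Type*} [NormedAddCommGroup E] [NormedSpace ℝ E] [NormedAddCommGroup F]
    [NormedSpace ℝ F] (Γ : E → F) (Φ : V3 → E) {x : V3} (hΓ : DifferentiableAt ℝ Γ (Φ x))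
    (hΦ : DifferentiableAt ℝ Φ x) (l : Fin 3) :
    pd l (fun y => Γ (Φ y)) x = fderiv ℝ Γ (Φ x) (pd l Φ x) := by
  unfold pd
  have h := hΓ.hasFDerivAt.comp x hΦ.hasFDerivAt
  have e0 : (fun y => Γ (Φ y)) = Γ ∘ Φ := rfl
  rw [e0, h.fderiv]
  rfl

/-- bounded derivative of the smooth transition -/
theorem st_deriv : ∃ K : ℝ, 1 ≤ K ∧ ∀ t, |deriv Real.smoothTransition t| ≤ K := by
  have hc : Continuous (deriv Real.smoothTransition) :=
    (Real.smoothTransition.contDiff (n := 1)).continuous_deriv (by norm_num)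
  obtain ⟨K, hK⟩ := (isCompact_Icc (a := (0 : ℝ)) (b := 1)).exists_bound_of_continuousOn
    hc.continuousOn
  refine ⟨max K 1, le_max_right _ _, fun t => ?_⟩
  have h1 : (0 : ℝ) ≤ max K 1 := le_trans zero_le_one (le_max_right _ _)
  by_cases ht : t < 0
  · have : Real.smoothTransition =ᶠ[nhds t] fun _ => 0 := by
      filter_upwards [gt_mem_nhds ht] with y hy
      exact Real.smoothTransition.zero_of_nonpos (le_of_lt hy)
    rw [this.deriv_eq]; simp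
  · by_cases ht' : 1 < t
    · have : Real.smoothTransition =ᶠ[nhds t] fun _ => 1 := by
        filter_upwards [lt_mem_nhds ht'] with y hy
        exact Real.smoothTransition.one_of_one_le (le_of_lt hy)
      rw [this.deriv_eq]; simp
    · push Not at ht ht'
      have := hK t ⟨ht, ht'⟩
      rw [Real.norm_eq_abs] at this
      exact this.trans (le_max_left _ _)

theorem exp_small (κ B ε : ℝ) (hκ : 0 < κ) (hB : 0 ≤ B) (hε : 0 < ε) :
    ∃ s1 : ℝ, 1 ≤ s1 ∧ ∀ s, s1 ≤ s → B * Real.exp (-(κ * s)) ≤ ε := by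
  refine ⟨max 1 (B / (κ * ε)), le_max_left _ _, fun s hs => ?_⟩
  have h1 : 1 ≤ s := (le_max_left _ _).trans hs
  have h2 : B / (κ * ε) ≤ s := (le_max_right _ _).trans hs
  have hs0 : 0 < s := by linarith
  have hks : 0 < κ * s := mul_pos hκ hs0
  rw [div_le_iff₀ (mul_pos hκ hε)] at h2
  have h3 : κ * s ≤ Real.exp (κ * s) := by
    have := Real.add_one_le_exp (κ * s)
    linarith
  rw [Real.exp_neg]
  have h4 : (Real.exp (κ * s))⁻¹ ≤ (κ * s)⁻¹ := inv_anti₀ hks h3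
  calc B * (Real.exp (κ * s))⁻¹ ≤ B * (κ * s)⁻¹ := mul_le_mul_of_nonneg_left h4 hB
    _ ≤ ε := by
      rw [← div_eq_mul_inv, div_le_iff₀ hks]
      nlinarith

theorem conv_near {E : Type*} [NormedAddCommGroup E] [NormedSpace ℝ E] {u v b : E} {t ρ : ℝ}
    (ht0 : 0 ≤ t) (ht1 : t ≤ 1) (hu : ‖u - b‖ ≤ ρ) (hv : ‖v - b‖ ≤ ρ) :
    ‖((1 - t) • u + t • v) - b‖ ≤ ρ := by
  have e : ((1 - t) • u + t • v) - b = (1 - t) • (u - b) + t • (v - b) := by module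
  rw [e]
  refine (norm_add_le _ _).trans ?_
  rw [norm_smul, norm_smul, Real.norm_eq_abs, Real.norm_eq_abs, abs_of_nonneg ht0,
    abs_of_nonneg (by linarith : 0 ≤ 1 - t)]
  nlinarith

theorem norm_low {E : Type*} [NormedAddCommGroup E] {u b : E} {cH : ℝ} (hb : cH ≤ ‖b‖)
    (h : ‖u - b‖ ≤ cH / 4) : 3 * cH / 4 ≤ ‖u‖ := by
  have h1 : ‖b‖ ≤ ‖u‖ + ‖u - b‖ := by
    have := norm_sub_le u (u - b)
    have e : u - (u - b) = b := by abel
    rw [e] at this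
    exact this
  linarith

theorem st_mem (t : ℝ) : Real.smoothTransition t ∈ Set.Icc (0 : ℝ) 1 :=
  ⟨Real.smoothTransition.nonneg t, Real.smoothTransition.le_one t⟩

/-- the middle part -/
noncomputable def mid {E : Type*} [NormedAddCommGroup E] [NormedSpace ℝ E]
    (Q P : E) (Hθ : ℝ → E) (x1 x2 x3 : ℝ) : E :=
  (1 - x1) • Q + x1 • ((1 - x3) • Hθ x2 + x3 • P)

theorem mid_low {E : Type*} [NormedAddCommGroup E] [NormedSpace ℝ E] {Q P : E} {Hθ b : ℝ → E}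
    {cH : ℝ} (hb : ∀ θ ∈ Set.Icc (0 : ℝ) 1, cH ≤ ‖b θ‖)
    (hH : ∀ θ ∈ Set.Icc (0 : ℝ) 1, ‖Hθ θ - b θ‖ ≤ cH / 4)
    (hQ : ‖Q - b 0‖ ≤ cH / 4) (hP : ‖P - b 1‖ ≤ cH / 4) (m : ℝ) :
    3 * cH / 4 ≤ ‖mid Q P Hθ (Real.smoothTransition (3 * (m - 1)))
      (Real.smoothTransition (3 * (m - 1) - 1)) (Real.smoothTransition (3 * (m - 1) - 2))‖ := by
  unfold mid
  have i0 : (0 : ℝ) ∈ Set.Icc (0 : ℝ) 1 := ⟨le_refl _, zero_le_one⟩
  have i1 : (1 : ℝ) ∈ Set.Icc (0 : ℝ) 1 := ⟨zero_le_one, le_refl _⟩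
  rcases le_total (3 * (m - 1)) 1 with h | h
  · rw [Real.smoothTransition.zero_of_nonpos (by linarith : 3 * (m - 1) - 1 ≤ 0),
      Real.smoothTransition.zero_of_nonpos (by linarith : 3 * (m - 1) - 2 ≤ 0)]
    rw [sub_zero, one_smul, zero_smul, add_zero]
    exact norm_low (hb 0 i0) (conv_near (st_mem _).1 (st_mem _).2 hQ (hH 0 i0))
  · rw [Real.smoothTransition.one_of_one_le h, sub_self, zero_smul, zero_add, one_smul]
    rcases le_total (3 * (m - 1)) 2 with h' | h'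
    · rw [Real.smoothTransition.zero_of_nonpos (by linarith : 3 * (m - 1) - 2 ≤ 0)]
      rw [sub_zero, one_smul, zero_smul, add_zero]
      exact norm_low (hb _ (st_mem _)) (hH _ (st_mem _))
    · rw [Real.smoothTransition.one_of_one_le (by linarith : 1 ≤ 3 * (m - 1) - 1)]
      exact norm_low (hb 1 i1) (conv_near (st_mem _).1 (st_mem _).2 (hH 1 i1) hP)

/-- parameter space -/
abbrev PS (I : Type) : Type := ℝ × ℝ × ℝ × ℝ × (I → ℝ) × V3

/-- the interpolating map -/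
noncomputable def Gam {I : Type} [Fintype I] (p q : I → V3) (Ht : ℝ × (I → ℝ) → V3)
    (x : PS I) : V3 :=
  (1 - x.2.2.2.1) • ((1 - x.1) • (∑ i, x.2.2.2.2.1 i • q i)
     + x.1 • ((1 - x.2.2.1) • Ht (x.2.1, x.2.2.2.2.1) + x.2.2.1 • ∑ i, x.2.2.2.2.1 i • p i))
   + x.2.2.2.1 • x.2.2.2.2.2

theorem Gam_contDiff {I : Type} [Fintype I] (p q : I → V3) (Ht : ℝ × (I → ℝ) → V3)
    (hHt : ContDiff ℝ 1 Ht) : ContDiff ℝ 1 (Gam p q Ht) := by
  have c1 : ContDiff ℝ 1 (fun x : PS I => x.1) := contDiff_fst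
  have c2 : ContDiff ℝ 1 (fun x : PS I => x.2.1) := contDiff_fst.comp contDiff_snd
  have c3 : ContDiff ℝ 1 (fun x : PS I => x.2.2.1) :=
    contDiff_fst.comp (contDiff_snd.comp contDiff_snd)
  have c4 : ContDiff ℝ 1 (fun x : PS I => x.2.2.2.1) :=
    contDiff_fst.comp (contDiff_snd.comp (contDiff_snd.comp contDiff_snd))
  have c5 : ContDiff ℝ 1 (fun x : PS I => x.2.2.2.2.1) :=
    contDiff_fst.comp (contDiff_snd.comp (contDiff_snd.comp (contDiff_snd.comp contDiff_snd)))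
  have c6 : ContDiff ℝ 1 (fun x : PS I => x.2.2.2.2.2) :=
    contDiff_snd.comp (contDiff_snd.comp (contDiff_snd.comp (contDiff_snd.comp contDiff_snd)))
  have c7 : ContDiff ℝ 1 (fun x : PS I => Ht (x.2.1, x.2.2.2.2.1)) := hHt.comp (c2.prodMk c5)
  have cs : ∀ w : I → V3, ContDiff ℝ 1 (fun x : PS I => ∑ i, x.2.2.2.2.1 i • w i) := by
    intro w
    exact ContDiff.sum (fun i _ => ((contDiff_pi.1 c5) i).smul contDiff_const)
  unfold Gam
  exact ((contDiff_const.sub c4).smul (((contDiff_const.sub c1).smul (cs q)).add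
    (c1.smul (((contDiff_const.sub c3).smul c7).add (c3.smul (cs p)))))).add (c4.smul c6)

/-- bound of the derivative on the compact set of parameters -/
theorem Gam_bound {I : Type} [Fintype I] (p q : I → V3) (Ht : ℝ × (I → ℝ) → V3)
    (hHt : ContDiff ℝ 1 Ht) (R : ℝ) : ∃ CG : ℝ, 1 ≤ CG ∧ ∀ x : PS I,
      x.1 ∈ Set.Icc (0 : ℝ) 1 → x.2.1 ∈ Set.Icc (0 : ℝ) 1 → x.2.2.1 ∈ Set.Icc (0 : ℝ) 1 →
      x.2.2.2.1 ∈ Set.Icc (0 : ℝ) 1 → x.2.2.2.2.1 ∈ Set.Icc (0 : I → ℝ) 1 →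
      x.2.2.2.2.2 ∈ cube R → ‖fderiv ℝ (Gam p q Ht) x‖ ≤ CG := by
  have hK : IsCompact ((Set.Icc (0 : ℝ) 1) ×ˢ (Set.Icc (0 : ℝ) 1) ×ˢ (Set.Icc (0 : ℝ) 1) ×ˢ
      (Set.Icc (0 : ℝ) 1) ×ˢ (Set.Icc (0 : I → ℝ) 1) ×ˢ (cube R)) :=
    isCompact_Icc.prod (isCompact_Icc.prod (isCompact_Icc.prod (isCompact_Icc.prod
      (isCompact_Icc.prod (cube_compact R)))))
  have hc : Continuous (fderiv ℝ (Gam p q Ht)) :=
    (Gam_contDiff p q Ht hHt).continuous_fderiv (by norm_num)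
  obtain ⟨CG, hCG⟩ := hK.exists_bound_of_continuousOn hc.continuousOn
  refine ⟨max CG 1, le_max_right _ _, fun x h1 h2 h3 h4 h5 h6 => ?_⟩
  exact (hCG x ⟨h1, h2, h3, h4, h5, h6⟩).trans (le_max_left _ _)

theorem cr_le (F : V3 → V3) (y : V3) (a : ℍ[ℝ]) (B : ℝ) (h : ∀ i, vn (pd i F y) ≤ B) :
    cr F y a ≤ 3 * B * ‖a‖ ^ 2 := by
  unfold cr
  have h1 : ∀ i, inner ℝ (e i * a) (a * im (pd i F y)) ≤ B * ‖a‖ ^ 2 := by
    intro i
    refine (real_inner_le_norm _ _).trans ?_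
    have h2 : ‖e i * a‖ = ‖a‖ := by
      have := norm_e_mul i a
      exact (pow_left_inj₀ (norm_nonneg _) (norm_nonneg _) two_ne_zero).1 this
    have h3 := h i
    unfold vn at h3
    rw [h2, norm_mul]
    nlinarith [norm_nonneg a, mul_nonneg (norm_nonneg a) (norm_nonneg a)]
  calc ∑ i, inner ℝ (e i * a) (a * im (pd i F y)) ≤ ∑ _i : Fin 3, B * ‖a‖ ^ 2 :=
        Finset.sum_le_sum (fun i _ => h1 i)
    _ = 3 * B * ‖a‖ ^ 2 := by simp; ring

end N9
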