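import Pool.Agent.Helper66.N9.Div

/-! MP_9b91d1_co, block AN: the functional inequality (FI), abstract form. -/

namespace N9

open MeasureTheory
open scoped Quaternion

theorem fun_sum_sq (a : Fin 3 → ℝ) (v : Fin 3 → ℍ[ℝ]) :
    ‖∑ i, a i • v i‖ ^ 2 ≤ (∑ i, a i ^ 2) * ∑ i, ‖v i‖ ^ 2 := by
  have h1 : ‖∑ i, a i • v i‖ ≤ ∑ i, |a i| * ‖v i‖ := by
    refine (norm_sum_le _ _).trans (le_of_eq ?_)
    refine Finset.sum_congr rfl (fun i _ => ?_)
    rw [norm_smul, Real.norm_eq_abs]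
  have h2 : (∑ i, |a i| * ‖v i‖) ^ 2 ≤ (∑ i, |a i| ^ 2) * ∑ i, ‖v i‖ ^ 2 :=
    Finset.sum_mul_sq_le_sq_mul_sq _ _ _
  have h3 : ∑ i, |a i| ^ 2 = ∑ i, a i ^ 2 := Finset.sum_congr rfl (fun i _ => sq_abs _)
  rw [h3] at h2
  refine le_trans ?_ h2
  gcongr

/-- derivative of the weight -/
theorem fun_pd_exp {w : V3 → ℝ} (hw : ContDiff ℝ 1 w) (i : Fin 3) (x : V3) :
    pd i (fun y => Real.exp (-2 * w y)) x = -2 * Real.exp (-2 * w x) * pd i w x := by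
  unfold pd
  have hd : HasFDerivAt w (fderiv ℝ w x) x := (hw.differentiable (by norm_num) x).hasFDerivAt
  have h1 : HasFDerivAt (fun y => -2 * w y) ((-2 : ℝ) • fderiv ℝ w x) x :=
    hd.const_mul (-2 : ℝ)
  have h2 := h1.exp
  rw [h2.fderiv]
  show Real.exp (-2 * w x) * (-2 * (fderiv ℝ w x) (Pi.single i 1)) = _
  ring

theorem fun_pd_normsq {Z : V3 → ℍ[ℝ]} (hZ : ContDiff ℝ 1 Z) (i : Fin 3) (x : V3) :
    pd i (fun y => ‖Z y‖ ^ 2) x = 2 * inner ℝ (Z x) (pd i Z x) := by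
  unfold pd
  have hd : HasFDerivAt Z (fderiv ℝ Z x) x := (hZ.differentiable (by norm_num) x).hasFDerivAt
  have h1 := hd.norm_sq
  rw [h1.fderiv]
  simp

theorem fun_pd_mul {f g : V3 → ℝ} (hf : ContDiff ℝ 1 f) (hg : ContDiff ℝ 1 g) (i : Fin 3)
    (x : V3) : pd i (fun y => f y * g y) x = pd i f x * g x + f x * pd i g x := by
  unfold pd
  have h1 : HasFDerivAt f (fderiv ℝ f x) x := (hf.differentiable (by norm_num) x).hasFDerivAt
  have h2 : HasFDerivAt g (fderiv ℝ g x) x := (hg.differentiable (by norm_num) x).hasFDerivAt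
  have h3 : HasFDerivAt (fun y => f y * g y) (f x • fderiv ℝ g x + g x • fderiv ℝ f x) x :=
    h1.mul h2
  rw [h3.fderiv]
  show f x * (fderiv ℝ g x) (Pi.single i 1) + g x * (fderiv ℝ f x) (Pi.single i 1) = _
  ring

theorem fun_comp_contDiff {X : V3 → V3} (hX : ContDiff ℝ 1 X) (i : Fin 3) :
    ContDiff ℝ 1 (fun y => X y i) := by
  exact (contDiff_pi.mp hX) i

theorem fun_dv_cont {X : V3 → V3} (hX : ContDiff ℝ 1 X) : Continuous (dv X) := by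
  unfold dv
  exact continuous_finsetSum _ (fun i _ => pd_cont (fun_comp_contDiff hX i) i)

/-- the integrated divergence inequality -/
theorem fun_base (R : ℝ) (hR : 0 < R) (w : V3 → ℝ) (hw : ContDiff ℝ 1 w) (X : V3 → V3)
    (hX : ContDiff ℝ 1 X) (hX0 : ∀ i x, x ∈ box R → x i = 0 → X x i ≤ 0)
    (hX1 : ∀ i x, x ∈ box R → x i = R → 0 ≤ X x i) (Z : V3 → ℍ[ℝ]) (hZ : ContDiff ℝ 1 Z) :
    0 ≤ ∫ x in box R, Real.exp (-2 * w x) * (dv X x * ‖Z x‖ ^ 2 -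
      2 * (∑ i, X x i * pd i w x) * ‖Z x‖ ^ 2 + 2 * inner ℝ (Z x) (∑ i, X x i • pd i Z x)) := by
  have hE : ContDiff ℝ 1 (fun y => Real.exp (-2 * w y)) :=
    Real.contDiff_exp.comp (contDiff_const.mul hw)
  have hN : ContDiff ℝ 1 (fun y => ‖Z y‖ ^ 2) := hZ.norm_sq ℝ
  have hEN : ContDiff ℝ 1 (fun y => Real.exp (-2 * w y) * ‖Z y‖ ^ 2) := hE.mul hN
  have h := div_box_nonneg R hR (fun i x => X x i * (Real.exp (-2 * w x) * ‖Z x‖ ^ 2))
    (fun i => (fun_comp_contDiff hX i).mul hEN)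
    (fun i x hx hxi => mul_nonneg (hX1 i x hx hxi) (by positivity))
    (fun i x hx hxi => mul_nonpos_of_nonpos_of_nonneg (hX0 i x hx hxi) (by positivity))
  refine h.trans (le_of_eq ?_)
  congr 1
  funext x
  have e1 : ∀ i, pd i (fun x => X x i * (Real.exp (-2 * w x) * ‖Z x‖ ^ 2)) x =
      Real.exp (-2 * w x) * (pd i (fun y => X y i) x * ‖Z x‖ ^ 2 -
        2 * (X x i * pd i w x) * ‖Z x‖ ^ 2 + 2 * inner ℝ (Z x) (X x i • pd i Z x)) := by
    intro i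
    rw [fun_pd_mul (fun_comp_contDiff hX i) hEN, fun_pd_mul hE hN, fun_pd_exp hw,
      fun_pd_normsq hZ, inner_smul_right]
    ring
  rw [Finset.sum_congr rfl (fun i _ => e1 i), ← Finset.mul_sum]
  congr 1
  rw [Finset.sum_add_distrib, Finset.sum_sub_distrib, ← Finset.sum_mul, ← Finset.sum_mul,
    ← Finset.mul_sum, ← Finset.mul_sum, ← inner_sum]
  rfl

/-- (FI) -/
theorem fun_ineq (R : ℝ) (hR : 0 < R) (w : V3 → ℝ) (hw : ContDiff ℝ 1 w) (X : V3 → V3)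
    (hX : ContDiff ℝ 1 X) (hX0 : ∀ i x, x ∈ box R → x i = 0 → X x i ≤ 0)
    (hX1 : ∀ i x, x ∈ box R → x i = R → 0 ≤ X x i)
    (A B : ℝ) (hB : 0 ≤ B) (hA : ∀ x ∈ box R, nsq (X x) ≤ A ^ 2)
    (Q : Set V3) (hQ : MeasurableSet Q) (hQR : Q ⊆ box R)
    (hd1 : ∀ x ∈ box R, x ∉ Q → dv X x ≤ -1) (hd2 : ∀ x ∈ Q, dv X x ≤ B)
    (hω : ∀ x ∈ Q, Real.exp (-2 * w x) ≤ 1 ∧ 1 / 2 ≤ Real.exp (-2 * w x))
    (ψ : V3 → ℝ) (hψ : Continuous ψ)
    (hψw : ∀ x ∈ box R, ψ x - 1 / 8 ≤ ∑ i, X x i * pd i w x)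
    (Z : V3 → ℍ[ℝ]) (hZ : ContDiff ℝ 1 Z) (Cp : ℝ) (hCp : 0 ≤ Cp)
    (hP : ∫ x in Q, ‖Z x‖ ^ 2 ≤ Cp * ∫ x in Q, ∑ i, ‖pd i Z x‖ ^ 2) :
    (1 / 2) * (∫ x in box R, Real.exp (-2 * w x) * ‖Z x‖ ^ 2) +
      2 * (∫ x in box R, Real.exp (-2 * w x) * (ψ x * ‖Z x‖ ^ 2)) ≤
    (4 * A ^ 2 + 2 * (1 + B) * Cp) *
      ∫ x in box R, Real.exp (-2 * w x) * ∑ i, ‖pd i Z x‖ ^ 2 := by
  have hcw : Continuous w := hw.continuous
  have hcE : Continuous (fun x => Real.exp (-2 * w x)) := by fun_prop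
  have hcZ : Continuous (fun x => ‖Z x‖ ^ 2) := by
    have := hZ.continuous
    fun_prop
  have hcG : Continuous (fun x => ∑ i, ‖pd i Z x‖ ^ 2) :=
    continuous_finsetSum _ (fun i _ => ((pd_cont hZ i).norm).pow 2)
  have hmb : MeasurableSet (box R) := measurableSet_Icc
  -- pointwise bound
  have hpt : ∀ x ∈ box R, Real.exp (-2 * w x) * (dv X x * ‖Z x‖ ^ 2 -
      2 * (∑ i, X x i * pd i w x) * ‖Z x‖ ^ 2 + 2 * inner ℝ (Z x) (∑ i, X x i • pd i Z x)) ≤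
      (-(1 / 2) * (Real.exp (-2 * w x) * ‖Z x‖ ^ 2) -
        2 * (Real.exp (-2 * w x) * (ψ x * ‖Z x‖ ^ 2)) +
        4 * A ^ 2 * (Real.exp (-2 * w x) * ∑ i, ‖pd i Z x‖ ^ 2)) +
        Q.indicator (fun x => (1 + B) * (Real.exp (-2 * w x) * ‖Z x‖ ^ 2)) x := by
    intro x hx
    have hE0 : 0 < Real.exp (-2 * w x) := Real.exp_pos _
    have hN0 : 0 ≤ ‖Z x‖ ^ 2 := by positivity
    have hin : 2 * inner ℝ (Z x) (∑ i, X x i • pd i Z x) ≤
        (1 / 4) * ‖Z x‖ ^ 2 + 4 * A ^ 2 * ∑ i, ‖pd i Z x‖ ^ 2 := by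
      have h1 := real_inner_le_norm (Z x) (∑ i, X x i • pd i Z x)
      have h2 := fun_sum_sq (X x) (fun i => pd i Z x)
      have h3 : (∑ i, X x i ^ 2) ≤ A ^ 2 := hA x hx
      have hG0 : 0 ≤ ∑ i, ‖pd i Z x‖ ^ 2 := by positivity
      have h4 : ‖∑ i, X x i • pd i Z x‖ ^ 2 ≤ A ^ 2 * ∑ i, ‖pd i Z x‖ ^ 2 :=
        h2.trans (mul_le_mul_of_nonneg_right h3 hG0)
      nlinarith [sq_nonneg (‖Z x‖ / 2 - 2 * ‖∑ i, X x i • pd i Z x‖), norm_nonneg (Z x),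
        norm_nonneg (∑ i, X x i • pd i Z x)]
    have hψx := hψw x hx
    by_cases hq : x ∈ Q
    · rw [Set.indicator_of_mem hq]
      have hd := hd2 x hq
      have key : dv X x * ‖Z x‖ ^ 2 - 2 * (∑ i, X x i * pd i w x) * ‖Z x‖ ^ 2 +
          2 * inner ℝ (Z x) (∑ i, X x i • pd i Z x) ≤
          -(1 / 2) * ‖Z x‖ ^ 2 - 2 * (ψ x * ‖Z x‖ ^ 2) + 4 * A ^ 2 * ∑ i, ‖pd i Z x‖ ^ 2 +
            (1 + B) * ‖Z x‖ ^ 2 := by
        nlinarith [mul_le_mul_of_nonneg_right hd hN0, mul_le_mul_of_nonneg_right hψx hN0]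
      have := mul_le_mul_of_nonneg_left key hE0.le
      nlinarith [this]
    · rw [Set.indicator_of_notMem hq]
      have hd := hd1 x hx hq
      have key : dv X x * ‖Z x‖ ^ 2 - 2 * (∑ i, X x i * pd i w x) * ‖Z x‖ ^ 2 +
          2 * inner ℝ (Z x) (∑ i, X x i • pd i Z x) ≤
          -(1 / 2) * ‖Z x‖ ^ 2 - 2 * (ψ x * ‖Z x‖ ^ 2) + 4 * A ^ 2 * ∑ i, ‖pd i Z x‖ ^ 2 := by
        nlinarith [mul_le_mul_of_nonneg_right hd hN0, mul_le_mul_of_nonneg_right hψx hN0]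
      have := mul_le_mul_of_nonneg_left key hE0.le
      nlinarith [this]
  -- integrate
  have hc1 : Continuous (fun x => Real.exp (-2 * w x) * ‖Z x‖ ^ 2) := hcE.mul hcZ
  have hc2 : Continuous (fun x => Real.exp (-2 * w x) * (ψ x * ‖Z x‖ ^ 2)) :=
    hcE.mul (hψ.mul hcZ)
  have hc3 : Continuous (fun x => Real.exp (-2 * w x) * ∑ i, ‖pd i Z x‖ ^ 2) := hcE.mul hcG
  have hi1 := integrableOn_box hc1 R
  have hi2 := integrableOn_box hc2 R
  have hi3 := integrableOn_box hc3 R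
  have hi4 : IntegrableOn (Q.indicator (fun x => (1 + B) * (Real.exp (-2 * w x) * ‖Z x‖ ^ 2)))
      (box R) := by
    have : IntegrableOn (fun x => (1 + B) * (Real.exp (-2 * w x) * ‖Z x‖ ^ 2)) (box R) :=
      hi1.const_mul _
    exact this.indicator hQ
  have hbase := fun_base R hR w hw X hX hX0 hX1 Z hZ
  have hcdv := fun_dv_cont hX
  have hcX : ∀ i, Continuous (fun x => X x i) := fun i => (fun_comp_contDiff hX i).continuous
  have hcL : Continuous (fun x => Real.exp (-2 * w x) * (dv X x * ‖Z x‖ ^ 2 -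
      2 * (∑ i, X x i * pd i w x) * ‖Z x‖ ^ 2 +
      2 * inner ℝ (Z x) (∑ i, X x i • pd i Z x))) := by
    have hs1 : Continuous (fun x => ∑ i, X x i * pd i w x) :=
      continuous_finsetSum _ (fun i _ => (hcX i).mul (pd_cont hw i))
    have hs2 : Continuous (fun x => ∑ i, X x i • pd i Z x) :=
      continuous_finsetSum _ (fun i _ => (hcX i).smul (pd_cont hZ i))
    have hs3 : Continuous (fun x => (inner ℝ (Z x) (∑ i, X x i • pd i Z x) : ℝ)) :=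
      hZ.continuous.inner hs2
    fun_prop
  have j1 : IntegrableOn (fun x => -(1 / 2) * (Real.exp (-2 * w x) * ‖Z x‖ ^ 2)) (box R) :=
    hi1.const_mul _
  have j2 : IntegrableOn (fun x => 2 * (Real.exp (-2 * w x) * (ψ x * ‖Z x‖ ^ 2))) (box R) :=
    hi2.const_mul _
  have j3 : IntegrableOn (fun x => 4 * A ^ 2 * (Real.exp (-2 * w x) * ∑ i, ‖pd i Z x‖ ^ 2))
      (box R) := hi3.const_mul _
  have j12 : IntegrableOn (fun x => -(1 / 2) * (Real.exp (-2 * w x) * ‖Z x‖ ^ 2) -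
      2 * (Real.exp (-2 * w x) * (ψ x * ‖Z x‖ ^ 2))) (box R) := j1.sub j2
  have hsum : IntegrableOn (fun x => (-(1 / 2) * (Real.exp (-2 * w x) * ‖Z x‖ ^ 2) -
        2 * (Real.exp (-2 * w x) * (ψ x * ‖Z x‖ ^ 2)) +
        4 * A ^ 2 * (Real.exp (-2 * w x) * ∑ i, ‖pd i Z x‖ ^ 2))) (box R) :=
    j12.add j3
  have hsum4 : IntegrableOn (fun x => (-(1 / 2) * (Real.exp (-2 * w x) * ‖Z x‖ ^ 2) -
        2 * (Real.exp (-2 * w x) * (ψ x * ‖Z x‖ ^ 2)) +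
        4 * A ^ 2 * (Real.exp (-2 * w x) * ∑ i, ‖pd i Z x‖ ^ 2)) +
        Q.indicator (fun x => (1 + B) * (Real.exp (-2 * w x) * ‖Z x‖ ^ 2)) x) (box R) :=
    hsum.add hi4
  have hmono := setIntegral_mono_on (integrableOn_box hcL R) hsum4 hmb hpt
  have hint : ∫ x in box R, ((-(1 / 2) * (Real.exp (-2 * w x) * ‖Z x‖ ^ 2) -
        2 * (Real.exp (-2 * w x) * (ψ x * ‖Z x‖ ^ 2)) +
        4 * A ^ 2 * (Real.exp (-2 * w x) * ∑ i, ‖pd i Z x‖ ^ 2)) +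
        Q.indicator (fun x => (1 + B) * (Real.exp (-2 * w x) * ‖Z x‖ ^ 2)) x) =
      -(1 / 2) * (∫ x in box R, Real.exp (-2 * w x) * ‖Z x‖ ^ 2) -
        2 * (∫ x in box R, Real.exp (-2 * w x) * (ψ x * ‖Z x‖ ^ 2)) +
        4 * A ^ 2 * (∫ x in box R, Real.exp (-2 * w x) * ∑ i, ‖pd i Z x‖ ^ 2) +
        (1 + B) * ∫ x in Q, Real.exp (-2 * w x) * ‖Z x‖ ^ 2 := by
    rw [integral_add hsum hi4, integral_add j12 j3, integral_sub j1 j2,
      integral_const_mul, integral_const_mul, integral_const_mul]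
    congr 1
    rw [setIntegral_indicator hQ, Set.inter_eq_right.mpr hQR, integral_const_mul]
  rw [hint] at hmono
  -- the part on `Q`
  have hiQ1 : IntegrableOn (fun x => Real.exp (-2 * w x) * ‖Z x‖ ^ 2) Q := hi1.mono_set hQR
  have hiQ2 : IntegrableOn (fun x => ‖Z x‖ ^ 2) Q := (integrableOn_box hcZ R).mono_set hQR
  have hiQ3 : IntegrableOn (fun x => ∑ i, ‖pd i Z x‖ ^ 2) Q :=
    (integrableOn_box hcG R).mono_set hQR
  have hiQ4 : IntegrableOn (fun x => Real.exp (-2 * w x) * ∑ i, ‖pd i Z x‖ ^ 2) Q :=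
    hi3.mono_set hQR
  have q1 : ∫ x in Q, Real.exp (-2 * w x) * ‖Z x‖ ^ 2 ≤ ∫ x in Q, ‖Z x‖ ^ 2 := by
    refine setIntegral_mono_on hiQ1 hiQ2 hQ (fun x hx => ?_)
    have := (hω x hx).1
    nlinarith [sq_nonneg ‖Z x‖]
  have q2 : ∫ x in Q, ∑ i, ‖pd i Z x‖ ^ 2 ≤
      2 * ∫ x in Q, Real.exp (-2 * w x) * ∑ i, ‖pd i Z x‖ ^ 2 := by
    rw [← integral_const_mul]
    refine setIntegral_mono_on hiQ3 (hiQ4.const_mul _) hQ (fun x hx => ?_)
    have h1 := (hω x hx).2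
    have h2 : 0 ≤ ∑ i, ‖pd i Z x‖ ^ 2 := by positivity
    nlinarith
  have q3 : ∫ x in Q, Real.exp (-2 * w x) * ∑ i, ‖pd i Z x‖ ^ 2 ≤
      ∫ x in box R, Real.exp (-2 * w x) * ∑ i, ‖pd i Z x‖ ^ 2 := by
    refine setIntegral_mono_set hi3 (Filter.Eventually.of_forall (fun x => ?_))
      (LE.le.eventuallyLE hQR)
    show (0 : ℝ) ≤ _
    positivity
  have q4 : ∫ x in Q, Real.exp (-2 * w x) * ‖Z x‖ ^ 2 ≤
      2 * Cp * ∫ x in box R, Real.exp (-2 * w x) * ∑ i, ‖pd i Z x‖ ^ 2 := by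
    calc _ ≤ ∫ x in Q, ‖Z x‖ ^ 2 := q1
      _ ≤ Cp * ∫ x in Q, ∑ i, ‖pd i Z x‖ ^ 2 := hP
      _ ≤ Cp * (2 * ∫ x in box R, Real.exp (-2 * w x) * ∑ i, ‖pd i Z x‖ ^ 2) := by
          gcongr
          exact q2.trans (by linarith)
      _ = _ := by ring
  have q5 := mul_le_mul_of_nonneg_left q4 (by linarith : (0 : ℝ) ≤ 1 + B)
  nlinarith [hbase, hmono, q5]

/-- (FI) for a constant -/
theorem fun_const (R : ℝ) (hR : 0 < R) (w : V3 → ℝ) (hw : ContDiff ℝ 1 w) (X : V3 → V3)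
    (hX : ContDiff ℝ 1 X) (hX0 : ∀ i x, x ∈ box R → x i = 0 → X x i ≤ 0)
    (hX1 : ∀ i x, x ∈ box R → x i = R → 0 ≤ X x i)
    (B : ℝ) (hB : 0 ≤ B)
    (Q : Set V3) (hQ : MeasurableSet Q) (hQR : Q ⊆ box R)
    (hd1 : ∀ x ∈ box R, x ∉ Q → dv X x ≤ -1) (hd2 : ∀ x ∈ Q, dv X x ≤ B)
    (hω : ∀ x ∈ Q, Real.exp (-2 * w x) ≤ 1)
    (ψ : V3 → ℝ) (hψ : Continuous ψ)
    (hψw : ∀ x ∈ box R, ψ x - 1 / 8 ≤ ∑ i, X x i * pd i w x) :
    (3 / 4) * (∫ x in box R, Real.exp (-2 * w x)) +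
      2 * (∫ x in box R, Real.exp (-2 * w x) * ψ x) ≤ (1 + B) * (volume Q).toReal := by
  have hcw : Continuous w := hw.continuous
  have hcE : Continuous (fun x => Real.exp (-2 * w x)) := by fun_prop
  have hmb : MeasurableSet (box R) := measurableSet_Icc
  have hbase := fun_base R hR w hw X hX hX0 hX1 (fun _ => (1 : ℍ[ℝ])) contDiff_const
  have e0 : ∀ x, Real.exp (-2 * w x) * (dv X x * ‖(1 : ℍ[ℝ])‖ ^ 2 -
      2 * (∑ i, X x i * pd i w x) * ‖(1 : ℍ[ℝ])‖ ^ 2 +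
      2 * inner ℝ (1 : ℍ[ℝ]) (∑ i, X x i • pd i (fun _ => (1 : ℍ[ℝ])) x)) =
      Real.exp (-2 * w x) * (dv X x - 2 * (∑ i, X x i * pd i w x)) := by
    intro x
    have : ∀ i, pd i (fun _ => (1 : ℍ[ℝ])) x = 0 := by
      intro i
      unfold pd
      simp
    simp [this]
  simp_rw [e0] at hbase
  have hcdv := fun_dv_cont hX
  have hcX : ∀ i, Continuous (fun x => X x i) := fun i => (fun_comp_contDiff hX i).continuous
  have hs1 : Continuous (fun x => ∑ i, X x i * pd i w x) :=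
    continuous_finsetSum _ (fun i _ => (hcX i).mul (pd_cont hw i))
  have hcL : Continuous (fun x => Real.exp (-2 * w x) *
      (dv X x - 2 * (∑ i, X x i * pd i w x))) := by fun_prop
  have hi1 := integrableOn_box hcE R
  have hi2 : IntegrableOn (fun x => Real.exp (-2 * w x) * ψ x) (box R) :=
    integrableOn_box (hcE.mul hψ) R
  have hi4 : IntegrableOn (Q.indicator (fun x => (1 + B) * Real.exp (-2 * w x))) (box R) := by
    have : IntegrableOn (fun x => (1 + B) * Real.exp (-2 * w x)) (box R) := hi1.const_mul _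
    exact this.indicator hQ
  have hpt : ∀ x ∈ box R, Real.exp (-2 * w x) * (dv X x - 2 * (∑ i, X x i * pd i w x)) ≤
      (-(3 / 4) * Real.exp (-2 * w x) - 2 * (Real.exp (-2 * w x) * ψ x)) +
        Q.indicator (fun x => (1 + B) * Real.exp (-2 * w x)) x := by
    intro x hx
    have hE0 : 0 < Real.exp (-2 * w x) := Real.exp_pos _
    have hψx := hψw x hx
    by_cases hq : x ∈ Q
    · rw [Set.indicator_of_mem hq]
      have hd := hd2 x hq
      nlinarith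
    · rw [Set.indicator_of_notMem hq]
      have hd := hd1 x hx hq
      nlinarith
  have j1 : IntegrableOn (fun x => -(3 / 4) * Real.exp (-2 * w x)) (box R) := hi1.const_mul _
  have j2 : IntegrableOn (fun x => 2 * (Real.exp (-2 * w x) * ψ x)) (box R) := hi2.const_mul _
  have hsum : IntegrableOn (fun x => (-(3 / 4) * Real.exp (-2 * w x) -
      2 * (Real.exp (-2 * w x) * ψ x))) (box R) := j1.sub j2
  have hsum4 : IntegrableOn (fun x => (-(3 / 4) * Real.exp (-2 * w x) -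
      2 * (Real.exp (-2 * w x) * ψ x)) +
        Q.indicator (fun x => (1 + B) * Real.exp (-2 * w x)) x) (box R) := hsum.add hi4
  have hmono := setIntegral_mono_on (integrableOn_box hcL R) hsum4 hmb hpt
  have hint : ∫ x in box R, ((-(3 / 4) * Real.exp (-2 * w x) -
        2 * (Real.exp (-2 * w x) * ψ x)) +
        Q.indicator (fun x => (1 + B) * Real.exp (-2 * w x)) x) =
      -(3 / 4) * (∫ x in box R, Real.exp (-2 * w x)) -
        2 * (∫ x in box R, Real.exp (-2 * w x) * ψ x) +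
        (1 + B) * ∫ x in Q, Real.exp (-2 * w x) := by
    rw [integral_add hsum hi4, integral_sub j1 j2,
      integral_const_mul, integral_const_mul]
    congr 1
    rw [setIntegral_indicator hQ, Set.inter_eq_right.mpr hQR, integral_const_mul]
  rw [hint] at hmono
  have hfin : volume Q ≠ ⊤ := by
    refine ne_top_of_le_ne_top ?_ (measure_mono hQR)
    exact (isCompact_Icc.measure_lt_top).ne
  have q1 : ∫ x in Q, Real.exp (-2 * w x) ≤ (volume Q).toReal := by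
    have h1 : ∫ x in Q, Real.exp (-2 * w x) ≤ ∫ _x in Q, (1 : ℝ) := by
      refine setIntegral_mono_on (hi1.mono_set hQR) ?_ hQ (fun x hx => hω x hx)
      exact integrableOn_const hfin
    refine h1.trans (le_of_eq ?_)
    rw [setIntegral_const]
    simp [Measure.real]
  have q5 := mul_le_mul_of_nonneg_left q1 (by linarith : (0 : ℝ) ≤ 1 + B)
  linarith

end N9
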